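import Mathlib

set_option autoImplicit false
open scoped ComplexOrder

namespace Pool.Agent.Helper234.Exact

theorem exists_onb {V : Type*} [AddCommGroup V] [Module ℂ V] [FiniteDimensional ℂ V]
    (c : InnerProductSpace.Core ℂ V) :
    ∃ (r : ℕ) (b : Module.Basis (Fin r) ℂ V),
      ∀ i j, c.inner (b i) (b j) = if i = j then 1 else 0 := by
  let _ : NormedAddCommGroup V := @InnerProductSpace.Core.toNormedAddCommGroup ℂ V _ _ _ c
  let _ : InnerProductSpace ℂ V := InnerProductSpace.ofCore c.toCore
  let b := stdOrthonormalBasis ℂ V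
  refine ⟨_, b.toBasis, ?_⟩
  intro i j
  have := orthonormal_iff_ite.1 b.orthonormal i j
  simpa using this

/-- the canonical trace -/
noncomputable def τ (D : Type) [CStarAlgebra D] : D →ₗ[ℂ] ℂ :=
  (LinearMap.trace ℂ D).comp (Algebra.lmul ℂ D).toLinearMap

theorem τ_apply {D : Type} [CStarAlgebra D] (x : D) :
    τ D x = LinearMap.trace ℂ D (Algebra.lmul ℂ D x) := rfl

theorem τ_comm {D : Type} [CStarAlgebra D] (x y : D) : τ D (x * y) = τ D (y * x) := by
  have h1 : ∀ a b : D, Algebra.lmul ℂ D (a * b) = Algebra.lmul ℂ D a * Algebra.lmul ℂ D b :=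
    fun a b => map_mul _ a b
  rw [τ_apply, τ_apply, h1, h1, LinearMap.trace_mul_comm]

section
variable {D : Type} [CStarAlgebra D] [FiniteDimensional ℂ D]

theorem root_mem {x : D} {μ : ℂ} (h : μ ∈ (LinearMap.charpoly (Algebra.lmul ℂ D x)).roots) :
    μ ∈ spectrum ℂ x := by
  have h1 := Polynomial.isRoot_of_mem_roots h
  rw [← Module.End.hasEigenvalue_iff_isRoot_charpoly] at h1
  obtain ⟨y, hy⟩ := h1.exists_hasEigenvector
  have h2 : x * y = μ • y := hy.apply_eq_smul
  rw [spectrum.mem_iff]
  intro hu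
  have h3 : (algebraMap ℂ D μ - x) * y = 0 := by
    rw [sub_mul, h2, Algebra.algebraMap_eq_smul_one, smul_mul_assoc, one_mul, sub_self]
  exact hy.2 ((hu.mul_right_eq_zero).1 h3)

theorem τ_eq_sum (x : D) : τ D x = (LinearMap.charpoly (Algebra.lmul ℂ D x)).roots.sum :=
  Module.End.trace_eq_sum_roots_charpoly_of_splits (IsAlgClosed.splits _)

theorem τ_nonneg {x : D} (hx : ∀ μ ∈ spectrum ℂ x, 0 ≤ μ) : 0 ≤ τ D x := by
  rw [τ_eq_sum]
  exact Multiset.sum_nonneg fun μ hμ => hx μ (root_mem hμ)

theorem τ_real {x : D} (hx : IsSelfAdjoint x) : (starRingEnd ℂ) (τ D x) = τ D x := by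
  rw [τ_eq_sum, ← Multiset.sum_hom, Multiset.map_congr rfl, Multiset.map_id]
  intro μ hμ
  have := hx.mem_spectrum_eq_re (root_mem hμ)
  rw [id, this]
  exact Complex.conj_ofReal _

theorem τ_star (x : D) : τ D (star x) = (starRingEnd ℂ) (τ D x) := by
  have h1 : x = (realPart x : D) + Complex.I • (imaginaryPart x : D) :=
    (realPart_add_I_smul_imaginaryPart x).symm
  have hr : IsSelfAdjoint (realPart x : D) := (realPart x).2
  have hi : IsSelfAdjoint (imaginaryPart x : D) := (imaginaryPart x).2
  have h2 : star x = (realPart x : D) - Complex.I • (imaginaryPart x : D) := by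
    conv_lhs => rw [h1]
    rw [star_add, star_smul, hr.star_eq, hi.star_eq, Complex.star_def, Complex.conj_I, neg_smul,
      sub_eq_add_neg]
  rw [h2]
  conv_rhs => rw [h1]
  rw [map_sub, map_add, map_smul, map_add, τ_real hr, smul_eq_mul, map_mul, τ_real hi,
    Complex.conj_I]
  ring

theorem τ_pos_def {x : D} (hx : IsSelfAdjoint x) (h0 : ∀ μ ∈ spectrum ℂ x, 0 ≤ μ)
    (h : τ D x = 0) : x = 0 := by
  rw [τ_eq_sum] at h
  have hroots : ∀ μ ∈ (LinearMap.charpoly (Algebra.lmul ℂ D x)).roots, μ = 0 :=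
    Multiset.all_zero_of_le_zero_le_of_sum_eq_zero (fun μ hμ => h0 μ (root_mem hμ)) h
  have hch : ∃ k, LinearMap.charpoly (Algebra.lmul ℂ D x) = Polynomial.X ^ k := by
    have h1 := (IsAlgClosed.splits (LinearMap.charpoly (Algebra.lmul ℂ D x))).eq_prod_roots_of_monic
      (LinearMap.charpoly_monic _)
    have h2 : (LinearMap.charpoly (Algebra.lmul ℂ D x)).roots =
        Multiset.replicate (Multiset.card (LinearMap.charpoly (Algebra.lmul ℂ D x)).roots) 0 :=
      Multiset.eq_replicate.2 ⟨rfl, hroots⟩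
    rw [h2] at h1
    refine ⟨Multiset.card (LinearMap.charpoly (Algebra.lmul ℂ D x)).roots, h1.trans ?_⟩
    simp
  obtain ⟨k, hk⟩ := hch
  have h3 := LinearMap.aeval_self_charpoly (Algebra.lmul ℂ D x)
  rw [hk, map_pow, Polynomial.aeval_X, ← map_pow] at h3
  have h4 : x ^ k = 0 := by
    have := congrArg (fun f : D →ₗ[ℂ] D => f 1) h3
    simpa using this
  have h5 : x ^ (2 ^ k) = 0 := by
    have : k ≤ 2 ^ k := Nat.lt_two_pow_self.le
    obtain ⟨m, hm⟩ := Nat.exists_eq_add_of_le this
    rw [hm, pow_add, h4, zero_mul]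
  have h6 := hx.nnnorm_pow_two_pow k
  rw [h5, nnnorm_zero] at h6
  have h7 : ‖x‖₊ = 0 := by
    by_contra hne
    exact (pow_ne_zero _ hne) h6.symm
  exact nnnorm_eq_zero.1 h7

theorem spec_star_mul (x : D) : ∀ μ ∈ spectrum ℂ (star x * x), 0 ≤ μ := by
  intro μ hμ
  have hs : IsSelfAdjoint (star x * x) := IsSelfAdjoint.star_mul_self x
  have h1 := hs.mem_spectrum_eq_re hμ
  let _ : PartialOrder D := CStarAlgebra.spectralOrder D
  let _ : StarOrderedRing D := CStarAlgebra.spectralOrderedRing D
  have h2 : (0 : D) ≤ star x * x := star_mul_self_nonneg x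
  exact spectrum_nonneg_of_nonneg h2 hμ

/-- the trace inner product -/
@[instance_reducible]
noncomputable def core (D : Type) [CStarAlgebra D] [FiniteDimensional ℂ D] :
    InnerProductSpace.Core ℂ D where
  inner x y := τ D (star x * y)
  conj_inner_symm x y := by
    rw [← τ_star, star_mul, star_star]
  re_inner_nonneg x := by
    have h := τ_nonneg (spec_star_mul x)
    exact (Complex.le_def.1 h).1
  add_left x y z := by rw [star_add, add_mul, map_add]
  smul_left x y r := by
    rw [star_smul, smul_mul_assoc, map_smul, smul_eq_mul]; rfl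
  definite x hx := by
    have := τ_pos_def (IsSelfAdjoint.star_mul_self x) (spec_star_mul x) hx
    exact CStarRing.star_mul_self_eq_zero_iff x |>.1 this

end

/-- A finite-dimensional C*-algebra has an orthonormal basis for its canonical trace: the left
regular representation in this basis is a star homomorphism and the basis satisfies `∑ e e* = 1`. -/
theorem exists_regular (D : Type) [CStarAlgebra D] [FiniteDimensional ℂ D] :
    ∃ (r : ℕ) (e : Fin r → D) (π : D →⋆ₐ[ℂ] Matrix (Fin r) (Fin r) ℂ),
      (∀ (d : D) (v : Fin r), d * e v = ∑ u, π d u v • e u) ∧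
      ∑ v, e v * star (e v) = 1 := by
  obtain ⟨r, b, hb⟩ := exists_onb (core D)
  have hb' : ∀ i j, τ D (star (b i) * b j) = if i = j then 1 else 0 := hb
  have hrepr : ∀ (x : D) (i : Fin r), b.repr x i = τ D (star (b i) * x) := by
    intro x i
    conv_rhs => rw [← b.sum_repr x, Finset.mul_sum, map_sum]
    rw [Finset.sum_eq_single i]
    · rw [mul_smul_comm, map_smul, hb', if_pos rfl, smul_eq_mul, mul_one]
    · intro j _ hj
      rw [mul_smul_comm, map_smul, hb', if_neg (Ne.symm hj), smul_zero]
    · intro h; exact absurd (Finset.mem_univ _) h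
  have hentry : ∀ (d : D) (i j : Fin r),
      Algebra.leftMulMatrix b d i j = τ D (star (b i) * (d * b j)) := by
    intro d i j
    rw [Algebra.leftMulMatrix_eq_repr_mul, hrepr]
  refine ⟨r, b, { Algebra.leftMulMatrix b with map_star' := ?_ }, ?_, ?_⟩
  · intro d
    ext i j
    change Algebra.leftMulMatrix b (star d) i j = star (Algebra.leftMulMatrix b d) i j
    rw [Matrix.star_apply, hentry, hentry]
    change _ = (starRingEnd ℂ) _
    rw [← τ_star]
    congr 1
    simp [mul_assoc]
  · intro d v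
    change d * b v = ∑ u, Algebra.leftMulMatrix b d u v • b u
    conv_lhs => rw [← b.sum_repr (d * b v)]
    apply Finset.sum_congr rfl
    intro u _
    rw [Algebra.leftMulMatrix_eq_repr_mul]
  · set c := ∑ v, b v * star (b v) with hc
    have h1 : ∀ x : D, τ D (x * c) = τ D x := by
      intro x
      rw [hc, Finset.mul_sum, map_sum]
      rw [τ_apply x, LinearMap.trace_eq_matrix_trace ℂ b, Matrix.trace]
      apply Finset.sum_congr rfl
      intro v _
      rw [Matrix.diag_apply, ← Algebra.leftMulMatrix_apply, hentry, τ_comm (star (b v)), mul_assoc]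
    have h2 : ∀ x : D, τ D (x * (c - 1)) = 0 := by
      intro x
      rw [mul_sub, mul_one, map_sub, h1, sub_self]
    have h3 : c - 1 = 0 := (core D).definite _ (h2 _)
    exact sub_eq_zero.1 h3

end Pool.Agent.Helper234.Exact
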