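import Mathlib

set_option autoImplicit false
open scoped ComplexOrder

namespace Pool.Agent.Helper234.Exact

variable {n : Type} [Fintype n] [DecidableEq n]

lemma contOn (A : Matrix n n ℂ) (f : ℝ → ℝ) : ContinuousOn f (spectrum ℝ A) :=
  (Matrix.finite_real_spectrum (A := A)).continuousOn f

lemma cfc_mul' (A : Matrix n n ℂ) (f g : ℝ → ℝ) :
    cfc f A * cfc g A = cfc (fun x => f x * g x) A :=
  (cfc_mul f g A (contOn A f) (contOn A g)).symm

lemma star_cfc (A : Matrix n n ℂ) (f : ℝ → ℝ) : star (cfc f A) = cfc f A := by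
  rw [← cfc_star]
  congr 1

lemma spec_nonneg {A : Matrix n n ℂ} (hA : A.PosSemidef) {x : ℝ} (hx : x ∈ spectrum ℝ A) :
    0 ≤ x := by
  rw [hA.1.spectrum_real_eq_range_eigenvalues] at hx
  obtain ⟨i, rfl⟩ := hx
  exact hA.eigenvalues_nonneg i

lemma cfc_psd (A : Matrix n n ℂ) (g : ℝ → ℝ) (hg : ∀ x ∈ spectrum ℝ A, 0 ≤ g x) :
    ∃ W : Matrix n n ℂ, star W = W ∧ cfc g A = W * W := by
  refine ⟨cfc (fun x => Real.sqrt (g x)) A, star_cfc _ _, ?_⟩
  rw [cfc_mul']
  apply cfc_congr
  intro x hx
  exact (Real.mul_self_sqrt (hg x hx)).symm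

lemma psd_of (A : Matrix n n ℂ) (g : ℝ → ℝ) (hg : ∀ x ∈ spectrum ℝ A, 0 ≤ g x) :
    (cfc g A).PosSemidef := by
  obtain ⟨W, hW, h⟩ := cfc_psd A g hg
  rw [h]
  have : W * W = Matrix.conjTranspose W * W := by
    rw [← Matrix.star_eq_conjTranspose, hW]
  rw [this]
  exact Matrix.posSemidef_conjTranspose_mul_self W

lemma trace_nn (A : Matrix n n ℂ) (hA : A.PosSemidef) (D : Matrix n n ℂ) (g : ℝ → ℝ)
    (hg : ∀ x ∈ spectrum ℝ D, 0 ≤ g x) : 0 ≤ (Matrix.trace (A * cfc g D)).re := by
  obtain ⟨W, hW, h⟩ := cfc_psd D g hg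
  rw [h, ← mul_assoc, Matrix.trace_mul_comm, ← mul_assoc]
  have h1 : (W * A * W).PosSemidef := by
    have := hA.conjTranspose_mul_mul_same W
    rwa [← Matrix.star_eq_conjTranspose, hW] at this
  have h2 := h1.trace_nonneg
  exact (Complex.le_def.mp h2).1

/-- polar decomposition: `X V = √(X Xᴴ)` with `V` a contraction -/
theorem exists_polar (X : Matrix n n ℂ) :
    ∃ (B V : Matrix n n ℂ), B.PosSemidef ∧ B * B = X * star X ∧ X * V = B ∧
      (1 - star V * V).PosSemidef := by
  have hC : (X * star X).PosSemidef := by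
    rw [Matrix.star_eq_conjTranspose]
    exact Matrix.posSemidef_self_mul_conjTranspose X
  set C := X * star X with hCdef
  have hsa : IsSelfAdjoint C := hC.1
  have hCid : cfc (fun x : ℝ => x) C = C := cfc_id' ℝ C
  refine ⟨cfc Real.sqrt C, star X * cfc (fun x => (Real.sqrt x)⁻¹) C, ?_, ?_, ?_, ?_⟩
  · exact psd_of C _ (fun x _ => Real.sqrt_nonneg x)
  · rw [cfc_mul']
    conv_rhs => rw [← hCid]
    apply cfc_congr
    intro x hx
    exact Real.mul_self_sqrt (spec_nonneg hC hx)
  · rw [← mul_assoc, ← hCdef]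
    conv_lhs => rw [← hCid]
    rw [hCid]
    have h1 : C * cfc (fun x => (Real.sqrt x)⁻¹) C =
        cfc (fun x : ℝ => x) C * cfc (fun x => (Real.sqrt x)⁻¹) C := by rw [hCid]
    rw [h1, cfc_mul']
    apply cfc_congr
    intro x hx
    have hx0 := spec_nonneg hC hx
    simp only
    rcases eq_or_lt_of_le hx0 with h | h
    · rw [← h]; simp
    · have hs : Real.sqrt x ≠ 0 := (Real.sqrt_pos.mpr h).ne'
      field_simp
      exact (Real.sq_sqrt hx0).symm
  · have h1 : star (star X * cfc (fun x => (Real.sqrt x)⁻¹) C) *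
        (star X * cfc (fun x => (Real.sqrt x)⁻¹) C) =
        cfc (fun x => (Real.sqrt x)⁻¹ * x * (Real.sqrt x)⁻¹) C := by
      rw [star_mul, star_cfc, star_star]
      have : cfc (fun x => (Real.sqrt x)⁻¹) C * X * (star X * cfc (fun x => (Real.sqrt x)⁻¹) C) =
          cfc (fun x => (Real.sqrt x)⁻¹) C * C * cfc (fun x => (Real.sqrt x)⁻¹) C := by
        rw [hCdef]; noncomm_ring
      rw [this]
      have h2 : cfc (fun x => (Real.sqrt x)⁻¹) C * C =
          cfc (fun x => (Real.sqrt x)⁻¹) C * cfc (fun x : ℝ => x) C := by rw [hCid]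
      rw [h2, cfc_mul', cfc_mul']
    have h3 : (1 : Matrix n n ℂ) = cfc (fun _ : ℝ => (1:ℝ)) C := (cfc_const_one ℝ C).symm
    rw [h1, h3, ← cfc_sub _ _ C (contOn C _) (contOn C _)]
    apply psd_of
    intro x hx
    have hx0 := spec_nonneg hC hx
    rcases eq_or_lt_of_le hx0 with h | h
    · rw [← h]; simp
    · have hs : Real.sqrt x ≠ 0 := (Real.sqrt_pos.mpr h).ne'
      have : (Real.sqrt x)⁻¹ * x * (Real.sqrt x)⁻¹ = 1 := by
        field_simp
        exact (Real.sq_sqrt hx0).symm
      rw [this, sub_self]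

/-- separation of two positive matrices by a selfadjoint contraction `2 t - 1` -/
theorem exists_separation (A B : Matrix n n ℂ) (hA : A.PosSemidef) (hB : B.PosSemidef) :
    ∃ c : Matrix n n ℂ, star c = c ∧ (1 - star c * c).PosSemidef ∧
      (Matrix.trace (A * A)).re + (Matrix.trace (B * B)).re - 2 * (Matrix.trace (A * B)).re ≤
        (Matrix.trace (A * A * c)).re - (Matrix.trace (B * B * c)).re := by
  set D := A - B with hD
  have hsa : IsSelfAdjoint D := hA.1.sub hB.1
  have hDid : cfc (fun x : ℝ => x) D = D := cfc_id' ℝ D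
  set c := cfc (fun x : ℝ => if 0 < x then (1:ℝ) else -1) D with hc
  set L := cfc (fun x : ℝ => |x|) D with hL
  have hDc : D * c = L := by
    have : D * c = cfc (fun x : ℝ => x) D * c := by rw [hDid]
    rw [this, hc, cfc_mul']
    apply cfc_congr
    intro x _
    simp only
    split_ifs with h
    · rw [mul_one, abs_of_pos h]
    · rw [abs_of_nonpos (not_lt.mp h)]; ring
  have hcD : c * D = L := by
    have : c * D = c * cfc (fun x : ℝ => x) D := by rw [hDid]
    rw [this, hc, cfc_mul']
    apply cfc_congr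
    intro x _
    simp only
    split_ifs with h
    · rw [one_mul, abs_of_pos h]
    · rw [abs_of_nonpos (not_lt.mp h)]; ring
  have hcc : star c * c = 1 := by
    rw [hc, star_cfc, cfc_mul', ← cfc_const_one ℝ D]
    apply cfc_congr
    intro x _
    simp only
    split_ifs with h
    · norm_num
    · norm_num
  refine ⟨c, star_cfc _ _, ?_, ?_⟩
  · rw [hcc, sub_self]
    exact Matrix.PosSemidef.zero
  · -- the trace computation
    have h1 : 2 * (Matrix.trace (A * A * c) - Matrix.trace (B * B * c)) =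
        2 * (Matrix.trace (A * L) + Matrix.trace (B * L)) := by
      have e1 : (A * A - B * B) + (A * A - B * B) = D * (A + B) + (A + B) * D := by
        rw [hD]; noncomm_ring
      have e2 : 2 * (Matrix.trace (A * A * c) - Matrix.trace (B * B * c)) =
          Matrix.trace (((A * A - B * B) + (A * A - B * B)) * c) := by
        rw [add_mul, sub_mul, Matrix.trace_add, Matrix.trace_sub]
        ring
      rw [e2, e1, add_mul, Matrix.trace_add]
      have e3 : Matrix.trace (D * (A + B) * c) = Matrix.trace ((A + B) * L) := by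
        rw [mul_assoc, Matrix.trace_mul_comm, mul_assoc, hcD]
      have e4 : Matrix.trace ((A + B) * D * c) = Matrix.trace ((A + B) * L) := by
        rw [mul_assoc, hDc]
      rw [e3, e4, add_mul, Matrix.trace_add]
      ring
    have h2 : Matrix.trace (A * A) + Matrix.trace (B * B) - 2 * Matrix.trace (A * B) =
        Matrix.trace (A * D) - Matrix.trace (B * D) := by
      rw [hD, mul_sub, mul_sub, Matrix.trace_sub, Matrix.trace_sub, Matrix.trace_mul_comm B A]
      ring
    have h3 : cfc (fun x : ℝ => |x| - x) D = L - D := by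
      rw [cfc_sub _ _ D (contOn D _) (contOn D _), hDid]
    have h4 : cfc (fun x : ℝ => |x| + x) D = L + D := by
      rw [cfc_add D _ _ (contOn D _) (contOn D _), hDid]
    have h5 : 0 ≤ (Matrix.trace (A * (L - D))).re := by
      rw [← h3]
      apply trace_nn A hA
      intro x _
      have := le_abs_self x
      linarith
    have h6 : 0 ≤ (Matrix.trace (B * (L + D))).re := by
      rw [← h4]
      apply trace_nn B hB
      intro x _
      have := neg_abs_le x
      linarith
    have h7 := congrArg Complex.re h1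
    have h8 := congrArg Complex.re h2
    rw [mul_sub, Matrix.trace_sub, Complex.sub_re] at h5
    rw [mul_add, Matrix.trace_add, Complex.add_re] at h6
    simp only [Complex.mul_re, Complex.sub_re, Complex.add_re, Complex.re_ofNat, Complex.im_ofNat,
      zero_mul, sub_zero] at h7 h8
    linarith

end Pool.Agent.Helper234.Exact
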