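import Pool.Agent.Helper234.Nuc.F

set_option autoImplicit false
open scoped ComplexOrder
open scoped Matrix.Norms.L2Operator

namespace Pool.Agent.Helper234.Exact

open Pool.Agent.Helper234.Nuc
open Pool.Agent.Helper234.Brown (sumW sumW_map sumW_congr sumW_mono sumW_const sumW_add sumW_sum red ev
  pair_count_le red_reverse_append_iff ev_append ev_cons ev_nil ev_red ev_reverse_star)

universe u

section

variable {U : Type u} [NonUnitalCStarAlgebra U] {X : Type} [Fintype X] [DecidableEq X] {N : ℕ}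

lemma Phi_word_re (P : Pair U N) (ω : PosF U) (e : X → X → U) (x₀ : X) (he : IsMUn e)
    (hω : ω.f (e x₀ x₀) = 1) (hω2 : ∀ a, ‖ω.f a‖ ≤ 2 * ‖a‖) (y : U) (σ : Equiv.Perm X)
    (hP : ‖P.ψ (P.φ y) - y‖ ≤ 1/100)
    (hy : 7/8 ≤ ((Fintype.card X : ℂ)⁻¹ * ∑ b, ω.f (star (e (σ b) x₀) * y * e b x₀)).re) :
    4/5 ≤ ((Phi P ω e x₀).f (DD X (P.φ y) * PP N (pm σ))).re := by
  have hcard : (0 : ℝ) < Fintype.card X := by exact_mod_cast (Fintype.card_pos_iff.mpr ⟨x₀⟩)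
  rw [Phi_word]
  have h1 : (Fintype.card X : ℂ)⁻¹ * ∑ b, ω.f (star (e (σ b) x₀) * P.ψ (P.φ y) * e b x₀) =
      (Fintype.card X : ℂ)⁻¹ * ∑ b, ω.f (star (e (σ b) x₀) * y * e b x₀) +
      (Fintype.card X : ℂ)⁻¹ * ∑ b, ω.f (star (e (σ b) x₀) * (P.ψ (P.φ y) - y) * e b x₀) := by
    rw [← mul_add, ← Finset.sum_add_distrib]
    congr 1
    refine Finset.sum_congr rfl fun b _ => ?_
    rw [← map_add]
    congr 1
    rw [mul_sub, sub_mul]
    abel
  rw [h1, Complex.add_re]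
  have h2 : ‖(Fintype.card X : ℂ)⁻¹ * ∑ b, ω.f (star (e (σ b) x₀) * (P.ψ (P.φ y) - y) * e b x₀)‖ ≤ 1/50 := by
    rw [norm_mul, norm_inv, Complex.norm_natCast, inv_mul_le_iff₀ hcard]
    have h3 : ∀ b, ‖ω.f (star (e (σ b) x₀) * (P.ψ (P.φ y) - y) * e b x₀)‖ ≤ 1/50 := by
      intro b
      refine (hω2 _).trans ?_
      have a1 : ‖star (e (σ b) x₀) * (P.ψ (P.φ y) - y) * e b x₀‖ ≤ 1/100 := by
        calc _ ≤ ‖star (e (σ b) x₀)‖ * ‖P.ψ (P.φ y) - y‖ * ‖e b x₀‖ :=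
              (norm_mul_le _ _).trans (by gcongr; exact norm_mul_le _ _)
          _ ≤ 1/100 := by rw [norm_star, he.norm_eq, he.norm_eq]; linarith
      linarith
    refine (norm_sum_le _ _).trans ((Finset.sum_le_sum fun b _ => h3 b).trans ?_)
    rw [Finset.sum_const, Finset.card_univ, nsmul_eq_mul]
  have h4 := Complex.abs_re_le_norm ((Fintype.card X : ℂ)⁻¹ * ∑ b, ω.f (star (e (σ b) x₀) * (P.ψ (P.φ y) - y) * e b x₀))
  have h5 := abs_le.mp (h4.trans h2)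
  linarith [h5.1]

end

/-- A nuclear algebra cannot contain finitely many tuples of sixteen selfadjoint contractions which
imitate, in mean on a matrix block, arbitrarily free families of involutions. -/
theorem core2 {U : Type u} [NonUnitalCStarAlgebra U] (hU : IsNuclear U) {I : Type} [Fintype I]
    (y : I → Fin 16 → U)
    (hy : ∀ c i, star (y c i) = y c i) (hyn : ∀ c i, ‖y c i‖ ≤ 1)
    (hlev : ∀ m : ℕ, ∃ (X : Type) (_ : Fintype X) (_ : DecidableEq X) (x₀ : X) (e : X → X → U)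
      (σ : Fin 16 → Equiv.Perm X) (c : I) (ω : PosF U), IsMUn e ∧ (∀ i, σ i * σ i = 1) ∧
      (∀ w : List (Fin 16), w.length ≤ 2 * m → red w ≠ [] →
        (Finset.univ.filter (fun x => ev σ w x = x)).card * 2 ^ m ≤ Fintype.card X) ∧
      ω.f (e x₀ x₀) = 1 ∧ (∀ a, ‖ω.f a‖ ≤ 2 * ‖a‖) ∧
      ∀ i, 7/8 ≤ ((Fintype.card X : ℂ)⁻¹ * ∑ b, ω.f (star (e (σ i b) x₀) * y c i * e b x₀)).re) : False := by
  classical
  obtain ⟨N, P, hP⟩ := hU.exists_pair (Finset.univ.image (fun p : I × Fin 16 => y p.1 p.2)) (1/100) (by norm_num)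
  have hP' : ∀ c i, ‖P.ψ (P.φ (y c i)) - y c i‖ ≤ 1/100 := fun c i =>
    (hP (y c i) (Finset.mem_image_of_mem (fun p : I × Fin 16 => y p.1 p.2) (Finset.mem_univ (c, i)))).le
  obtain ⟨j, hj⟩ : ∃ j : ℕ, 2 * (N : ℝ) ^ 4 < (9/8) ^ j := pow_unbounded_of_one_lt _ (by norm_num)
  set m : ℕ := 2 ^ j with hm
  have hjm : j ≤ m := (Nat.lt_two_pow_self).le
  obtain ⟨X, i1, i2, x₀, e, σ, c, ω, he, hσ, hfix, hω, hω2, hclose⟩ := hlev m
  set A : Fin 16 → Matrix (Fin N) (Fin N) ℂ := fun i => P.φ (y c i) with hA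
  have hAs : ∀ i, star (A i) = A i := fun i => P.φ_sa _ (hy c i)
  have hAn : ∀ i, ‖A i‖ ≤ 1 := fun i => (P.φ_norm _).trans (hyn c i)
  have hone : ‖(1 : Matrix (Fin N) (Fin N) ℂ)‖ ≤ 1 := norm_ev_le A hAn []
  have h1 : (Phi P ω e x₀).n2 1 ≤ 1 := by
    have := n2_DD_le P ω e x₀ he hω 1
    rw [DD_one] at this
    exact this.trans hone
  have h2 : (12 : ℝ) ≤ ‖(Phi P ω e x₀).f (TT A σ)‖ := by
    refine le_trans ?_ (Complex.re_le_norm _)
    rw [TT, map_sum, Complex.re_sum]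
    have : ∀ i ∈ (Finset.univ : Finset (Fin 16)), (4/5 : ℝ) ≤ ((Phi P ω e x₀).f (DD X (A i) * PP N (pm (σ i)))).re :=
      fun i _ => Phi_word_re P ω e x₀ he hω hω2 (y c i) (σ i) (hP' c i) (hclose i)
    refine le_trans ?_ (Finset.sum_le_sum this)
    simp
    norm_num
  have h3 := growth (Phi P ω e x₀) h1 (TT A σ) (star_TT A σ hAs hσ) 12 (by norm_num) h2 j
  rw [← hm] at h3
  have h4 : ‖(Phi P ω e x₀).f (TT A σ ^ m)‖ ≤ N ^ 2 * Real.sqrt (2 * 128 ^ m) := by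
    haveI : Nonempty X := ⟨x₀⟩
    rw [TT_pow', map_sum]
    have e1 : ∀ p q : Fin N, ‖(Phi P ω e x₀).f (DD X (Matrix.single p q (1 : ℂ)) *
        PP N (sumW m (fun w => (ev A w) p q • pm (ev σ w))))‖ ≤ Real.sqrt (2 * 128 ^ m) := by
      intro p q
      have e2 : DD X (Matrix.single p q (1 : ℂ)) = star (DD X (Matrix.single q p (1 : ℂ))) := by
        rw [star_DD, Matrix.star_eq_conjTranspose, Matrix.conjTranspose_single, star_one]
      rw [e2]
      refine ((Phi P ω e x₀).norm_le _ _).trans ?_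
      have e3 : (Phi P ω e x₀).n2 (DD X (Matrix.single q p (1 : ℂ))) ≤ 1 :=
        (n2_DD_le P ω e x₀ he hω _).trans (norm_single_le q p)
      have e4 := (n2_PP_le P ω e x₀ he hω (sumW m (fun w => (ev A w) p q • pm (ev σ w)))).trans
        (words_bound A hAn σ hσ m hfix p q)
      have e5 := (Phi P ω e x₀).n2_nonneg (DD X (Matrix.single q p (1 : ℂ)))
      have e6 := (Phi P ω e x₀).n2_nonneg (PP N (sumW m (fun w => (ev A w) p q • pm (ev σ w))))
      calc _ ≤ 1 * Real.sqrt (2 * 128 ^ m) := by gcongr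
        _ = _ := one_mul _
    refine (norm_sum_le _ _).trans ?_
    have e7 : ∀ p ∈ (Finset.univ : Finset (Fin N)), ‖(Phi P ω e x₀).f (∑ q, DD X (Matrix.single p q (1 : ℂ)) *
        PP N (sumW m (fun w => (ev A w) p q • pm (ev σ w))))‖ ≤ N * Real.sqrt (2 * 128 ^ m) := by
      intro p _
      rw [map_sum]
      refine (norm_sum_le _ _).trans ((Finset.sum_le_sum fun q _ => e1 p q).trans ?_)
      rw [Finset.sum_const, nsmul_eq_mul, Finset.card_univ, Fintype.card_fin]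
    refine (Finset.sum_le_sum e7).trans ?_
    rw [Finset.sum_const, nsmul_eq_mul, Finset.card_univ, Fintype.card_fin]
    apply le_of_eq
    ring
  have h5 : (12 : ℝ) ^ m ≤ N ^ 2 * Real.sqrt (2 * 128 ^ m) := h3.trans h4
  have h6 : ((12 : ℝ) ^ m) ^ 2 ≤ 2 * N ^ 4 * 128 ^ m := by
    have h7 : ((12 : ℝ) ^ m) ^ 2 ≤ (N ^ 2 * Real.sqrt (2 * 128 ^ m)) ^ 2 := by gcongr
    have h8 : Real.sqrt (2 * 128 ^ m) ^ 2 = 2 * 128 ^ m := Real.sq_sqrt (by positivity)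
    calc _ ≤ _ := h7
      _ = N ^ 4 * (Real.sqrt (2 * 128 ^ m)) ^ 2 := by ring
      _ = _ := by rw [h8]; ring
  have h7 : (9/8 : ℝ) ^ j ≤ (9/8) ^ m := pow_le_pow_right₀ (by norm_num) hjm
  have h8 : ((12 : ℝ) ^ m) ^ 2 = (9/8) ^ m * 128 ^ m := by
    rw [← pow_mul, mul_comm m 2, pow_mul, ← mul_pow]; norm_num
  rw [h8] at h6
  have h9 : (0 : ℝ) < 128 ^ m := by positivity
  have h10 : (9/8 : ℝ) ^ m ≤ 2 * N ^ 4 := le_of_mul_le_mul_right h6 h9
  linarith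

end Pool.Agent.Helper234.Exact
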