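import Pool.Agent.Helper234.Nuc.A
import Pool.Agent.Helper234.Exact.X0

set_option autoImplicit false
open scoped ComplexOrder
open scoped Matrix.Norms.L2Operator

namespace Pool.Agent.Helper234.Exact

open Pool.Agent.Helper234.Nuc

/-- nuclearity through finite-dimensional C*-algebras -/
def FNuc (C : Type) [NonUnitalCStarAlgebra C] : Prop :=
  ∀ (F : Finset C) (ε : ℝ), 0 < ε →
        ∃ (D : Type) (_ : CStarAlgebra D) (_ : FiniteDimensional ℂ D)
          (φ : C →ₗ[ℂ] D) (ψ : D →ₗ[ℂ] C),
          (∀ c, ‖φ c‖ ≤ ‖c‖) ∧ (∀ d, ‖ψ d‖ ≤ ‖d‖) ∧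
          (∀ (n : ℕ) (y : Matrix (Fin n) (Fin n) C),
            ∃ z : Matrix (Fin n) (Fin n) D, (star y * y).map φ = star z * z) ∧
          (∀ (n : ℕ) (y : Matrix (Fin n) (Fin n) D),
            ∃ z : Matrix (Fin n) (Fin n) C, (star y * y).map ψ = star z * z) ∧
          ∀ c ∈ F, ‖ψ (φ c) - c‖ < ε

/-- a matrix with a given first row -/
def rowMat {A : Type} [Zero A] {m : ℕ} (x : Fin m → A) : Matrix (Fin m) (Fin m) A :=
  Matrix.of fun i j => if i.val = 0 then x j else 0

lemma star_rowMat_mul {A : Type} [NonUnitalNonAssocSemiring A] [StarRing A] {m : ℕ} (x : Fin m → A) (i j : Fin m) :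
    (star (rowMat x) * rowMat x) i j = star (x i) * x j := by
  have hm : 0 < m := i.pos
  rw [Matrix.mul_apply, Finset.sum_eq_single (⟨0, hm⟩ : Fin m)]
  · simp [rowMat, Matrix.star_apply]
  · intro b _ hb
    have : b.val ≠ 0 := fun h => hb (Fin.ext h)
    simp [rowMat, Matrix.star_apply, this]
  · simp

lemma FNuc.isNuclear {C : Type} [NonUnitalCStarAlgebra C] (h : FNuc C) : IsNuclear C := by
  intro F ε hε
  obtain ⟨D, i1, i2, φ, ψ, hφ, hψ, hφcp, hψcp, hF⟩ := h F ε hε
  obtain ⟨r, e, π, hπ, he⟩ := exists_regular D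
  have hE1 : kr (Q := Unit) (fun _ u => star (e u)) (1 : Matrix (Fin r) (Fin r) ℂ) = 1 := by
    rw [kr_apply, ← he]
    simp only [Finset.univ_unique, Finset.sum_singleton]
    refine Finset.sum_congr rfl fun u _ => ?_
    rw [Finset.sum_eq_single u]
    · simp
    · intro v _ hv
      rw [Matrix.one_apply_ne (Ne.symm hv), zero_smul]
    · simp
  have hEπ : ∀ d, kr (Q := Unit) (fun _ u => star (e u)) (π d) = d := by
    intro d
    rw [kr_apply]
    simp only [Finset.univ_unique, Finset.sum_singleton, star_star]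
    rw [Finset.sum_comm]
    have : ∀ v, ∑ u, π d u v • (e u * star (e v)) = d * (e v * star (e v)) := by
      intro v
      rw [← mul_assoc, hπ, Finset.sum_mul]
      refine Finset.sum_congr rfl fun u _ => ?_
      rw [smul_mul_assoc]
    simp only [this]
    rw [← Finset.mul_sum, he, mul_one]
  have hone : ‖(1 : D)‖ ≤ 1 := by
    have h7 := CStarRing.norm_star_mul_self (x := (1 : D))
    rw [star_one, one_mul] at h7
    nlinarith [norm_nonneg (1 : D)]
  have hEn : ∀ M : Matrix (Fin r) (Fin r) ℂ, (1 - star M * M).PosSemidef →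
      ‖kr (Q := Unit) (fun _ u => star (e u)) M‖ ≤ 1 := by
    intro M hM
    exact kr_contr _ (by rw [hE1]; exact hone) M hM
  refine ⟨r, π.toLinearMap ∘ₗ φ, ψ ∘ₗ kr (Q := Unit) (fun _ u => star (e u)), ?_, ?_, ?_, ?_, ?_⟩
  · intro m x
    obtain ⟨z, hz⟩ := hφcp m (rowMat x)
    have h1 : ∀ i j, φ (star (x i) * x j) = ∑ k, star (z k i) * z k j := by
      intro i j
      have := congrFun (congrFun hz i) j
      rw [Matrix.map_apply, star_rowMat_mul, Matrix.mul_apply] at this
      exact this
    let B : Matrix (Fin m × Fin r) (Fin m × Fin r) ℂ := Matrix.of fun p q => π (z p.1 q.1) p.2 q.2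
    have h2 : (Matrix.of (fun p q : Fin m × Fin r =>
        (π.toLinearMap ∘ₗ φ) (star (x p.1) * x q.1) p.2 q.2)) = B.conjTranspose * B := by
      ext p q
      simp only [Matrix.of_apply, LinearMap.comp_apply]
      rw [h1, map_sum, Matrix.sum_apply, Matrix.mul_apply, Fintype.sum_prod_type]
      refine Finset.sum_congr rfl fun k _ => ?_
      rw [AlgHom.toLinearMap_apply]
      show (π (star (z k p.1) * z k q.1)) p.2 q.2 = _
      rw [map_mul, map_star, Matrix.mul_apply]
      rfl
    rw [h2]
    exact Matrix.posSemidef_conjTranspose_mul_self B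
  · intro m Y y
    have h1 : ∀ i j, kr (Q := Unit) (fun _ u => star (e u)) (star (Y i) * Y j) =
        ∑ w, star (∑ u, Y i w u • star (e u)) * (∑ v, Y j w v • star (e v)) := by
      intro i j
      rw [kr_star_mul]
      simp
    have h2 : ∀ w : Fin r, ∃ z : Matrix (Fin m) (Fin m) C, ∀ i j,
        ψ (star (∑ u, Y i w u • star (e u)) * (∑ v, Y j w v • star (e v))) = ∑ k, star (z k i) * z k j := by
      intro w
      obtain ⟨z, hz⟩ := hψcp m (rowMat (fun i => ∑ u, Y i w u • star (e u)))
      refine ⟨z, fun i j => ?_⟩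
      have := congrFun (congrFun hz i) j
      rw [Matrix.map_apply, star_rowMat_mul, Matrix.mul_apply] at this
      exact this
    choose z hz using h2
    have h3 : ∑ i, ∑ j, star (y i) * (ψ ∘ₗ kr (Q := Unit) (fun _ u => star (e u))) (star (Y i) * Y j) * y j =
        ∑ p ∈ (Finset.univ : Finset (Fin r × Fin m)), star (∑ i, z p.1 p.2 i * y i) * (∑ i, z p.1 p.2 i * y i) := by
      rw [Fintype.sum_prod_type]
      have e1 : ∀ i j, star (y i) * (ψ ∘ₗ kr (Q := Unit) (fun _ u => star (e u))) (star (Y i) * Y j) * y j =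
          ∑ w, ∑ k, star (z w k i * y i) * (z w k j * y j) := by
        intro i j
        rw [LinearMap.comp_apply, h1, map_sum, Finset.mul_sum, Finset.sum_mul]
        refine Finset.sum_congr rfl fun w _ => ?_
        rw [hz, Finset.mul_sum, Finset.sum_mul]
        refine Finset.sum_congr rfl fun k _ => ?_
        rw [star_mul]
        simp only [mul_assoc]
      simp only [e1]
      have e2 : ∀ w k, star (∑ i, z w k i * y i) * (∑ i, z w k i * y i) =
          ∑ i, ∑ j, star (z w k i * y i) * (z w k j * y j) := by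
        intro w k
        rw [star_sum, Finset.sum_mul]
        refine Finset.sum_congr rfl fun i _ => ?_
        rw [Finset.mul_sum]
      simp only [e2]
      calc ∑ i, ∑ j, ∑ w, ∑ k, star (z w k i * y i) * (z w k j * y j)
          = ∑ i, ∑ w, ∑ j, ∑ k, star (z w k i * y i) * (z w k j * y j) :=
            Finset.sum_congr rfl fun i _ => Finset.sum_comm
        _ = ∑ w, ∑ i, ∑ j, ∑ k, star (z w k i * y i) * (z w k j * y j) := Finset.sum_comm
        _ = ∑ w, ∑ i, ∑ k, ∑ j, star (z w k i * y i) * (z w k j * y j) :=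
            Finset.sum_congr rfl fun w _ => Finset.sum_congr rfl fun i _ => Finset.sum_comm
        _ = _ := Finset.sum_congr rfl fun w _ => Finset.sum_comm
    rw [h3]
    exact exists_star_mul_self_of_sum _ _
  · intro a ha
    rw [← norm_le_one_iff_posSemidef]
    have h1 : ‖π (φ a)‖ ≤ ‖φ a‖ := NonUnitalStarAlgHom.norm_apply_le π (φ a)
    exact h1.trans ((hφ a).trans ha)
  · intro M hM
    exact (hψ _).trans (hEn M hM)
  · intro a ha
    have := hF a ha
    simp only [LinearMap.comp_apply]
    have h1 : π.toLinearMap (φ a) = π (φ a) := rfl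
    rw [h1, hEπ]
    exact this

end Pool.Agent.Helper234.Exact
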