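import Pool.Agent.Helper234.Exact.X1
import Pool.Agent.Helper234.Exact.X0b

set_option autoImplicit false
open scoped ComplexOrder
open scoped Matrix.Norms.L2Operator

namespace Pool.Agent.Helper234.Exact

open Pool.Agent.Helper234.Nuc

universe u

section compare

variable {R : Type u} [Ring R] [StarRing R] [Module ℂ R] [IsScalarTower ℂ R R]
  [SMulCommClass ℂ R R] [StarModule ℂ R] (t : PosF R)

lemma compare (c a b : R) (hc : ∀ x, t.n2 (c * x) ≤ t.n2 x) :
    ‖t.f (star a * (c * a)) - t.f (star b * (c * b))‖ ≤ t.n2 (a - b) * (t.n2 a + t.n2 b) := by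
  have e1 : t.f (star a * (c * a)) - t.f (star b * (c * b)) =
      t.f (star a * (c * (a - b))) + t.f (star (a - b) * (c * b)) := by
    rw [← map_sub, ← map_add]
    congr 1
    rw [star_sub]
    noncomm_ring
  rw [e1]
  have h1 := t.norm_le a (c * (a - b))
  have h2 := t.norm_le (a - b) (c * b)
  have h3 := hc (a - b)
  have h4 := hc b
  have h5 := t.n2_nonneg a
  have h6 := t.n2_nonneg (a - b)
  calc _ ≤ ‖t.f (star a * (c * (a - b)))‖ + ‖t.f (star (a - b) * (c * b))‖ := norm_add_le _ _
    _ ≤ t.n2 a * t.n2 (a - b) + t.n2 (a - b) * t.n2 b := by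
      refine add_le_add (h1.trans ?_) (h2.trans ?_) <;> gcongr
    _ = _ := by ring

end compare

section psi

variable {U : Type u} [NonUnitalCStarAlgebra U] {X : Type} [Fintype X] [DecidableEq X] {N : ℕ}

/-- the functional attached to a completely positive map and a family of elements -/
noncomputable def Psi (P : Pair U N) (ω : PosF U) (y : X → U) :
    PosF (Matrix X X (Matrix (Fin N) (Fin N) ℂ)) where
  f :=
    { toFun := fun S => ∑ a, ∑ b, ω.f (star (y a) * P.ψ (S a b) * y b)
      map_add' := by
        intro S T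
        rw [← Finset.sum_add_distrib]
        refine Finset.sum_congr rfl fun x _ => ?_
        rw [← Finset.sum_add_distrib]
        refine Finset.sum_congr rfl fun y _ => ?_
        rw [Matrix.add_apply, map_add, mul_add, add_mul, map_add]
      map_smul' := by
        intro c S
        rw [RingHom.id_apply, smul_eq_mul, Finset.mul_sum]
        refine Finset.sum_congr rfl fun x _ => ?_
        rw [Finset.mul_sum]
        refine Finset.sum_congr rfl fun y _ => ?_
        rw [Matrix.smul_apply, map_smul, mul_smul_comm, smul_mul_assoc, map_smul, smul_eq_mul] }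
  pos S := by
    show 0 ≤ ∑ x, ∑ b, ω.f (star (y x) * P.ψ ((star S * S) x b) * y b)
    have h1 : ∑ x, ∑ b, ω.f (star (y x) * P.ψ ((star S * S) x b) * y b) =
        ∑ a, ω.f (∑ x, ∑ b, star (y x) * P.ψ (star (S a x) * S a b) * y b) := by
      have h2 : ∀ x b, ω.f (star (y x) * P.ψ ((star S * S) x b) * y b) =
          ∑ a, ω.f (star (y x) * P.ψ (star (S a x) * S a b) * y b) := by
        intro x b
        rw [Matrix.mul_apply, map_sum, Finset.mul_sum, Finset.sum_mul, map_sum]
        rfl
      simp only [h2, map_sum]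
      exact sum_rot _
    rw [h1]
    refine Finset.sum_nonneg fun a _ => ?_
    obtain ⟨s, hs⟩ := P.ψcp' (fun x => S a x) (fun x => y x)
    rw [hs]
    exact ω.pos s

lemma Psi_apply (P : Pair U N) (ω : PosF U) (y : X → U) (S : Matrix X X (Matrix (Fin N) (Fin N) ℂ)) :
    (Psi P ω y).f S = ∑ a, ∑ b, ω.f (star (y a) * P.ψ (S a b) * y b) := rfl

lemma Psi_contr (P : Pair U N) (ω : PosF U) (y : X → U) (c : Matrix (Fin N) (Fin N) ℂ)
    (hc : (1 - star c * c).PosSemidef) (S : Matrix X X (Matrix (Fin N) (Fin N) ℂ)) :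
    (Psi P ω y).n2 (DD X c * S) ≤ (Psi P ω y).n2 S := by
  obtain ⟨z, hz⟩ := posSemidef_eq hc
  apply le_of_sq_le_sq _ ((Psi P ω y).n2_nonneg _)
  rw [PosF.n2_sq, PosF.n2_sq]
  have h1 : star S * S = star (DD X c * S) * (DD X c * S) + star (DD X z * S) * (DD X z * S) := by
    have e1 : DD X (1 : Matrix (Fin N) (Fin N) ℂ) = DD X (star c) * DD X c + DD X (star z) * DD X z := by
      rw [DD_mul, DD_mul, ← hz, DD, DD, DD, Matrix.diagonal_add]
      congr 1
      funext x
      simp
    rw [star_mul, star_mul, star_DD, star_DD]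
    calc star S * S = star S * (DD X (1 : Matrix (Fin N) (Fin N) ℂ)) * S := by rw [DD_one, mul_one]
      _ = _ := by rw [e1]; noncomm_ring
  rw [h1, map_add, Complex.add_re]
  have := (Psi P ω y).self_re_nonneg (DD X z * S)
  linarith

end psi

section xi

variable {U : Type u} [NonUnitalCStarAlgebra U] {N : ℕ}

/-- the functional `Y ↦ ∑ (A φ(Y p q) A) p q` -/
noncomputable def Xi (P : Pair U N) (A : Matrix (Fin N) (Fin N) ℂ) (hA : star A = A) :
    PosF (Matrix (Fin N) (Fin N) U) where
  f :=
    { toFun := fun Y => ∑ p, ∑ q, (A * P.φ (Y p q) * A) p q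
      map_add' := by
        intro S T
        rw [← Finset.sum_add_distrib]
        refine Finset.sum_congr rfl fun x _ => ?_
        rw [← Finset.sum_add_distrib]
        refine Finset.sum_congr rfl fun y _ => ?_
        rw [Matrix.add_apply, map_add, mul_add, add_mul, Matrix.add_apply]
      map_smul' := by
        intro c S
        rw [RingHom.id_apply, smul_eq_mul, Finset.mul_sum]
        refine Finset.sum_congr rfl fun x _ => ?_
        rw [Finset.mul_sum]
        refine Finset.sum_congr rfl fun y _ => ?_
        rw [Matrix.smul_apply, map_smul, mul_smul_comm, smul_mul_assoc, Matrix.smul_apply, smul_eq_mul] }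
  pos x := by
    show 0 ≤ ∑ p, ∑ q, (A * P.φ ((star x * x) p q) * A) p q
    have h1 : ∑ p, ∑ q, (A * P.φ ((star x * x) p q) * A) p q =
        ∑ j, ∑ p, ∑ q, (A * P.φ (star (x j p) * x j q) * A) p q := by
      rw [← sum_rot]
      refine Finset.sum_congr rfl fun p _ => Finset.sum_congr rfl fun q _ => ?_
      have e0 : (star x * x) p q = ∑ j, star (x j p) * x j q := by
        rw [Matrix.mul_apply]; rfl
      rw [e0, map_sum, Finset.mul_sum, Finset.sum_mul, Matrix.sum_apply]
    rw [h1]
    refine Finset.sum_nonneg fun j _ => ?_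
    have h2 := (P.φcp N (fun p => x j p)).dotProduct_mulVec_nonneg (fun p : Fin N × Fin N => A p.2 p.1)
    refine h2.trans (le_of_eq ?_)
    rw [dotProduct, Fintype.sum_prod_type]
    refine Finset.sum_congr rfl fun p _ => ?_
    have h3 : ∀ a, star (A a p) = A p a := by
      intro a
      have := congrFun (congrFun hA p) a
      rw [Matrix.star_apply] at this
      exact this
    simp only [Pi.star_apply, h3, Matrix.mulVec, dotProduct, Fintype.sum_prod_type, Matrix.of_apply]
    simp only [Matrix.mul_apply, Finset.mul_sum, Finset.sum_mul]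
    rw [Finset.sum_comm]
    refine Finset.sum_congr rfl fun q _ => ?_
    rw [Finset.sum_comm]
    refine Finset.sum_congr rfl fun b _ => ?_
    refine Finset.sum_congr rfl fun a _ => ?_
    ring

lemma Xi_apply (P : Pair U N) (A : Matrix (Fin N) (Fin N) ℂ) (hA : star A = A) (Y : Matrix (Fin N) (Fin N) U) :
    (Xi P A hA).f Y = ∑ p, ∑ q, (A * P.φ (Y p q) * A) p q := rfl

end xi

end Pool.Agent.Helper234.Exact
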