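import Pool.Agent.Helper234.Exact.X3

set_option autoImplicit false
open scoped ComplexOrder
open scoped Matrix.Norms.L2Operator

namespace Pool.Agent.Helper234.Exact

open Pool.Agent.Helper234.Nuc

universe u

section rho

variable {U : Type u} [NonUnitalCStarAlgebra U] {N : ℕ}

/-- the functional `t ↦ ω (k* ψ(t) k)` -/
noncomputable def rho (P : Pair U N) (ω : PosF U) (k : U) : PosF (Matrix (Fin N) (Fin N) ℂ) where
  f :=
    { toFun := fun t => ω.f (star k * P.ψ t * k)
      map_add' := by intro s t; rw [map_add, mul_add, add_mul, map_add]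
      map_smul' := by
        intro c t
        rw [map_smul, mul_smul_comm, smul_mul_assoc, map_smul, RingHom.id_apply] }
  pos x := by
    obtain ⟨s, hs⟩ := P.ψcp' (X := Unit) (fun _ => x) (fun _ => k)
    simp only [Finset.univ_unique, Finset.sum_singleton] at hs
    show 0 ≤ ω.f (star k * P.ψ (star x * x) * k)
    rw [hs]
    exact ω.pos s

lemma rho_apply (P : Pair U N) (ω : PosF U) (k : U) (t : Matrix (Fin N) (Fin N) ℂ) :
    (rho P ω k).f t = ω.f (star k * P.ψ t * k) := rfl

/-- density matrix of a functional -/
def dens (t : PosF (Matrix (Fin N) (Fin N) ℂ)) : Matrix (Fin N) (Fin N) ℂ :=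
  Matrix.of fun a b => t.f (Matrix.single b a 1)

lemma dens_trace (t : PosF (Matrix (Fin N) (Fin N) ℂ)) (x : Matrix (Fin N) (Fin N) ℂ) :
    (dens t * x).trace = t.f x := by
  have h1 : t.f x = ∑ y, ∑ j, x y j * t.f (Matrix.single y j 1) := by
    conv_lhs => rw [Matrix.matrix_eq_sum_single x]
    rw [map_sum]
    refine Finset.sum_congr rfl fun y _ => ?_
    rw [map_sum]
    refine Finset.sum_congr rfl fun j _ => ?_
    rw [← smul_eq_mul, ← map_smul, Matrix.smul_single, smul_eq_mul, mul_one]
  rw [h1, Matrix.trace, Finset.sum_comm]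
  refine Finset.sum_congr rfl fun a _ => ?_
  rw [Matrix.diag_apply, Matrix.mul_apply]
  refine Finset.sum_congr rfl fun b _ => ?_
  rw [dens, Matrix.of_apply, mul_comm]

lemma dens_psd (t : PosF (Matrix (Fin N) (Fin N) ℂ)) : (dens t).PosSemidef := by
  refine Matrix.PosSemidef.of_dotProduct_mulVec_nonneg ?_ ?_
  · ext a b
    rw [Matrix.conjTranspose_apply, dens, Matrix.of_apply, Matrix.of_apply]
    have h1 := t.herm (Matrix.single b b (1 : ℂ)) (Matrix.single b a 1)
    have e1 : star (Matrix.single b b (1 : ℂ)) * Matrix.single b a 1 = Matrix.single b a 1 := by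
      rw [Matrix.star_eq_conjTranspose, Matrix.conjTranspose_single, star_one,
        Matrix.single_mul_single_same, mul_one]
    have e2 : star (Matrix.single b a (1 : ℂ)) * Matrix.single b b 1 = Matrix.single a b 1 := by
      rw [Matrix.star_eq_conjTranspose, Matrix.conjTranspose_single, star_one,
        Matrix.single_mul_single_same, mul_one]
    rw [e1, e2] at h1
    rw [h1]
    exact Complex.conj_conj _
  · intro v
    let Y : Matrix (Fin N) (Fin N) ℂ := Matrix.of fun i j => if i.val = 0 then star (v j) else 0
    have h1 := t.pos Y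
    refine h1.trans (le_of_eq ?_)
    rw [← dens_trace]
    rcases Nat.eq_zero_or_pos N with h0 | h0
    · subst h0
      simp [Matrix.trace, dotProduct]
    · have e1 : ∀ i j, (star Y * Y) i j = v i * star (v j) := by
        intro i j
        rw [Matrix.mul_apply, Finset.sum_eq_single (⟨0, h0⟩ : Fin N)]
        · simp [Y, Matrix.star_apply]
        · intro b _ hb
          have : b.val ≠ 0 := fun h => hb (Fin.ext h)
          simp [Y, Matrix.star_apply, this]
        · simp
      rw [Matrix.trace]
      simp only [dotProduct, Matrix.mulVec, Pi.star_apply]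
      refine Finset.sum_congr rfl fun a _ => ?_
      rw [Matrix.diag_apply, Matrix.mul_apply, Finset.mul_sum]
      refine Finset.sum_congr rfl fun b _ => ?_
      rw [e1]
      ring

end rho

end Pool.Agent.Helper234.Exact
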