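import Pool.Agent.Helper234.Exact.X4

set_option autoImplicit false
open scoped ComplexOrder
open scoped Matrix.Norms.L2Operator

namespace Pool.Agent.Helper234.Exact

open Pool.Agent.Helper234.Nuc

universe u

section row

variable {N : ℕ}

/-- a two by two matrix with a given first row -/
def row2 (v : Fin 2 → Matrix (Fin N) (Fin N) ℂ) : Matrix (Fin 2) (Fin 2) (Matrix (Fin N) (Fin N) ℂ) :=
  Matrix.of fun r s => if r = 0 then v s else 0

lemma star_row2_mul (v w : Fin 2 → Matrix (Fin N) (Fin N) ℂ) (s t : Fin 2) :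
    (star (row2 v) * row2 w) s t = star (v s) * w t := by
  rw [Matrix.mul_apply, Fin.sum_univ_two]
  simp [row2, Matrix.star_apply]

lemma DD_mul_row2 (c : Matrix (Fin N) (Fin N) ℂ) (v : Fin 2 → Matrix (Fin N) (Fin N) ℂ) :
    DD (Fin 2) c * row2 v = row2 (fun s => c * v s) := by
  ext1 r s
  rw [DD, Matrix.diagonal_mul, row2, row2, Matrix.of_apply, Matrix.of_apply]
  split_ifs <;> simp

lemma row2_sub (v w : Fin 2 → Matrix (Fin N) (Fin N) ℂ) : row2 v - row2 w = row2 (fun s => v s - w s) := by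
  ext1 r s
  rw [Matrix.sub_apply, row2, row2, row2, Matrix.of_apply, Matrix.of_apply, Matrix.of_apply]
  split_ifs <;> simp

end row

section

variable {U : Type u} [NonUnitalCStarAlgebra U] {N : ℕ}

lemma conj_le (ω : PosF U) (k : U) (hk : ω.f (star k * k) = 1) (y : U) : ‖ω.f (star k * y * k)‖ ≤ ‖y‖ := by
  have h1 := ω.norm_conj_le y k
  rw [ω.n2_sq, hk, Complex.one_re, mul_one] at h1
  exact h1

lemma cross_le (ω : PosF U) (k l : U) (hk : ω.f (star k * k) = 1) (hl : ω.f (star l * l) = 1) (y : U) :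
    ‖ω.f (star l * (y * k))‖ ≤ ‖y‖ := by
  have h1 := ω.norm_le l (y * k)
  have h2 := ω.n2_mul_le y k
  have h3 : ω.n2 k = 1 := by
    have : ω.n2 k ^ 2 = 1 := by rw [ω.n2_sq, hk]; rfl
    have h4 := ω.n2_nonneg k
    nlinarith
  have h4 : ω.n2 l = 1 := by
    have : ω.n2 l ^ 2 = 1 := by rw [ω.n2_sq, hl]; rfl
    have h4 := ω.n2_nonneg l
    nlinarith
  rw [h3, mul_one] at h2
  rw [h4, one_mul] at h1
  exact h1.trans h2

lemma proj_norm (p : U) (hps : star p = p) (hpp : p * p = p) : ‖p‖ ≤ 1 := by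
  have h1 : ‖p‖ * ‖p‖ = ‖p‖ := by
    rw [← CStarRing.norm_star_mul_self, hps, hpp]
  nlinarith [norm_nonneg p]

variable (P : Pair U N) (ω : PosF U)

/-- comparison of the two functionals -/
lemma psi_compare (ε : ℝ) (p u k : U) (hk : ω.f (star k * k) = 1) (huu : star u * u = p)
    (hps : star p = p) (hpp : p * p = p) (hpk : p * k = k) (hu : ‖P.ψ (P.φ u) - u‖ ≤ ε) :
    1 - 2 * ε ≤ (ω.f (star k * P.ψ (star (P.φ u) * P.φ u) * k)).re ∧
    ∀ c : Matrix (Fin N) (Fin N) ℂ, (1 - star c * c).PosSemidef →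
      ‖ω.f (star k * P.ψ (star (P.φ u) * (c * P.φ u)) * k) - ω.f (star (u * k) * P.ψ c * (u * k))‖ ≤
        2 * Real.sqrt (2 * ε) := by
  have hun : ‖u‖ ≤ 1 := by
    have h1 : ‖u‖ * ‖u‖ ≤ 1 := by rw [← CStarRing.norm_star_mul_self, huu]; exact proj_norm p hps hpp
    nlinarith [norm_nonneg u]
  have huk : ω.f (star (u * k) * (u * k)) = 1 := by
    rw [star_mul, ← mul_assoc, mul_assoc (star k), huu, mul_assoc, hpk, hk]
  have hA : ‖P.φ u‖ ≤ 1 := (P.φ_norm u).trans hun
  have hone : ‖(1 : Matrix (Fin N) (Fin N) ℂ)‖ ≤ 1 := by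
    have h7 := CStarRing.norm_star_mul_self (x := (1 : Matrix (Fin N) (Fin N) ℂ))
    rw [star_one, one_mul] at h7
    nlinarith [norm_nonneg (1 : Matrix (Fin N) (Fin N) ℂ)]
  set y : Fin 2 → U := ![k, u * k] with hy
  set a := row2 (![P.φ u, 0] : Fin 2 → Matrix (Fin N) (Fin N) ℂ) with ha
  set b := row2 (![0, 1] : Fin 2 → Matrix (Fin N) (Fin N) ℂ) with hb
  set t := Psi P ω y with ht
  have haa : t.f (star a * a) = ω.f (star k * P.ψ (star (P.φ u) * P.φ u) * k) := by
    rw [ht, Psi_apply]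
    simp only [ha, star_row2_mul, Fin.sum_univ_two]
    simp [y]
  have hbb : t.f (star b * b) = ω.f (star (u * k) * P.ψ 1 * (u * k)) := by
    rw [ht, Psi_apply]
    simp only [hb, star_row2_mul, Fin.sum_univ_two]
    simp [y]
  have hba : t.f (star b * a) = ω.f (star (u * k) * P.ψ (P.φ u) * k) := by
    rw [ht, Psi_apply]
    simp only [ha, hb, star_row2_mul, Fin.sum_univ_two]
    simp [y]
  have haale : (t.f (star a * a)).re ≤ 1 := by
    rw [haa]
    refine (Complex.re_le_norm _).trans ((conj_le ω k hk _).trans ((P.ψ_norm _).trans ?_))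
    rw [CStarRing.norm_star_mul_self]
    nlinarith [norm_nonneg (P.φ u)]
  have hbble : (t.f (star b * b)).re ≤ 1 := by
    rw [hbb]
    exact (Complex.re_le_norm _).trans ((conj_le ω (u * k) huk _).trans ((P.ψ_norm _).trans hone))
  have hbage : 1 - ε ≤ (t.f (star b * a)).re := by
    rw [hba]
    have e1 : ω.f (star (u * k) * P.ψ (P.φ u) * k) = 1 + ω.f (star (u * k) * ((P.ψ (P.φ u) - u) * k)) := by
      rw [← huk, ← map_add]
      congr 1
      rw [sub_mul, mul_sub, mul_assoc]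
      abel
    rw [e1, Complex.add_re, Complex.one_re]
    have h1 := cross_le ω k (u * k) hk huk (P.ψ (P.φ u) - u)
    have h2 := Complex.abs_re_le_norm (ω.f (star (u * k) * ((P.ψ (P.φ u) - u) * k)))
    have h3 := abs_le.mp (h2.trans (h1.trans hu))
    linarith [h3.1]
  have habre : (t.f (star a * b)).re = (t.f (star b * a)).re := by
    rw [t.herm a b, Complex.conj_re]
  have hexp : t.n2 (a - b) ^ 2 = (t.f (star a * a)).re - 2 * (t.f (star b * a)).re + (t.f (star b * b)).re := by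
    rw [t.n2_sq, star_sub, sub_mul, mul_sub, mul_sub, map_sub, map_sub, map_sub, Complex.sub_re,
      Complex.sub_re, Complex.sub_re, habre]
    ring
  have hn0 := sq_nonneg (t.n2 (a - b))
  refine ⟨?_, fun c hc => ?_⟩
  · rw [← haa]
    linarith
  · have h1 := compare t (DD (Fin 2) c) a b (fun x => Psi_contr P ω y c hc x)
    have e1 : t.f (star a * (DD (Fin 2) c * a)) = ω.f (star k * P.ψ (star (P.φ u) * (c * P.φ u)) * k) := by
      rw [ha, DD_mul_row2, ht, Psi_apply]
      simp only [star_row2_mul, Fin.sum_univ_two]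
      simp [y]
    have e2 : t.f (star b * (DD (Fin 2) c * b)) = ω.f (star (u * k) * P.ψ c * (u * k)) := by
      rw [hb, DD_mul_row2, ht, Psi_apply]
      simp only [star_row2_mul, Fin.sum_univ_two]
      simp [y]
    rw [e1, e2] at h1
    have h2 : t.n2 (a - b) ≤ Real.sqrt (2 * ε) := by
      apply Real.le_sqrt_of_sq_le
      rw [hexp]
      linarith
    have h3 : t.n2 a ≤ 1 := by
      have : t.n2 a ^ 2 ≤ 1 := by rw [t.n2_sq]; exact haale
      nlinarith [t.n2_nonneg a]
    have h4 : t.n2 b ≤ 1 := by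
      have : t.n2 b ^ 2 ≤ 1 := by rw [t.n2_sq]; exact hbble
      nlinarith [t.n2_nonneg b]
    have h5 := t.n2_nonneg (a - b)
    have h6 := t.n2_nonneg a
    have h7 := t.n2_nonneg b
    have h8 := Real.sqrt_nonneg (2 * ε)
    refine h1.trans ((mul_le_mul h2 (add_le_add h3 h4) (add_nonneg h6 h7) h8).trans ?_)
    rw [mul_comm]
    norm_num

lemma rho_one_ge (ε : ℝ) (p k : U) (hk : ω.f (star k * k) = 1)
    (hps : star p = p) (hpp : p * p = p) (hpk : p * k = k) (hp : ‖P.ψ (P.φ p) - p‖ ≤ ε) :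
    1 - ε ≤ (ω.f (star k * P.ψ 1 * k)).re ∧ (ω.f (star k * P.ψ (P.φ p) * k)).re ≤ 1 := by
  have hpn := proj_norm p hps hpp
  have hM : ‖P.φ p‖ ≤ 1 := (P.φ_norm p).trans hpn
  have hMs : star (P.φ p) = P.φ p := P.φ_sa p hps
  obtain ⟨z, hz⟩ := posSemidef_eq (P.φc p hpn)
  have h1 : 0 ≤ ((rho P ω k).f ((1 - P.φ p) + (1 - P.φ p))).re := by
    have e1 : (1 - P.φ p) + (1 - P.φ p) = star (1 - P.φ p) * (1 - P.φ p) + star z * z := by
      rw [← hz, star_sub, star_one, hMs]
      noncomm_ring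
    rw [e1, map_add, Complex.add_re]
    have := (rho P ω k).self_re_nonneg (1 - P.φ p)
    have := (rho P ω k).self_re_nonneg z
    linarith
  rw [map_add, map_sub, Complex.add_re, Complex.sub_re, rho_apply, rho_apply] at h1
  have e2 : ω.f (star k * P.ψ (P.φ p) * k) = 1 + ω.f (star k * (P.ψ (P.φ p) - p) * k) := by
    rw [← hk, ← map_add]
    congr 1
    rw [mul_sub, sub_mul, mul_assoc (star k) p, hpk]
    abel
  have h2 := conj_le ω k hk (P.ψ (P.φ p) - p)
  have h3 := Complex.abs_re_le_norm (ω.f (star k * (P.ψ (P.φ p) - p) * k))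
  have h4 := abs_le.mp (h3.trans (h2.trans hp))
  refine ⟨?_, ?_⟩
  · have : 1 - ε ≤ (ω.f (star k * P.ψ (P.φ p) * k)).re := by
      rw [e2, Complex.add_re, Complex.one_re]
      linarith [h4.1]
    linarith
  · refine (Complex.re_le_norm _).trans ((conj_le ω k hk _).trans ((P.ψ_norm _).trans hM))

end

end Pool.Agent.Helper234.Exact
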