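import Pool.Agent.Helper234.Exact.X5

set_option autoImplicit false
open scoped ComplexOrder
open scoped Matrix.Norms.L2Operator

namespace Pool.Agent.Helper234.Exact

open Pool.Agent.Helper234.Nuc

universe u

/-- partial isometries satisfying the norm inequality of free generators with matrix coefficients -/
structure FreeLike (U : Type u) [NonUnitalCStarAlgebra U] (d : ℕ) (p : U) (u : Fin d → U) : Prop where
  ps : star p = p
  pp : p * p = p
  pu : ∀ i, p * u i = u i
  uu : ∀ i, star (u i) * u i = p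
  ineq : ∀ (N : ℕ) (W : Fin d → Matrix (Fin N) (Fin N) ℂ), (∀ i, ‖W i‖ ≤ 1) →
    ∃ Z : Matrix (Fin N) (Fin N) U,
      star (Matrix.of fun a b => ∑ i, W i a b • u i : Matrix (Fin N) (Fin N) U) *
        (Matrix.of fun a b => ∑ i, W i a b • u i : Matrix (Fin N) (Fin N) U) + star Z * Z =
      Matrix.diagonal fun _ => ((4 * d : ℝ) : ℂ) • p

section

variable {U : Type u} [NonUnitalCStarAlgebra U] {N : ℕ} {d : ℕ} {p : U} {u : Fin d → U}

lemma norm_transpose_le (V : Matrix (Fin N) (Fin N) ℂ) (hV : ‖V‖ ≤ 1) : ‖V.transpose‖ ≤ 1 := by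
  have h1 : ‖star V‖ ≤ 1 := by rwa [norm_star]
  have h2 : (1 - star (star V) * star V).PosSemidef := norm_le_one_iff_posSemidef.mp h1
  have h3 := h2.transpose
  refine norm_le_one_iff_posSemidef.mpr ?_
  have e : (1 - star (star V) * star V).transpose = 1 - star V.transpose * V.transpose := by
    rw [Matrix.transpose_sub, Matrix.transpose_one, Matrix.transpose_mul, star_star]
    rfl
  rw [← e]
  exact h3

lemma xi_bound (H : FreeLike U d p u) (P : Pair U N) (A : Matrix (Fin N) (Fin N) ℂ) (hA : star A = A)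
    (hAp : ((Matrix.trace (A * P.φ p * A))).re ≤ 1) (V : Fin d → Matrix (Fin N) (Fin N) ℂ)
    (hV : ∀ i, ‖V i‖ ≤ 1) : ∑ i, (Matrix.trace (A * P.φ (u i) * A * V i)).re ≤ 2 * Real.sqrt d := by
  set T : Matrix (Fin N) (Fin N) U := Matrix.of fun a b => ∑ i, (V i).transpose a b • u i with hT
  obtain ⟨Z, hZ⟩ := H.ineq N (fun i => (V i).transpose) (fun i => norm_transpose_le _ (hV i))
  rw [← hT] at hZ
  set Q : Matrix (Fin N) (Fin N) U := Matrix.diagonal fun _ => p with hQ
  set t := Xi P A hA with ht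
  have hQs : star Q = Q := by
    rw [hQ, Matrix.star_eq_conjTranspose, Matrix.diagonal_conjTranspose]
    congr 1
    funext x
    exact H.ps
  have hQT : star Q * T = T := by
    rw [hQs]
    ext a b
    rw [hQ, Matrix.diagonal_mul, hT, Matrix.of_apply, Finset.mul_sum]
    refine Finset.sum_congr rfl fun i _ => ?_
    rw [mul_smul_comm, H.pu]
  have hQQ : star Q * Q = Q := by
    rw [hQs, hQ, Matrix.diagonal_mul_diagonal, H.pp]
  have hfQ : (t.f Q).re ≤ 1 := by
    have : t.f Q = Matrix.trace (A * P.φ p * A) := by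
      rw [ht, Xi_apply, Matrix.trace]
      refine Finset.sum_congr rfl fun a _ => ?_
      rw [Finset.sum_eq_single a]
      · rw [hQ, Matrix.diagonal_apply_eq]; rfl
      · intro b _ hb
        rw [hQ, Matrix.diagonal_apply_ne _ (Ne.symm hb), map_zero, mul_zero, zero_mul]; rfl
      · simp
    rw [this]
    exact hAp
  have hnQ : t.n2 Q ≤ 1 := by
    have h1 : t.n2 Q ^ 2 ≤ 1 := by rw [t.n2_sq, hQQ]; exact hfQ
    nlinarith [t.n2_nonneg Q]
  have hnT : t.n2 T ≤ 2 * Real.sqrt d := by
    have h1 : t.n2 T ^ 2 ≤ 4 * d := by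
      rw [t.n2_sq]
      have h2 : (t.f (star T * T)).re + (t.f (star Z * Z)).re = 4 * d * (t.f Q).re := by
        rw [← Complex.add_re, ← map_add, hZ]
        have : (Matrix.diagonal fun _ => ((4 * d : ℝ) : ℂ) • p : Matrix (Fin N) (Fin N) U) =
            ((4 * d : ℝ) : ℂ) • Q := by
          rw [hQ]
          ext a b
          rw [Matrix.smul_apply]
          by_cases hab : a = b
          · subst hab; simp
          · rw [Matrix.diagonal_apply_ne _ hab, Matrix.diagonal_apply_ne _ hab, smul_zero]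
        rw [this, map_smul, smul_eq_mul, Complex.re_ofReal_mul]
      have h3 := t.self_re_nonneg Z
      have h4 : (4 : ℝ) * d * (t.f Q).re ≤ 4 * d := by
        have : (0 : ℝ) ≤ 4 * d := by positivity
        nlinarith
      linarith
    have h2 : (2 * Real.sqrt d) ^ 2 = 4 * d := by
      rw [mul_pow, Real.sq_sqrt (Nat.cast_nonneg d)]; norm_num
    have h3 : 0 ≤ 2 * Real.sqrt d := by positivity
    exact le_of_sq_le_sq (by rw [h2]; exact h1) h3
  have h1 := t.norm_le Q T
  rw [hQT] at h1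
  have h2 : t.f T = ∑ i, Matrix.trace (A * P.φ (u i) * A * V i) := by
    rw [ht, Xi_apply]
    have e1 : ∀ a b, (A * P.φ (T a b) * A) a b = ∑ i, V i b a * (A * P.φ (u i) * A) a b := by
      intro a b
      rw [hT, Matrix.of_apply, map_sum, Finset.mul_sum, Finset.sum_mul, Matrix.sum_apply]
      refine Finset.sum_congr rfl fun i _ => ?_
      rw [map_smul, mul_smul_comm, smul_mul_assoc, Matrix.smul_apply, smul_eq_mul, Matrix.transpose_apply]
    simp only [e1]
    rw [sum_rot]
    refine Finset.sum_congr rfl fun i _ => ?_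
    rw [Matrix.trace]
    refine Finset.sum_congr rfl fun a _ => ?_
    rw [Matrix.diag_apply, Matrix.mul_apply]
    refine Finset.sum_congr rfl fun b _ => ?_
    ring
  have h3 : (t.f T).re = ∑ i, (Matrix.trace (A * P.φ (u i) * A * V i)).re := by
    rw [h2, Complex.re_sum]
  rw [← h3]
  refine (Complex.re_le_norm _).trans (h1.trans ?_)
  have h4 := t.n2_nonneg T
  have h5 := t.n2_nonneg Q
  calc t.n2 Q * t.n2 T ≤ 1 * (2 * Real.sqrt d) := mul_le_mul hnQ hnT h4 (by norm_num)
    _ = _ := one_mul _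

theorem sep_state (H : FreeLike U d p u) (hd : 0 < d) (P : Pair U N) (ε : ℝ)
    (hPp : ‖P.ψ (P.φ p) - p‖ ≤ ε) (hPu : ∀ i, ‖P.ψ (P.φ (u i)) - u i‖ ≤ ε) (ω : PosF U) (k : U)
    (hk : ω.f (star k * k) = 1) (hpk : p * k = k) :
    ∃ (i : Fin d) (c : Matrix (Fin N) (Fin N) ℂ), star c = c ∧ (1 - star c * c).PosSemidef ∧
      2 - 3 * ε - 4 / Real.sqrt d - 2 * Real.sqrt (2 * ε) ≤
        (ω.f (star k * P.ψ c * k)).re - (ω.f (star (u i * k) * P.ψ c * (u i * k))).re := by
  obtain ⟨hr1, hr2⟩ := rho_one_ge P ω ε p k hk H.ps H.pp hpk hPp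
  obtain ⟨B0, hB0⟩ := posSemidef_eq (dens_psd (rho P ω k))
  obtain ⟨A, _, hApsd, hAA, _, _⟩ := exists_polar (star B0)
  rw [star_star] at hAA
  have hAA' : A * A = dens (rho P ω k) := by rw [hAA, hB0]
  have hAs : star A = A := hApsd.1
  have htr : ∀ x, Matrix.trace (A * A * x) = ω.f (star k * P.ψ x * k) := by
    intro x
    rw [hAA', dens_trace, rho_apply]
  have hpol := fun i => exists_polar (P.φ (u i) * A)
  choose B V hBpsd hBB hXV hV using hpol
  have hVn : ∀ i, ‖V i‖ ≤ 1 := fun i => norm_le_one_iff_posSemidef.mpr (hV i)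
  have hsum : ∑ i, (Matrix.trace (A * B i)).re ≤ 2 * Real.sqrt d := by
    have h1 := xi_bound H P A hAs (by
      have : Matrix.trace (A * P.φ p * A) = ω.f (star k * P.ψ (P.φ p) * k) := by
        rw [← htr, Matrix.trace_mul_comm (A * P.φ p) A, mul_assoc]
      rw [this]
      exact hr2) V hVn
    refine le_trans (le_of_eq ?_) h1
    refine Finset.sum_congr rfl fun i _ => ?_
    rw [← hXV]
    simp only [mul_assoc]
  have hex : ∃ i, (Matrix.trace (A * B i)).re ≤ 2 / Real.sqrt d := by
    by_contra hcon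
    push Not at hcon
    have hd' : (0 : ℝ) < d := by exact_mod_cast hd
    haveI : Nonempty (Fin d) := ⟨⟨0, hd⟩⟩
    have h1 : ∑ i : Fin d, 2 / Real.sqrt d < ∑ i, (Matrix.trace (A * B i)).re :=
      Finset.sum_lt_sum_of_nonempty Finset.univ_nonempty (fun i _ => hcon i)
    rw [Finset.sum_const, Finset.card_univ, Fintype.card_fin, nsmul_eq_mul] at h1
    have h2 : (d : ℝ) * (2 / Real.sqrt d) = 2 * Real.sqrt d := by
      have h3 : Real.sqrt d * Real.sqrt d = d := Real.mul_self_sqrt hd'.le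
      have h4 : Real.sqrt d ≠ 0 := (Real.sqrt_pos.mpr hd').ne'
      field_simp
      nlinarith
    rw [h2] at h1
    linarith
  obtain ⟨i, hi⟩ := hex
  obtain ⟨c, hcs, hcc, hsep⟩ := exists_separation A (B i) hApsd (hBpsd i)
  obtain ⟨hpc1, hpc2⟩ := psi_compare P ω ε p (u i) k hk (H.uu i) H.ps H.pp hpk (hPu i)
  refine ⟨i, c, hcs, hcc, ?_⟩
  have e1 : Matrix.trace (A * A) = ω.f (star k * P.ψ 1 * k) := by
    rw [← htr, mul_one]
  have e2 : ∀ x, Matrix.trace (B i * B i * x) = ω.f (star k * P.ψ (star (P.φ (u i)) * (x * P.φ (u i))) * k) := by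
    intro x
    rw [hBB, ← htr, star_mul, hAs]
    have : P.φ (u i) * A * (A * star (P.φ (u i))) * x = P.φ (u i) * (A * A * star (P.φ (u i)) * x) := by
      noncomm_ring
    rw [this, Matrix.trace_mul_comm]
    congr 1
    noncomm_ring
  have e3 : Matrix.trace (B i * B i) = ω.f (star k * P.ψ (star (P.φ (u i)) * P.φ (u i)) * k) := by
    have := e2 1
    rwa [mul_one, one_mul] at this
  have e4 : 4 / Real.sqrt d = 2 * (2 / Real.sqrt d) := by ring
  have h5 := hpc2 c hcc
  rw [← e2] at h5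
  have h6 := Complex.abs_re_le_norm (Matrix.trace (B i * B i * c) - ω.f (star (u i * k) * P.ψ c * (u i * k)))
  have h7 := abs_le.mp (h6.trans h5)
  rw [Complex.sub_re] at h7
  rw [e1, e3, htr] at hsep
  linarith [h7.1, h7.2]

end

end Pool.Agent.Helper234.Exact
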