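import Pool.Agent.Helper234.Exact.X6

set_option autoImplicit false
open scoped ComplexOrder
open scoped Matrix.Norms.L2Operator

namespace Pool.Agent.Helper234.Exact

open Pool.Agent.Helper234.Nuc

universe u

variable {U : Type u} [NonUnitalCStarAlgebra U] {p : U} {u : Fin 16384 → U}

lemma re_conj_star (ω : PosF U) (k x : U) : (ω.f (star k * star x * k)).re = (ω.f (star k * x * k)).re := by
  have h1 := ω.herm k (x * k)
  have e1 : star (x * k) * k = star k * star x * k := by rw [star_mul]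
  have e2 : star k * (x * k) = star k * x * k := by rw [mul_assoc]
  rw [e1, e2] at h1
  rw [h1, Complex.conj_re]

/-- real part -/
noncomputable def rp (x : U) : U := (1/2 : ℂ) • (x + star x)

lemma star_rp (x : U) : star (rp x) = rp x := by
  rw [rp, star_smul, star_add, star_star, add_comm]
  norm_num

lemma norm_rp_le (x : U) : ‖rp x‖ ≤ ‖x‖ := by
  rw [rp, norm_smul]
  have := norm_add_le x (star x)
  rw [norm_star] at this
  norm_num
  linarith

lemma re_rp (ω : PosF U) (k x : U) : (ω.f (star k * rp x * k)).re = (ω.f (star k * x * k)).re := by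
  have h1 : ω.f (star k * rp x * k) = ((1/2 : ℝ) : ℂ) * (ω.f (star k * x * k) + ω.f (star k * star x * k)) := by
    have e0 : star k * rp x * k = ((1/2 : ℝ) : ℂ) • (star k * x * k + star k * star x * k) := by
      rw [rp, mul_smul_comm, smul_mul_assoc, mul_add, add_mul]
      norm_num
    rw [e0, map_smul, map_add, smul_eq_mul]
  rw [h1, Complex.re_ofReal_mul, Complex.add_re, re_conj_star]
  ring

lemma finite_net (N : ℕ) (δ : ℝ) (hδ : 0 < δ) : ∃ S : Set (Matrix (Fin N) (Fin N) ℂ), S.Finite ∧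
    (∀ c ∈ S, ‖c‖ ≤ 1) ∧ ∀ c : Matrix (Fin N) (Fin N) ℂ, ‖c‖ ≤ 1 → ∃ c' ∈ S, ‖c - c'‖ ≤ δ := by
  haveI : ProperSpace (Matrix (Fin N) (Fin N) ℂ) := FiniteDimensional.proper ℂ _
  obtain ⟨S, hS, hfin, hcov⟩ := (isCompact_closedBall (0 : Matrix (Fin N) (Fin N) ℂ) 1).finite_cover_balls hδ
  refine ⟨S, hfin, fun c hc => ?_, fun c hc => ?_⟩
  · have := hS hc
    rwa [mem_closedBall_zero_iff] at this
  · have h1 : c ∈ Metric.closedBall (0 : Matrix (Fin N) (Fin N) ℂ) 1 := by rwa [mem_closedBall_zero_iff]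
    have h2 := hcov h1
    rw [Set.mem_iUnion₂] at h2
    obtain ⟨c', hc', h3⟩ := h2
    refine ⟨c', hc', ?_⟩
    rw [Metric.mem_ball, dist_eq_norm] at h3
    exact h3.le

theorem exists_family (hU : IsNuclear U) (H : FreeLike U 16384 p u) :
    ∃ (I : Type) (_ : Fintype I) (c : I → U), (∀ j, star (c j) = c j) ∧ (∀ j, ‖c j‖ ≤ 1) ∧
      ∀ (ω : PosF U) (k : U), ω.f (star k * k) = 1 → p * k = k →
        ∃ (i : Fin 16384) (j : I), 2 - 1/16 ≤
          (ω.f (star k * c j * k)).re - (ω.f (star (u i * k) * c j * (u i * k))).re := by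
  classical
  obtain ⟨N, P, hP⟩ := hU.exists_pair (insert p (Finset.univ.image u)) (1/1000000) (by norm_num)
  have hPp : ‖P.ψ (P.φ p) - p‖ ≤ 1/1000000 := (hP p (Finset.mem_insert_self _ _)).le
  have hPu : ∀ i, ‖P.ψ (P.φ (u i)) - u i‖ ≤ 1/1000000 := fun i =>
    (hP (u i) (Finset.mem_insert_of_mem (Finset.mem_image_of_mem u (Finset.mem_univ i)))).le
  obtain ⟨S, hfin, hS1, hS2⟩ := finite_net N (1/100) (by norm_num)
  haveI := hfin.fintype
  refine ⟨S, hfin.fintype, fun c => rp (P.ψ c.1), fun c => star_rp _, fun c => ?_, fun ω k hk hpk => ?_⟩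
  · exact (norm_rp_le _).trans ((P.ψ_norm _).trans (hS1 _ c.2))
  · obtain ⟨i, c, hcs, hcc, hsep⟩ := sep_state H (by norm_num) P (1/1000000) hPp hPu ω k hk hpk
    have hcn : ‖c‖ ≤ 1 := norm_le_one_iff_posSemidef.mpr hcc
    obtain ⟨c', hc', hcc'⟩ := hS2 c hcn
    refine ⟨i, ⟨c', hc'⟩, ?_⟩
    show 2 - 1/16 ≤ (ω.f (star k * rp (P.ψ c') * k)).re - (ω.f (star (u i * k) * rp (P.ψ c') * (u i * k))).re
    rw [re_rp, re_rp]
    have huk : ω.f (star (u i * k) * (u i * k)) = 1 := by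
      rw [star_mul, ← mul_assoc, mul_assoc (star k), H.uu, mul_assoc, hpk, hk]
    have hdiff : ‖P.ψ c - P.ψ c'‖ ≤ 1/100 := by
      rw [← map_sub]
      exact (P.ψ_norm _).trans hcc'
    have h1 : ∀ l : U, ω.f (star l * l) = 1 →
        |(ω.f (star l * P.ψ c * l)).re - (ω.f (star l * P.ψ c' * l)).re| ≤ 1/100 := by
      intro l hl
      rw [← Complex.sub_re, ← map_sub, ← sub_mul, ← mul_sub]
      exact (Complex.abs_re_le_norm _).trans ((conj_le ω l hl _).trans hdiff)
    have h2 := abs_le.mp (h1 k hk)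
    have h3 := abs_le.mp (h1 (u i * k) huk)
    have h4 : Real.sqrt ((16384 : ℕ) : ℝ) = 128 := by
      rw [show ((16384 : ℕ) : ℝ) = 128 ^ 2 from by norm_num, Real.sqrt_sq (by norm_num)]
    have h5 : Real.sqrt (2 * (1/1000000)) ≤ 1/500 := by
      rw [Real.sqrt_le_left (by norm_num)]
      norm_num
    rw [h4] at hsep
    linarith [h2.1, h2.2, h3.1, h3.2]

end Pool.Agent.Helper234.Exact
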