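import Mathlib

set_option autoImplicit false
open scoped ComplexOrder ENNReal InnerProductSpace

namespace Pool.Agent.Helper234.Exact

/-- the Hilbert space of square summable functions -/
abbrev L2 (ι : Type) : Type := lp (fun _ : ι => ℂ) 2

/-- the standard basis vector -/
noncomputable def ket {ι : Type} (i : ι) : L2 ι := by
  classical exact lp.single 2 i (1 : ℂ)

section ket

variable {ι : Type}

open Classical in
lemma ket_apply (i j : ι) : ket i j = if j = i then 1 else 0 := by
  rw [ket, lp.single_apply]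
  by_cases h : j = i
  · subst h; simp
  · rw [if_neg h, Pi.single_eq_of_ne h]

lemma inner_ket (i : ι) (f : L2 ι) : ⟪ket i, f⟫_ℂ = f i := by
  classical
  rw [ket, lp.inner_single_left]
  simp

open Classical in
lemma inner_ket_ket (i j : ι) : ⟪ket i, ket j⟫_ℂ = if i = j then 1 else 0 := by
  rw [inner_ket, ket_apply]

lemma norm_ket (i : ι) : ‖ket i‖ = 1 := by
  classical
  have h1 := inner_self_eq_norm_sq_to_K (𝕜 := ℂ) (ket i)
  rw [inner_ket_ket, if_pos rfl] at h1
  have h2 : ((‖ket i‖ ^ 2 : ℝ) : ℂ) = ((1 : ℝ) : ℂ) := by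
    rw [Complex.ofReal_one, h1]
    push_cast
    rfl
  have h3 : ‖ket i‖ ^ 2 = 1 := Complex.ofReal_injective h2
  nlinarith [norm_nonneg (ket i)]

lemma ket_orthonormal : Orthonormal ℂ (ket : ι → L2 ι) := by
  classical
  rw [orthonormal_iff_ite]
  intro i j
  rw [inner_ket_ket]

lemma hasSum_ket (f : L2 ι) : HasSum (fun i => f i • ket i) f := by
  classical
  have h := lp.hasSum_single (E := fun _ : ι => ℂ) (p := 2) (by norm_num) f
  refine h.congr_fun ?_ |> fun h' => h'
  intro i
  rw [ket, ← lp.single_smul]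
  simp

lemma ext_ket {K : Type} [NormedAddCommGroup K] [NormedSpace ℂ K] {T S : L2 ι →L[ℂ] K}
    (h : ∀ i, T (ket i) = S (ket i)) : T = S := by
  ext f
  have h1 := (hasSum_ket f).mapL T
  have h2 := (hasSum_ket f).mapL S
  refine h1.unique ?_
  simp only [map_smul, h] at h2 ⊢
  exact h2

/-- the isometry given by an orthonormal family -/
noncomputable def iso {K : Type} [NormedAddCommGroup K] [InnerProductSpace ℂ K] [CompleteSpace K] (v : ι → K)
    (hv : Orthonormal ℂ v) : L2 ι →ₗᵢ[ℂ] K :=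
  hv.orthogonalFamily.linearIsometry

lemma iso_ket {K : Type} [NormedAddCommGroup K] [InnerProductSpace ℂ K] [CompleteSpace K] (v : ι → K)
    (hv : Orthonormal ℂ v) (i : ι) : iso v hv (ket i) = v i := by
  classical
  rw [iso, ket, OrthogonalFamily.linearIsometry_apply_single]
  simp

end ket

/-- the free group -/
abbrev Gm (d : ℕ) : Type := FreeGroup (Fin d)

/-- finite sets with sixteen selfadjoint unitary matrices -/
structure Dat where
  Q : ℕ → Type
  fin : ∀ n, Fintype (Q n)
  dec : ∀ n, DecidableEq (Q n)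
  ne : ∀ n, Nonempty (Q n)
  O : ∀ n, Fin 16 → Q n → Q n → ℂ
  O_star : ∀ n z q q', (starRingEnd ℂ) (O n z q q') = O n z q' q
  O_sq : ∀ n z q q', ∑ x, O n z q x * O n z x q' = if q = q' then 1 else 0

attribute [instance] Dat.fin Dat.dec Dat.ne

variable (d : ℕ) (S : Dat)

/-- positions which are far apart from each other -/
def Sep (n : ℕ) (β : S.Q n × Fin 16 → Gm d) : Prop :=
  ∀ p q g, FreeGroup.norm g ≤ n → g * β p = β q → p = q

/-- positions at all levels -/
abbrev Pos : Type := ∀ n, S.Q n × Fin 16 → Gm d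

/-- nodes of the tree -/
abbrev Nd : Type := Σ n : ℕ, (Fin n → Pos d S)

/-- branches with admissible positions -/
def Br : Type := {b : ℕ → Pos d S // ∀ n, Sep d S n (b n n)}

variable {d S}

/-- nodes on a branch -/
def node (b : Br d S) (n : ℕ) : Nd d S := ⟨n, fun m => b.1 m⟩

/-- position on a branch -/
def ps (b : Br d S) (n : ℕ) (p : S.Q n × Fin 16) : Gm d := b.1 n n p

variable (d S)

/-- points -/
abbrev Pnt : Type := Option (Nd d S) × Gm d

/-- the Hilbert space -/
abbrev Hil : Type := L2 (Pnt d S)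

variable {d S}

section lam

lemma orth_lam (g : Gm d) : Orthonormal ℂ (fun x : Pnt d S => (ket (x.1, g * x.2) : Hil d S)) :=
  ket_orthonormal.comp _ (fun x y h => by
    simp only [Prod.mk.injEq] at h
    exact Prod.ext h.1 (mul_left_cancel h.2))

/-- left translation -/
noncomputable def Lam (g : Gm d) : Hil d S →L[ℂ] Hil d S :=
  (iso (fun x : Pnt d S => ket (x.1, g * x.2)) (orth_lam g)).toContinuousLinearMap

lemma Lam_ket (g : Gm d) (s : Option (Nd d S)) (h : Gm d) : Lam g (ket (s, h) : Hil d S) = ket (s, g * h) := by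
  exact iso_ket _ (orth_lam g) (s, h)

lemma Lam_mul (g h : Gm d) : (Lam g * Lam h : Hil d S →L[ℂ] Hil d S) = Lam (g * h) := by
  apply ext_ket
  rintro ⟨s, k⟩
  rw [mul_apply_eq_comp, Lam_ket, Lam_ket, Lam_ket, mul_assoc]

lemma Lam_one : (Lam 1 : Hil d S →L[ℂ] Hil d S) = 1 := by
  apply ext_ket
  rintro ⟨s, k⟩
  rw [Lam_ket, one_mul]
  rfl

lemma star_Lam (g : Gm d) : star (Lam g : Hil d S →L[ℂ] Hil d S) = Lam g⁻¹ := by
  have h1 : star (Lam g : Hil d S →L[ℂ] Hil d S) * Lam g = 1 := by
    rw [ContinuousLinearMap.star_eq_adjoint]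
    exact (ContinuousLinearMap.isometry_iff_adjoint_comp_self _).mp
      (iso (fun x : Pnt d S => (ket (x.1, g * x.2) : Hil d S)) (orth_lam g)).isometry
  calc star (Lam g : Hil d S →L[ℂ] Hil d S) = star (Lam g) * (Lam g * Lam g⁻¹) := by
        rw [Lam_mul, mul_inv_cancel, Lam_one, mul_one]
    _ = _ := by rw [← mul_assoc, h1, one_mul]

end lam

section gg

/-- the rank one projection at the base point of a block -/
noncomputable def eP (σ : Nd d S) : Hil d S →L[ℂ] Hil d S :=
  (innerSL ℂ (ket (some σ, 1) : Hil d S)).smulRight (ket (some σ, 1))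

open Classical in
lemma eP_ket (σ : Nd d S) (x : Pnt d S) : eP σ (ket x) = if x = (some σ, 1) then ket x else 0 := by
  show ⟪(ket (some σ, 1) : Hil d S), ket x⟫_ℂ • (ket (some σ, 1) : Hil d S) = _
  rw [inner_ket_ket]
  by_cases h : x = (some σ, 1)
  · rw [if_pos h, if_pos h.symm, one_smul, h]
  · rw [if_neg h, if_neg (fun h' => h h'.symm), zero_smul]

/-- the rotated vectors -/
noncomputable def wv (b : Br d S) (z : Fin 16) (i : Σ n, S.Q n) : Hil d S :=
  ∑ q, S.O i.1 z q i.2 • ket (some (node b i.1), ps b i.1 (q, z))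

lemma ps_inj (b : Br d S) (n : ℕ) {p q : S.Q n × Fin 16} (h : ps b n p = ps b n q) : p = q :=
  b.2 n p q 1 (by simp) (by rw [one_mul]; exact h)

open Classical in
lemma inner_pt (b : Br d S) (z z' : Fin 16) (n m : ℕ) (q : S.Q n) (q' : S.Q m) :
    ⟪(ket (some (node b n), ps b n (q, z)) : Hil d S), ket (some (node b m), ps b m (q', z'))⟫_ℂ =
      if z = z' ∧ (⟨n, q⟩ : Σ n, S.Q n) = ⟨m, q'⟩ then 1 else 0 := by
  rw [inner_ket_ket]
  congr 1
  rw [eq_iff_iff]
  constructor
  · intro h
    rw [Prod.mk.injEq, Option.some.injEq] at h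
    obtain ⟨h1, h2⟩ := h
    have h3 : n = m := congrArg Sigma.fst h1
    subst h3
    have h4 := ps_inj b n h2
    rw [Prod.mk.injEq] at h4
    exact ⟨h4.2, by rw [h4.1]⟩
  · rintro ⟨h1, h2⟩
    subst h1
    cases h2
    rfl

open Classical in
lemma inner_wv (b : Br d S) (z z' : Fin 16) (i j : Σ n, S.Q n) :
    ⟪wv b z i, wv b z' j⟫_ℂ = if z = z' ∧ i = j then 1 else 0 := by
  obtain ⟨n, q⟩ := i
  obtain ⟨m, q'⟩ := j
  rw [wv, wv, sum_inner]
  simp only [inner_sum, inner_smul_left, inner_smul_right, inner_pt]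
  by_cases hz : z = z'
  · subst hz
    by_cases hnm : n = m
    · subst hnm
      have h1 : ∀ x y : S.Q n, (if z = z ∧ (⟨n, x⟩ : Σ n, S.Q n) = ⟨n, y⟩ then (1 : ℂ) else 0) =
          if x = y then 1 else 0 := by
        intro x y
        congr 1
        simp
      have h5 : (if z = z ∧ (⟨n, q⟩ : Σ n, S.Q n) = ⟨n, q'⟩ then (1 : ℂ) else 0) =
          if q = q' then 1 else 0 := by
        congr 1
        simp
      rw [h5, ← S.O_sq n z q q']
      refine Finset.sum_congr rfl fun x _ => ?_
      rw [Finset.sum_eq_single x]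
      · rw [h1, if_pos rfl, S.O_star]; ring
      · intro y _ hy
        rw [h1, if_neg (fun h => hy h.symm)]; ring
      · simp
    · rw [if_neg]
      · refine Finset.sum_eq_zero fun x _ => Finset.sum_eq_zero fun y _ => ?_
        rw [if_neg]
        · ring
        · rintro ⟨_, h⟩
          exact hnm (congrArg Sigma.fst h)
      · rintro ⟨_, h⟩
        exact hnm (congrArg Sigma.fst h)
  · rw [if_neg (fun h => hz h.1)]
    refine Finset.sum_eq_zero fun x _ => Finset.sum_eq_zero fun y _ => ?_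
    rw [if_neg (fun h => hz h.1)]
    ring

lemma orth_wv (b : Br d S) (z : Fin 16) : Orthonormal ℂ (wv b z) := by
  classical
  rw [orthonormal_iff_ite]
  intro i j
  rw [inner_wv]
  simp

/-- the isometry of a slot -/
noncomputable def Wb (b : Br d S) (z : Fin 16) : L2 (Σ n, S.Q n) →L[ℂ] Hil d S :=
  (iso (wv b z) (orth_wv b z)).toContinuousLinearMap

lemma Wb_ket (b : Br d S) (z : Fin 16) (i : Σ n, S.Q n) : Wb b z (ket i) = wv b z i :=
  iso_ket _ (orth_wv b z) i

/-- the partial isometries exchanging slots -/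
noncomputable def GG (b : Br d S) (z z' : Fin 16) : Hil d S →L[ℂ] Hil d S :=
  Wb b z ∘L ContinuousLinearMap.adjoint (Wb b z')

lemma star_GG (b : Br d S) (z z' : Fin 16) : star (GG b z z') = GG b z' z := by
  rw [ContinuousLinearMap.star_eq_adjoint, GG, GG, ContinuousLinearMap.adjoint_comp,
    ContinuousLinearMap.adjoint_adjoint]

lemma GG_wv (b : Br d S) (z z' : Fin 16) (i : Σ n, S.Q n) : GG b z z' (wv b z' i) = wv b z i := by
  have h1 : ContinuousLinearMap.adjoint (Wb b z') (wv b z' i) = ket i := by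
    rw [← Wb_ket, ← ContinuousLinearMap.comp_apply]
    have := (ContinuousLinearMap.isometry_iff_adjoint_comp_self (Wb b z')).mp
      (iso (wv b z') (orth_wv b z')).isometry
    rw [this]
    rfl
  rw [GG, ContinuousLinearMap.comp_apply, h1, Wb_ket]

/-- vectors orthogonal to a slot are killed -/
lemma GG_zero (b : Br d S) (z z' : Fin 16) (v : Hil d S) (hv : ∀ i, ⟪wv b z' i, v⟫_ℂ = 0) :
    GG b z z' v = 0 := by
  have h1 : ContinuousLinearMap.adjoint (Wb b z') v = 0 := by
    apply lp.ext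
    funext i
    rw [← inner_ket, ContinuousLinearMap.adjoint_inner_right, Wb_ket, hv]
    rfl
  rw [GG, ContinuousLinearMap.comp_apply, h1, map_zero]

/-- basis vectors which are not positions are killed -/
lemma GG_ket_zero (b : Br d S) (z z' : Fin 16) (x : Pnt d S)
    (hx : ∀ n q, x ≠ (some (node b n), ps b n (q, z'))) : GG b z z' (ket x) = 0 := by
  classical
  apply GG_zero
  intro i
  rw [wv, sum_inner]
  refine Finset.sum_eq_zero fun q _ => ?_
  rw [inner_smul_left, inner_ket_ket, if_neg, mul_zero]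
  exact fun h => hx _ _ h.symm

/-- expansion of the basis vectors at positions -/
lemma ket_eq (b : Br d S) (n : ℕ) (q : S.Q n) (z : Fin 16) :
    (ket (some (node b n), ps b n (q, z)) : Hil d S) = ∑ q', S.O n z q' q • wv b z ⟨n, q'⟩ := by
  have hw : ∀ q', wv b z ⟨n, q'⟩ = ∑ x : S.Q n, S.O n z x q' • (ket (some (node b n), ps b n (x, z)) : Hil d S) :=
    fun _ => rfl
  simp only [hw]
  simp only [Finset.smul_sum, smul_smul]
  rw [Finset.sum_comm]
  have h1 : ∀ y, ∑ x, (S.O n z x q * S.O n z y x) • (ket (some (node b n), ps b n (y, z)) : Hil d S) =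
      (if y = q then (1 : ℂ) else 0) • ket (some (node b n), ps b n (y, z)) := by
    intro y
    rw [← Finset.sum_smul]
    congr 1
    rw [← S.O_sq n z y q]
    refine Finset.sum_congr rfl fun x _ => mul_comm _ _
  simp only [h1, ite_smul, one_smul, zero_smul, Finset.sum_ite_eq', Finset.mem_univ, if_true]

end gg

variable (d S)

/-- the generators -/
def gens : Set (Hil d S →L[ℂ] Hil d S) :=
  {T | (∃ i : Fin d, T = Lam (FreeGroup.of i) ∨ T = Lam (FreeGroup.of i)⁻¹) ∨ (∃ σ, T = eP σ) ∨
    ∃ b z z', T = GG b z z'}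

lemma star_eP (σ : Nd d S) : star (eP σ) = eP σ := by
  classical
  apply ext_ket
  intro x
  apply lp.ext
  funext y
  rw [← inner_ket, ← inner_ket, ContinuousLinearMap.star_eq_adjoint, ContinuousLinearMap.adjoint_inner_right,
    eP_ket, eP_ket]
  by_cases h1 : x = (some σ, 1) <;> by_cases h2 : y = (some σ, 1)
  · rw [if_pos h1, if_pos h2]
  · rw [if_pos h1, if_neg h2, inner_zero_left, inner_ket_ket, if_neg]
    rw [h1]; exact h2
  · rw [if_neg h1, if_pos h2, inner_zero_right, inner_ket_ket, if_neg]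
    rw [h2]; exact fun h => h1 h.symm
  · rw [if_neg h1, if_neg h2, inner_zero_left, inner_zero_right]

lemma star_gens {T : Hil d S →L[ℂ] Hil d S} (hT : T ∈ gens d S) : star T ∈ gens d S := by
  rcases hT with ⟨i, rfl | rfl⟩ | ⟨σ, rfl⟩ | ⟨b, z, z', rfl⟩
  · exact Or.inl ⟨i, Or.inr (star_Lam _)⟩
  · refine Or.inl ⟨i, Or.inl ?_⟩
    rw [star_Lam, inv_inv]
  · exact Or.inr (Or.inl ⟨σ, star_eP d S σ⟩)
  · exact Or.inr (Or.inr ⟨b, z', z, star_GG _ _ _⟩)

/-- the C*-algebra -/
noncomputable def EA : NonUnitalStarSubalgebra ℂ (Hil d S →L[ℂ] Hil d S) :=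
  (NonUnitalStarAlgebra.adjoin ℂ (gens d S)).topologicalClosure

end Pool.Agent.Helper234.Exact
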