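import Pool.Agent.Helper234.Exact.Y1
import Pool.Agent.Helper234.Nuc.O

set_option autoImplicit false
open scoped ComplexOrder ENNReal InnerProductSpace

namespace Pool.Agent.Helper234.Exact

open Pool.Agent.Helper234.Nuc (CX sg sg_sg)

/-- half of an indicator -/
noncomputable def hf (P : Prop) [Decidable P] : ℂ := if P then 1/2 else 0

/-- the rotation attached to an involution -/
noncomputable def rot (n : ℕ) (z : Fin 16) (q q' : CX n × Bool) : ℂ :=
  if q.2 = q'.2 then hf (q.1 = q'.1) + hf (q.1 = sg n z q'.1) else hf (q.1 = q'.1) - hf (q.1 = sg n z q'.1)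

lemma sg_eq_iff (n : ℕ) (z : Fin 16) (x y : CX n) : x = sg n z y ↔ y = sg n z x := by
  constructor
  · rintro rfl; rw [sg_sg]
  · rintro rfl; rw [sg_sg]

lemma hf_congr {P Q : Prop} [Decidable P] [Decidable Q] (h : P ↔ Q) : hf P = hf Q := by
  unfold hf
  by_cases hP : P
  · rw [if_pos hP, if_pos (h.mp hP)]
  · rw [if_neg hP, if_neg (fun hQ => hP (h.mpr hQ))]

lemma rot_symm (n : ℕ) (z : Fin 16) (q q' : CX n × Bool) : rot n z q q' = rot n z q' q := by
  unfold rot
  rw [hf_congr (eq_comm (a := q.1) (b := q'.1)), hf_congr (sg_eq_iff n z q.1 q'.1)]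
  by_cases h : q.2 = q'.2
  · rw [if_pos h, if_pos h.symm]
  · rw [if_neg h, if_neg (fun h' => h h'.symm)]

lemma conj_hf (P : Prop) [Decidable P] : (starRingEnd ℂ) (hf P) = hf P := by
  unfold hf
  split_ifs
  · rw [show (1/2 : ℂ) = ((1/2 : ℝ) : ℂ) by norm_num, Complex.conj_ofReal]
  · simp

lemma conj_rot (n : ℕ) (z : Fin 16) (q q' : CX n × Bool) : (starRingEnd ℂ) (rot n z q q') = rot n z q' q := by
  rw [← rot_symm]
  unfold rot
  split_ifs
  · rw [map_add, conj_hf, conj_hf]
  · rw [map_sub, conj_hf, conj_hf]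

lemma sum_hf_mul {n : ℕ} (a b : CX n) : ∑ y, hf (a = y) * hf (y = b) = (1/2) * hf (a = b) := by
  rw [Finset.sum_eq_single a]
  · unfold hf; rw [if_pos rfl]
  · intro y _ hy
    unfold hf
    rw [if_neg (fun h => hy h.symm), zero_mul]
  · simp

lemma rot_sq (n : ℕ) (z : Fin 16) (q q' : CX n × Bool) :
    ∑ x, rot n z q x * rot n z x q' = if q = q' then 1 else 0 := by
  obtain ⟨a, s⟩ := q
  obtain ⟨b, t⟩ := q'
  rw [Fintype.sum_prod_type, Finset.sum_comm]
  have h1 : ∀ c d' : CX n, ∑ y, hf (c = y) * hf (y = d') = (1/2) * hf (c = d') := sum_hf_mul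
  -- the four elementary sums
  have e11 : ∑ y, hf (a = y) * hf (y = b) = (1/2) * hf (a = b) := h1 _ _
  have e12 : ∑ y, hf (a = y) * hf (y = sg n z b) = (1/2) * hf (a = sg n z b) := h1 _ _
  have e21 : ∑ y, hf (a = sg n z y) * hf (y = b) = (1/2) * hf (a = sg n z b) := by
    have : ∀ y, hf (a = sg n z y) = hf (sg n z a = y) := fun y => hf_congr (by rw [sg_eq_iff, eq_comm])
    simp only [this]
    rw [h1, hf_congr (show sg n z a = b ↔ a = sg n z b from by rw [sg_eq_iff n z a b, eq_comm])]
  have e22 : ∑ y, hf (a = sg n z y) * hf (y = sg n z b) = (1/2) * hf (a = b) := by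
    have : ∀ y, hf (a = sg n z y) = hf (sg n z a = y) := fun y => hf_congr (by rw [sg_eq_iff, eq_comm])
    simp only [this]
    rw [h1, hf_congr (show sg n z a = sg n z b ↔ a = b from ⟨fun h => (sg n z).injective h, fun h => by rw [h]⟩)]
  have key : ∀ u v : ℂ, ∑ y, (hf (a = y) + u * hf (a = sg n z y)) * (hf (y = b) + v * hf (y = sg n z b)) =
      (1/2) * ((1 + u * v) * hf (a = b) + (u + v) * hf (a = sg n z b)) := by
    intro u v
    have e0 : ∀ y, (hf (a = y) + u * hf (a = sg n z y)) * (hf (y = b) + v * hf (y = sg n z b)) =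
        hf (a = y) * hf (y = b) + v * (hf (a = y) * hf (y = sg n z b)) +
        u * (hf (a = sg n z y) * hf (y = b)) + u * v * (hf (a = sg n z y) * hf (y = sg n z b)) := by
      intro y; ring
    simp only [e0, Finset.sum_add_distrib, ← Finset.mul_sum]
    rw [e11, e12, e21, e22]
    ring
  have hs : ∀ c : Bool, ∑ y, rot n z (a, s) (y, c) * rot n z (y, c) (b, t) =
      (1/2) * ((1 + (if s = c then (1:ℂ) else -1) * (if c = t then (1:ℂ) else -1)) * hf (a = b) +
        ((if s = c then (1:ℂ) else -1) + (if c = t then (1:ℂ) else -1)) * hf (a = sg n z b)) := by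
    intro c
    rw [← key]
    refine Finset.sum_congr rfl fun y _ => ?_
    unfold rot
    simp only
    split_ifs <;> ring
  simp only [hs, Fintype.sum_bool, Prod.mk.injEq]
  unfold hf
  by_cases hab : a = b
  · cases s <;> cases t <;> simp [hab]
    all_goals (split_ifs <;> norm_num)
  · cases s <;> cases t <;> simp [hab]
    all_goals (split_ifs <;> norm_num)

/-- the data used for the example -/
noncomputable def S0 : Dat where
  Q n := CX n × Bool
  fin n := inferInstance
  dec n := inferInstance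
  ne n := inferInstance
  O := rot
  O_star := conj_rot
  O_sq := rot_sq

end Pool.Agent.Helper234.Exact
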