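import Pool.Agent.Helper234.Exact.Y2

set_option autoImplicit false
open scoped ComplexOrder ENNReal InnerProductSpace

namespace Pool.Agent.Helper234.Exact

section sep

variable {d : ℕ}

lemma ball_finite (n : ℕ) : {g : Gm d | FreeGroup.norm g ≤ n}.Finite := by
  have h1 : {l : List (Fin d × Bool) | l.length ≤ n}.Finite := List.finite_length_le _ n
  refine (h1.image FreeGroup.mk).subset ?_
  intro g hg
  exact ⟨g.toWord, hg, FreeGroup.mk_toWord⟩

/-- greedy choice of positions -/
lemma exists_sep {ι : Type} [Finite ι] (A : ι → Set (Gm d)) (hA : ∀ i, (A i).Infinite) (n : ℕ) :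
    ∃ β : ι → Gm d, (∀ i, β i ∈ A i) ∧ ∀ p q g, FreeGroup.norm g ≤ n → g * β p = β q → p = q := by
  classical
  haveI := Fintype.ofFinite ι
  have key : ∀ s : Finset ι, ∃ β : ι → Gm d, (∀ i ∈ s, β i ∈ A i) ∧
      ∀ p ∈ s, ∀ q ∈ s, ∀ g, FreeGroup.norm g ≤ n → g * β p = β q → p = q := by
    intro s
    induction s using Finset.induction_on with
    | empty => exact ⟨fun _ => 1, by simp, by simp⟩
    | insert a s ha ih =>
      obtain ⟨β, h1, h2⟩ := ih
      let bad : Set (Gm d) := Set.image2 (fun g q => g * β q) {g | FreeGroup.norm g ≤ n} (s : Set ι)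
      have hbad : bad.Finite := (ball_finite n).image2 _ (Finset.finite_toSet s)
      obtain ⟨x, hx, hxb⟩ := (hA a).exists_notMem_finite hbad
      refine ⟨Function.update β a x, ?_, ?_⟩
      · intro i hi
        by_cases hia : i = a
        · subst hia; rw [Function.update_self]; exact hx
        · rw [Function.update_of_ne hia]
          exact h1 i ((Finset.mem_insert.mp hi).resolve_left hia)
      · intro p hp q hq g hg he
        by_cases hpa : p = a
        · by_cases hqa : q = a
          · rw [hpa, hqa]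
          · exfalso
            subst hpa
            rw [Function.update_self, Function.update_of_ne hqa] at he
            refine hxb ⟨g⁻¹, ?_, q, (Finset.mem_insert.mp hq).resolve_left hqa, ?_⟩
            · show FreeGroup.norm g⁻¹ ≤ n
              rw [FreeGroup.norm_inv_eq]; exact hg
            · show g⁻¹ * β q = x
              rw [← he, inv_mul_cancel_left]
        · by_cases hqa : q = a
          · exfalso
            subst hqa
            rw [Function.update_self, Function.update_of_ne hpa] at he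
            exact hxb ⟨g, hg, p, (Finset.mem_insert.mp hp).resolve_left hpa, he⟩
          · rw [Function.update_of_ne hpa, Function.update_of_ne hqa] at he
            exact h2 p ((Finset.mem_insert.mp hp).resolve_left hpa) q
              ((Finset.mem_insert.mp hq).resolve_left hqa) g hg he
  obtain ⟨β, h1, h2⟩ := key Finset.univ
  exact ⟨β, fun i => h1 i (Finset.mem_univ i), fun p q g hg he => h2 p (Finset.mem_univ p) q (Finset.mem_univ q) g hg he⟩

end sep

section ro

variable {H : Type} [NormedAddCommGroup H] [InnerProductSpace ℂ H] [CompleteSpace H]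

/-- rank one operators -/
noncomputable def ro (v w : H) : H →L[ℂ] H := (innerSL ℂ w).smulRight v

omit [CompleteSpace H] in
lemma ro_apply (v w x : H) : ro v w x = ⟪w, x⟫_ℂ • v := rfl

lemma mul_ro (T : H →L[ℂ] H) (v w : H) : T * ro v w = ro (T v) w := by
  ext x
  rw [mul_apply_eq_comp, ro_apply, ro_apply, map_smul]

lemma ro_mul_ro (v w v' w' : H) : ro v w * ro v' w' = ⟪w, v'⟫_ℂ • ro v w' := by
  rw [mul_ro]
  ext x
  rw [ro_apply, ro_apply, smul_comm]
  rfl

lemma star_ro (v w : H) : star (ro v w) = ro w v := by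
  rw [ContinuousLinearMap.star_eq_adjoint]
  apply ContinuousLinearMap.ext
  intro x
  apply ext_inner_left ℂ
  intro y
  rw [ContinuousLinearMap.adjoint_inner_right, ro_apply, ro_apply, inner_smul_left, inner_smul_right,
    inner_conj_symm, mul_comm]

lemma ro_add (v v' w : H) : ro (v + v') w = ro v w + ro v' w := by
  ext x
  rw [add_apply, ro_apply, ro_apply, ro_apply, smul_add]

lemma ro_smul (c : ℂ) (v w : H) : ro (c • v) w = c • ro v w := by
  ext x
  rw [ro_apply, smul_comm]
  rfl

lemma ro_zero (w : H) : ro 0 w = 0 := by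
  ext x
  rw [ro_apply, smul_zero]
  rfl

/-- rank one operators with a fixed second vector, as a linear map -/
noncomputable def roL (w : H) : H →ₗ[ℂ] (H →L[ℂ] H) where
  toFun v := ro v w
  map_add' v v' := ro_add v v' w
  map_smul' c v := ro_smul c v w

end ro

section mem

variable {d : ℕ} {S : Dat}

/-- base vector of a block -/
noncomputable def bv (σ : Nd d S) : Hil d S := ket (some σ, 1)

lemma gens_sub {T : Hil d S →L[ℂ] Hil d S} (hT : T ∈ gens d S) : T ∈ EA d S :=
  NonUnitalStarSubalgebra.le_topologicalClosure _ (NonUnitalStarAlgebra.subset_adjoin ℂ _ hT)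

lemma Lam_mem (g : Gm d) (hd : 0 < d) : (Lam g : Hil d S →L[ℂ] Hil d S) ∈ EA d S := by
  have h1 : ∀ i : Fin d, (Lam (FreeGroup.of i) : Hil d S →L[ℂ] Hil d S) ∈ EA d S :=
    fun i => gens_sub (Or.inl ⟨i, Or.inl rfl⟩)
  have h2 : ∀ i : Fin d, (Lam (FreeGroup.of i)⁻¹ : Hil d S →L[ℂ] Hil d S) ∈ EA d S :=
    fun i => gens_sub (Or.inl ⟨i, Or.inr rfl⟩)
  induction g using FreeGroup.induction_on with
  | C1 =>
    have := mul_mem (h1 ⟨0, hd⟩) (h2 ⟨0, hd⟩)
    rwa [Lam_mul, mul_inv_cancel] at this
  | of i => exact h1 i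
  | inv_of i _ => exact h2 i
  | mul x y hx hy =>
    have := mul_mem hx hy
    rwa [Lam_mul] at this

lemma eP_eq (σ : Nd d S) : eP σ = ro (bv σ) (bv σ) := rfl

lemma eP_mem (σ : Nd d S) : (eP σ : Hil d S →L[ℂ] Hil d S) ∈ EA d S := gens_sub (Or.inr (Or.inl ⟨σ, rfl⟩))

lemma GG_mem (b : Br d S) (z z' : Fin 16) : (GG b z z' : Hil d S →L[ℂ] Hil d S) ∈ EA d S :=
  gens_sub (Or.inr (Or.inr ⟨b, z, z', rfl⟩))

variable (d S) in
/-- the algebra as a type -/
def EE : Type := ↥(EA d S)

instance EA_closed : IsClosed (EA d S : Set (Hil d S →L[ℂ] Hil d S)) :=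
  NonUnitalStarSubalgebra.isClosed_topologicalClosure _

noncomputable instance : NonUnitalCStarAlgebra (EE d S) :=
  inferInstanceAs (NonUnitalCStarAlgebra ↥(EA d S))

variable (d S) in
/-- the inclusion -/
noncomputable def toB : EE d S →⋆ₙₐ[ℂ] (Hil d S →L[ℂ] Hil d S) :=
  NonUnitalStarSubalgebraClass.subtype (EA d S)

lemma toB_inj : Function.Injective (toB d S) := Subtype.val_injective

/-- constructor -/
def mkE (x : Hil d S →L[ℂ] Hil d S) (hx : x ∈ EA d S) : EE d S := ⟨x, hx⟩

lemma toB_mkE (x : Hil d S →L[ℂ] Hil d S) (hx : x ∈ EA d S) : toB d S (mkE x hx) = x := rfl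

lemma norm_toB (a : EE d S) : ‖toB d S a‖ = ‖a‖ := rfl

/-- vectors reachable from the base vector of a block -/
noncomputable def Vec (σ : Nd d S) : Submodule ℂ (Hil d S) :=
  (EA d S).toNonUnitalSubalgebra.toSubmodule.comap (roL (bv σ))

lemma mem_Vec (σ : Nd d S) (v : Hil d S) : v ∈ Vec σ ↔ ro v (bv σ) ∈ EA d S := Iff.rfl

lemma ket_mem (hd : 0 < d) (σ : Nd d S) (h : Gm d) : (ket (some σ, h) : Hil d S) ∈ Vec σ := by
  rw [mem_Vec]
  have h1 := mul_mem (Lam_mem (S := S) h hd) (eP_mem σ)
  rw [eP_eq, mul_ro, bv, Lam_ket, mul_one] at h1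
  exact h1

lemma wv_mem (hd : 0 < d) (b : Br d S) (z : Fin 16) (n : ℕ) (q : S.Q n) : wv b z ⟨n, q⟩ ∈ Vec (node b n) := by
  rw [wv]
  refine Submodule.sum_mem _ fun x _ => Submodule.smul_mem _ _ (ket_mem hd _ _)

end mem

end Pool.Agent.Helper234.Exact
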