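import Pool.Agent.Helper234.Exact.Y1

set_option autoImplicit false
open scoped ComplexOrder ENNReal InnerProductSpace

namespace Pool.Agent.Helper234.Exact

variable {d : ℕ} {S : Dat}

open scoped Matrix.Norms.L2Operator


section opineq

variable {d : ℕ} {S : Dat}

lemma hw_iff (i : Fin d) (h : Gm d) :
    (FreeGroup.of i * h).toWord.head? = some (i, true) ↔ h.toWord.head? ≠ some (i, false) := by
  rw [FreeGroup.toWord_mul, FreeGroup.toWord_of, List.singleton_append, FreeGroup.reduce.cons,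
    FreeGroup.reduce_toWord]
  rcases hw : h.toWord with _ | ⟨⟨j, b⟩, tl⟩
  · simp
  · by_cases hc : i = j ∧ true = !b
    · obtain ⟨rfl, hb⟩ := hc
      have hb' : b = false := by simpa using hb.symm
      subst hb'
      simp only [Bool.not_false, and_self, if_true, List.head?_cons, ne_eq, not_true_eq_false,
        iff_false]
      intro h1
      rcases tl with _ | ⟨y, tl'⟩
      · simp at h1
      · simp only [List.head?_cons, Option.some.injEq] at h1
        subst h1
        have h2 := FreeGroup.reduce_toWord h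
        rw [hw] at h2
        exact FreeGroup.reduce.not (L₂ := []) (L₃ := tl') (x := i) (b := false) h2
    · simp only [if_neg hc, List.head?_cons, true_iff, ne_eq, Option.some.injEq, Prod.mk.injEq]
      intro h1
      apply hc
      exact ⟨h1.1.symm, by rw [h1.2]; rfl⟩

lemma orth_sub (C : Set (Pnt d S)) : Orthonormal ℂ (fun x : C => (ket x.1 : Hil d S)) :=
  ket_orthonormal.comp _ Subtype.val_injective

/-- the isometry onto the span of the kets in `C` -/
noncomputable def VC (C : Set (Pnt d S)) : L2 C →L[ℂ] Hil d S :=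
  (iso (fun x : C => (ket x.1 : Hil d S)) (orth_sub C)).toContinuousLinearMap

lemma VC_ket (C : Set (Pnt d S)) (x : C) : VC C (ket x) = ket x.1 := iso_ket _ (orth_sub C) x

/-- the projection onto the span of the kets in `C` -/
noncomputable def PP (C : Set (Pnt d S)) : Hil d S →L[ℂ] Hil d S :=
  VC C ∘L ContinuousLinearMap.adjoint (VC C)

lemma PP_ket_mem (C : Set (Pnt d S)) (x : Pnt d S) (hx : x ∈ C) :
    PP C (ket x) = (ket x : Hil d S) := by
  have h1 : ContinuousLinearMap.adjoint (VC C) (ket x) = ket (⟨x, hx⟩ : C) := by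
    rw [← VC_ket C ⟨x, hx⟩, ← ContinuousLinearMap.comp_apply]
    have := (ContinuousLinearMap.isometry_iff_adjoint_comp_self (VC C)).mp
      (iso _ (orth_sub C)).isometry
    rw [this]
    rfl
  rw [PP, ContinuousLinearMap.comp_apply, h1, VC_ket]

lemma PP_ket_notMem (C : Set (Pnt d S)) (x : Pnt d S) (hx : x ∉ C) :
    PP C (ket x) = (0 : Hil d S) := by
  classical
  have h1 : ContinuousLinearMap.adjoint (VC C) (ket x) = 0 := by
    apply lp.ext
    funext i
    rw [← inner_ket, ContinuousLinearMap.adjoint_inner_right, VC_ket, inner_ket_ket, if_neg]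
    · rfl
    · intro h
      exact hx (h ▸ i.2)
  rw [PP, ContinuousLinearMap.comp_apply, h1, map_zero]

lemma star_PP (C : Set (Pnt d S)) : star (PP C) = PP C := by
  rw [ContinuousLinearMap.star_eq_adjoint, PP, ContinuousLinearMap.adjoint_comp,
    ContinuousLinearMap.adjoint_adjoint]

lemma PP_mul_PP (C C' : Set (Pnt d S)) (h : Disjoint C C') : PP C * PP C' = 0 := by
  apply ext_ket
  intro x
  rw [mul_apply_eq_comp]
  by_cases hx : x ∈ C'
  · rw [PP_ket_mem C' x hx, PP_ket_notMem C x (fun h' => Set.disjoint_left.1 h h' hx)]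
    rfl
  · rw [PP_ket_notMem C' x hx, map_zero]
    rfl

lemma norm_VC (C : Set (Pnt d S)) : ‖VC C‖ ≤ 1 :=
  LinearIsometry.norm_toContinuousLinearMap_le _

lemma norm_PP (C : Set (Pnt d S)) : ‖PP C‖ ≤ 1 := by
  refine (ContinuousLinearMap.opNorm_comp_le _ _).trans ?_
  rw [LinearIsometryEquiv.norm_map]
  have := norm_VC C
  have h0 := norm_nonneg (VC C)
  nlinarith

lemma norm_star' (T : Hil d S →L[ℂ] Hil d S) : ‖star T‖ = ‖T‖ := by
  rw [ContinuousLinearMap.star_eq_adjoint, LinearIsometryEquiv.norm_map]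

lemma norm_Lam (g : Gm d) : ‖(Lam g : Hil d S →L[ℂ] Hil d S)‖ ≤ 1 :=
  LinearIsometry.norm_toContinuousLinearMap_le _

/-- points whose word starts with `(i, b)` -/
def SW (i : Fin d) (b : Bool) : Set (Pnt d S) := {x | x.2.toWord.head? = some (i, b)}

lemma SW_disj (i j : Fin d) (b : Bool) (h : i ≠ j) :
    Disjoint (SW i b : Set (Pnt d S)) (SW j b) := by
  rw [Set.disjoint_left]
  intro x h1 h2
  have h3 : some (i, b) = some (j, b) := h1.symm.trans h2
  simp only [Option.some.injEq, Prod.mk.injEq, and_true] at h3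
  exact h h3

lemma Lam_split (i : Fin d) : (Lam (FreeGroup.of i) : Hil d S →L[ℂ] Hil d S) =
    PP (SW i true) * Lam (FreeGroup.of i) + Lam (FreeGroup.of i) * PP (SW i false) := by
  apply ext_ket
  rintro ⟨s, h⟩
  rw [add_apply, mul_apply_eq_comp, mul_apply_eq_comp, Lam_ket]
  by_cases hx : ((s, h) : Pnt d S) ∈ (SW i false : Set (Pnt d S))
  · rw [PP_ket_mem _ _ hx, Lam_ket, PP_ket_notMem, zero_add]
    intro h1
    exact (hw_iff i h).1 h1 hx
  · rw [PP_ket_notMem _ _ hx, map_zero, add_zero, PP_ket_mem]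
    exact (hw_iff i h).2 hx

/-- the C*-algebra of matrices -/
abbrev MM (d : ℕ) (S : Dat) (N : ℕ) : Type := CStarMatrix (Fin N) (Fin N) (Hil d S →L[ℂ] Hil d S)

/-- elementary tensors -/
noncomputable def tens {N : ℕ} (b : Hil d S →L[ℂ] Hil d S) (W : Matrix (Fin N) (Fin N) ℂ) :
    MM d S N := CStarMatrix.ofMatrix (Matrix.of fun a c => W a c • b)

lemma tens_apply {N : ℕ} (b : Hil d S →L[ℂ] Hil d S) (W : Matrix (Fin N) (Fin N) ℂ)
    (a c : Fin N) : tens b W a c = W a c • b := rfl

lemma tens_mul {N : ℕ} (b b' : Hil d S →L[ℂ] Hil d S) (W W' : Matrix (Fin N) (Fin N) ℂ) :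
    tens b W * tens b' W' = tens (b * b') (W * W') := by
  apply CStarMatrix.ext
  intro a c
  rw [CStarMatrix.mul_apply, tens_apply, Matrix.mul_apply, Finset.sum_smul]
  refine Finset.sum_congr rfl fun k _ => ?_
  rw [tens_apply, tens_apply, smul_mul_smul_comm]

lemma tens_star {N : ℕ} (b : Hil d S →L[ℂ] Hil d S) (W : Matrix (Fin N) (Fin N) ℂ) :
    star (tens b W) = tens (star b) (star W) := by
  apply CStarMatrix.ext
  intro a c
  rw [CStarMatrix.star_apply, tens_apply, tens_apply, star_smul, Matrix.star_apply]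

lemma tens_add_left {N : ℕ} (b b' : Hil d S →L[ℂ] Hil d S) (W : Matrix (Fin N) (Fin N) ℂ) :
    tens (b + b') W = tens b W + tens b' W := by
  apply CStarMatrix.ext
  intro a c
  rw [CStarMatrix.add_apply, tens_apply, tens_apply, tens_apply, smul_add]

lemma tens_zero_left {N : ℕ} (W : Matrix (Fin N) (Fin N) ℂ) :
    tens (0 : Hil d S →L[ℂ] Hil d S) W = 0 := by
  apply CStarMatrix.ext
  intro a c
  rw [CStarMatrix.zero_apply, tens_apply, smul_zero]

/-- `b ↦ b ⊗ 1` -/
noncomputable def hom1 (N : ℕ) : (Hil d S →L[ℂ] Hil d S) →⋆ₙₐ[ℂ] MM d S N where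
  toFun b := tens b 1
  map_smul' c b := by
    apply CStarMatrix.ext
    intro i j
    show (1 : Matrix (Fin N) (Fin N) ℂ) i j • (c • b) = c • ((1 : Matrix (Fin N) (Fin N) ℂ) i j • b)
    rw [smul_comm]
  map_zero' := tens_zero_left _
  map_add' b b' := tens_add_left _ _ _
  map_mul' b b' := by rw [tens_mul, mul_one]
  map_star' b := by rw [tens_star, star_one]

/-- `W ↦ 1 ⊗ W` -/
noncomputable def hom2 (N : ℕ) : Matrix (Fin N) (Fin N) ℂ →⋆ₙₐ[ℂ] MM d S N where
  toFun W := tens 1 W
  map_smul' c W := by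
    apply CStarMatrix.ext
    intro i j
    show (c • W i j) • (1 : Hil d S →L[ℂ] Hil d S) = c • (W i j • (1 : Hil d S →L[ℂ] Hil d S))
    rw [smul_assoc]
  map_zero' := by
    apply CStarMatrix.ext
    intro i j
    show (0 : ℂ) • (1 : Hil d S →L[ℂ] Hil d S) = 0
    rw [zero_smul]
  map_add' W W' := by
    apply CStarMatrix.ext
    intro i j
    show (W i j + W' i j) • (1 : Hil d S →L[ℂ] Hil d S) = W i j • (1 : Hil d S →L[ℂ] Hil d S) +
      W' i j • (1 : Hil d S →L[ℂ] Hil d S)
    rw [add_smul]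
  map_mul' W W' := by rw [tens_mul, mul_one]
  map_star' W := by rw [tens_star, star_one]

lemma norm_tens {N : ℕ} (b : Hil d S →L[ℂ] Hil d S) (W : Matrix (Fin N) (Fin N) ℂ) :
    ‖tens b W‖ ≤ ‖b‖ * ‖W‖ := by
  have h1 : tens b W = hom1 N b * hom2 N W := by
    show tens b W = tens b 1 * tens 1 W
    rw [tens_mul, mul_one, one_mul]
  rw [h1]
  refine (norm_mul_le _ _).trans ?_
  exact mul_le_mul (NonUnitalStarAlgHom.norm_apply_le _ _) (NonUnitalStarAlgHom.norm_apply_le _ _)
    (norm_nonneg _) (norm_nonneg _)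

lemma norm_sum_tens {N : ℕ} (b : Fin d → (Hil d S →L[ℂ] Hil d S))
    (W : Fin d → Matrix (Fin N) (Fin N) ℂ) (hb : ∀ i, ‖b i‖ ≤ 1) (hW : ∀ i, ‖W i‖ ≤ 1)
    (ho : ∀ i j, i ≠ j → star (b i) * b j = 0) : ‖∑ i, tens (b i) (W i)‖ ≤ Real.sqrt d := by
  have h1 : star (∑ i, tens (b i) (W i)) * ∑ i, tens (b i) (W i) =
      ∑ i, tens (star (b i) * b i) (star (W i) * W i) := by
    rw [star_sum, Finset.sum_mul]
    refine Finset.sum_congr rfl fun i _ => ?_
    rw [Finset.mul_sum, Finset.sum_eq_single i]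
    · rw [tens_star, tens_mul]
    · intro j _ hj
      rw [tens_star, tens_mul, ho i j (Ne.symm hj), tens_zero_left]
    · simp
  have h2 : ‖∑ i, tens (b i) (W i)‖ * ‖∑ i, tens (b i) (W i)‖ ≤ d := by
    rw [← CStarRing.norm_star_mul_self, h1]
    refine (norm_sum_le _ _).trans ?_
    have h3 : ∀ i, ‖tens (star (b i) * b i) (star (W i) * W i)‖ ≤ 1 := by
      intro i
      refine (norm_tens _ _).trans ?_
      have e0 : ‖star (b i) * b i‖ ≤ ‖b i‖ * ‖b i‖ := by
        refine (norm_mul_le _ _).trans ?_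
        rw [norm_star']
      rw [CStarRing.norm_star_mul_self]
      have hb' := hb i
      have hW' := hW i
      have b0 := norm_nonneg (b i)
      have w0 := norm_nonneg (W i)
      have e1 : ‖b i‖ * ‖b i‖ ≤ 1 := by nlinarith
      have e2 : ‖W i‖ * ‖W i‖ ≤ 1 := by nlinarith
      have e3 : 0 ≤ ‖W i‖ * ‖W i‖ := by positivity
      have e5 : ‖star (b i) * b i‖ ≤ 1 := e0.trans e1
      nlinarith [norm_nonneg (star (b i) * b i)]
    refine (Finset.sum_le_sum fun i _ => h3 i).trans ?_
    simp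
  exact Real.le_sqrt_of_sq_le (by rw [sq]; exact h2)

end opineq

/-- operator space inequality for free generators with matrix coefficients -/
theorem lam_ineq (N : ℕ) (W : Fin d → Matrix (Fin N) (Fin N) ℂ) (hW : ∀ i, ‖W i‖ ≤ 1) :
    ‖(CStarMatrix.ofMatrix (Matrix.of fun a b => ∑ i, W i a b • (Lam (FreeGroup.of i) : Hil d S →L[ℂ] Hil d S)) :
      CStarMatrix (Fin N) (Fin N) (Hil d S →L[ℂ] Hil d S))‖ ≤ 2 * Real.sqrt d := by
  have h1 : (CStarMatrix.ofMatrix (Matrix.of fun a b =>
      ∑ i, W i a b • (Lam (FreeGroup.of i) : Hil d S →L[ℂ] Hil d S)) : MM d S N) =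
      ∑ i, tens (PP (SW i true) * Lam (FreeGroup.of i)) (W i) +
      ∑ i, tens (Lam (FreeGroup.of i) * PP (SW i false)) (W i) := by
    rw [← Finset.sum_add_distrib]
    have h2 : ∀ i, tens (PP (SW i true) * Lam (FreeGroup.of i)) (W i) +
        tens (Lam (FreeGroup.of i) * PP (SW i false)) (W i) =
        tens (Lam (FreeGroup.of i) : Hil d S →L[ℂ] Hil d S) (W i) := by
      intro i
      rw [← tens_add_left, ← Lam_split]
    simp only [h2]
    have h3 : ∀ (s : Finset (Fin d)), (CStarMatrix.ofMatrix (Matrix.of fun a b =>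
        ∑ i ∈ s, W i a b • (Lam (FreeGroup.of i) : Hil d S →L[ℂ] Hil d S)) : MM d S N) =
        ∑ i ∈ s, tens (Lam (FreeGroup.of i) : Hil d S →L[ℂ] Hil d S) (W i) := by
      classical
      intro s
      induction s using Finset.induction_on with
      | empty =>
        apply CStarMatrix.ext
        intro a c
        show ∑ i ∈ (∅ : Finset (Fin d)), W i a c • (Lam (FreeGroup.of i) : Hil d S →L[ℂ] Hil d S) = _
        rw [Finset.sum_empty, Finset.sum_empty]
        rfl
      | insert j s hj ih =>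
        rw [Finset.sum_insert hj, ← ih]
        apply CStarMatrix.ext
        intro a c
        show ∑ i ∈ insert j s, W i a c • (Lam (FreeGroup.of i) : Hil d S →L[ℂ] Hil d S) = _
        rw [Finset.sum_insert hj]
        rfl
    exact h3 Finset.univ
  rw [h1]
  have h4 : ‖∑ i, tens (PP (SW i true) * Lam (FreeGroup.of i) : Hil d S →L[ℂ] Hil d S) (W i)‖ ≤
      Real.sqrt d := by
    refine norm_sum_tens _ W (fun i => ?_) hW (fun i j hij => ?_)
    · refine (norm_mul_le _ _).trans ?_
      have e1 := norm_PP (SW i true : Set (Pnt d S))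
      have e2 := norm_Lam (S := S) (FreeGroup.of i)
      have e3 := norm_nonneg (PP (SW i true : Set (Pnt d S)))
      have e4 := norm_nonneg (Lam (FreeGroup.of i) : Hil d S →L[ℂ] Hil d S)
      nlinarith
    · rw [star_mul, star_PP, mul_assoc, ← mul_assoc (PP (SW i true)), PP_mul_PP _ _ (SW_disj i j true hij),
        zero_mul, mul_zero]
  have h5 : ‖∑ i, tens (Lam (FreeGroup.of i) * PP (SW i false) : Hil d S →L[ℂ] Hil d S) (W i)‖ ≤
      Real.sqrt d := by
    rw [← norm_star, star_sum]
    simp only [tens_star]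
    refine norm_sum_tens _ _ (fun i => ?_) (fun i => by rw [norm_star]; exact hW i)
      (fun i j hij => ?_)
    · rw [norm_star']
      refine (norm_mul_le _ _).trans ?_
      have e1 := norm_PP (SW i false : Set (Pnt d S))
      have e2 := norm_Lam (S := S) (FreeGroup.of i)
      have e3 := norm_nonneg (PP (SW i false : Set (Pnt d S)))
      have e4 := norm_nonneg (Lam (FreeGroup.of i) : Hil d S →L[ℂ] Hil d S)
      nlinarith
    · rw [star_star, star_mul, star_PP, mul_assoc, ← mul_assoc (PP (SW i false)),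
        PP_mul_PP _ _ (SW_disj i j false hij), zero_mul, mul_zero]
  refine (norm_add_le _ _).trans ?_
  linarith

end Pool.Agent.Helper234.Exact
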