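import Pool.Agent.Helper234.Exact.Y3
import Pool.Agent.Helper234.Exact.X7
import Pool.Agent.Helper234.Exact.Z1
import Pool.Agent.Helper234.Nuc.P

set_option autoImplicit false
open scoped ComplexOrder ENNReal InnerProductSpace

namespace Pool.Agent.Helper234.Exact

open Pool.Agent.Helper234.Nuc (PosF IsNuclear IsMUn CX sg sg_sg bseq bseq_eq)
open Pool.Agent.Helper234.Brown (red ev card_fixed cperm cperm_mul_self)

universe u

section form

variable {U : Type u} [NonUnitalCStarAlgebra U] (ω : PosF U) (c : U)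

/-- real part of the form -/
noncomputable def Bl (x y : U) : ℝ := (ω.f (star x * c * y)).re

lemma Bl_add_left (x x' y : U) : Bl ω c (x + x') y = Bl ω c x y + Bl ω c x' y := by
  rw [Bl, Bl, Bl, star_add, add_mul, add_mul, map_add, Complex.add_re]

lemma Bl_add_right (x y y' : U) : Bl ω c x (y + y') = Bl ω c x y + Bl ω c x y' := by
  rw [Bl, Bl, Bl, mul_add, map_add, Complex.add_re]

lemma Bl_sub_left (x x' y : U) : Bl ω c (x - x') y = Bl ω c x y - Bl ω c x' y := by
  rw [Bl, Bl, Bl, star_sub, sub_mul, sub_mul, map_sub, Complex.sub_re]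

lemma Bl_sub_right (x y y' : U) : Bl ω c x (y - y') = Bl ω c x y - Bl ω c x y' := by
  rw [Bl, Bl, Bl, mul_sub, map_sub, Complex.sub_re]

lemma Bl_half_left (x y : U) : Bl ω c ((1/2 : ℂ) • x) y = 1/2 * Bl ω c x y := by
  have h : (1/2 : ℂ) = ((1/2 : ℝ) : ℂ) := by norm_num
  rw [Bl, Bl, star_smul, smul_mul_assoc, smul_mul_assoc, map_smul, smul_eq_mul, h, Complex.star_def,
    Complex.conj_ofReal, Complex.re_ofReal_mul]

lemma Bl_half_right (x y : U) : Bl ω c x ((1/2 : ℂ) • y) = 1/2 * Bl ω c x y := by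
  have h : (1/2 : ℂ) = ((1/2 : ℝ) : ℂ) := by norm_num
  rw [Bl, Bl, mul_smul_comm, map_smul, smul_eq_mul, h, Complex.re_ofReal_mul]

variable (hc : star c = c)

include hc in
lemma Bl_symm (x y : U) : Bl ω c x y = Bl ω c y x := by
  have h1 := ω.herm x (c * y)
  have e1 : star (c * y) * x = star y * c * x := by rw [star_mul, hc]
  rw [e1, ← mul_assoc] at h1
  rw [Bl, Bl, h1, Complex.conj_re]

lemma Bl_le (hcn : ‖c‖ ≤ 1) (x : U) : |Bl ω c x x| ≤ ω.n2 x ^ 2 := by
  refine (Complex.abs_re_le_norm _).trans ((ω.norm_conj_le c x).trans ?_)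
  nlinarith [sq_nonneg (ω.n2 x)]

include hc in
/-- the parallelogram estimate -/
lemma form_est (hcn : ‖c‖ ≤ 1) (p p' m m' : U)
    (hp : ω.n2 (p - p') ^ 2 + ω.n2 (m + m') ^ 2 ≤ 4)
    (h1 : 15/16 ≤ Bl ω c p p) (h1' : 15/16 ≤ Bl ω c p' p')
    (h2 : Bl ω c m m ≤ -(15/16)) (h2' : Bl ω c m' m' ≤ -(15/16)) :
    7/8 ≤ Bl ω c ((1/2 : ℂ) • (p + p') - (1/2 : ℂ) • (m - m')) ((1/2 : ℂ) • (p + p') + (1/2 : ℂ) • (m - m')) := by
  have a1 := abs_le.mp (Bl_le ω c hcn (p - p'))
  have a2 := abs_le.mp (Bl_le ω c hcn (m + m'))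
  simp only [Bl_sub_left, Bl_sub_right, Bl_add_left, Bl_add_right, Bl_half_left, Bl_half_right] at a1 a2 ⊢
  rw [Bl_symm ω c hc p' p] at a1 ⊢
  rw [Bl_symm ω c hc m' m] at a2 ⊢
  rw [Bl_symm ω c hc m p, Bl_symm ω c hc m' p, Bl_symm ω c hc m p', Bl_symm ω c hc m' p']
  linarith [a1.1, a1.2, a2.1, a2.2]

end form


section compl

lemma exists_compl {M : Type*} [NonUnitalCStarAlgebra M] (T P : M) (hT : T * P = T) (hP : star P = P)
    (hP2 : P * P = P) (r : ℝ) (hr : 0 ≤ r) (hn : ‖T‖ ≤ r) :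
    ∃ Z, star T * T + star Z * Z = ((r ^ 2 : ℝ) : ℂ) • P := by
  let _ := CStarAlgebra.spectralOrder M
  have _ := CStarAlgebra.spectralOrderedRing M
  have h1 : star T * T = star P * (star T * T) * P := by
    have e1 : star P * star T = star T := by rw [← star_mul, hT]
    rw [← mul_assoc, e1, mul_assoc, hT]
  have h2 : star T * T ≤ ‖star T * T‖ • (star P * P) := by
    conv_lhs => rw [h1]
    exact CStarAlgebra.star_left_conjugate_le_norm_smul (IsSelfAdjoint.star_mul_self T)
  have h3 : ‖star T * T‖ ≤ r ^ 2 := by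
    rw [CStarRing.norm_star_mul_self, sq]
    exact mul_le_mul hn hn (norm_nonneg _) hr
  have h4 : ‖star T * T‖ • (star P * P) ≤ (r ^ 2) • (star P * P) :=
    smul_le_smul_of_nonneg_right h3 (star_mul_self_nonneg P)
  have h5 : 0 ≤ (r ^ 2) • (star P * P) - star T * T := sub_nonneg.mpr (h2.trans h4)
  obtain ⟨Z, hZ⟩ := CStarAlgebra.nonneg_iff_eq_star_mul_self.mp h5
  refine ⟨Z, ?_⟩
  rw [← hZ, hP, hP2, add_sub_cancel]
  exact (Complex.coe_smul (r ^ 2) P).symm

end compl

section emb

variable {d : ℕ} {S : Dat}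

lemma mkE_mul {x y : Hil d S →L[ℂ] Hil d S} (hx : x ∈ EA d S) (hy : y ∈ EA d S) :
    mkE x hx * mkE y hy = mkE (x * y) (mul_mem hx hy) := rfl

lemma mkE_star {x : Hil d S →L[ℂ] Hil d S} (hx : x ∈ EA d S) :
    star (mkE x hx) = mkE (star x) (star_mem hx) := rfl

lemma mkE_congr {x y : Hil d S →L[ℂ] Hil d S} (hx : x ∈ EA d S) (hy : y ∈ EA d S) (h : x = y) :
    mkE x hx = mkE y hy := by
  subst h; rfl

noncomputable instance : PartialOrder (EE d S) := CStarAlgebra.spectralOrder _

instance : StarOrderedRing (EE d S) := CStarAlgebra.spectralOrderedRing _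

/-- the unit -/
noncomputable def pE (hd : 0 < d) : EE d S := mkE (Lam 1) (Lam_mem 1 hd)

/-- the generators of the group -/
noncomputable def uE (hd : 0 < d) (i : Fin d) : EE d S := mkE (Lam (FreeGroup.of i)) (Lam_mem _ hd)

open scoped Matrix.Norms.L2Operator

lemma free_ineq (hd : 0 < d) (N : ℕ) (W : Fin d → Matrix (Fin N) (Fin N) ℂ) (hW : ∀ i, ‖W i‖ ≤ 1) :
    ∃ Z : Matrix (Fin N) (Fin N) (EE d S),
      star (Matrix.of fun a b => ∑ i, W i a b • uE hd i : Matrix (Fin N) (Fin N) (EE d S)) *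
        (Matrix.of fun a b => ∑ i, W i a b • uE hd i : Matrix (Fin N) (Fin N) (EE d S)) + star Z * Z =
      Matrix.diagonal fun _ => ((4 * d : ℝ) : ℂ) • pE hd := by
  let T : CStarMatrix (Fin N) (Fin N) (EE d S) := CStarMatrix.ofMatrix (Matrix.of fun a b => ∑ i, W i a b • uE hd i)
  let P : CStarMatrix (Fin N) (Fin N) (EE d S) := CStarMatrix.ofMatrix (Matrix.diagonal fun _ => pE hd)
  have hinj : Function.Injective (CStarMatrix.mapₙₐ (n := Fin N) (toB d S)) := by
    intro x y h
    apply CStarMatrix.ext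
    intro a b
    apply toB_inj
    exact congrFun (congrFun h a) b
  have hn : ‖T‖ ≤ 2 * Real.sqrt d := by
    rw [← NonUnitalStarAlgHom.norm_map (CStarMatrix.mapₙₐ (n := Fin N) (toB d S)) hinj]
    have h1 := lam_ineq (d := d) (S := S) N W hW
    have h2 : CStarMatrix.mapₙₐ (n := Fin N) (toB d S) T =
        CStarMatrix.ofMatrix (Matrix.of fun a b => ∑ i, W i a b • (Lam (FreeGroup.of i) : Hil d S →L[ℂ] Hil d S)) := by
      apply CStarMatrix.ext
      intro a b
      show toB d S (∑ i, W i a b • uE hd i) = ∑ i, W i a b • (Lam (FreeGroup.of i) : Hil d S →L[ℂ] Hil d S)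
      rw [map_sum]
      refine Finset.sum_congr rfl fun i _ => ?_
      rw [map_smul]
      rfl
    rw [h2]
    exact h1
  have hup : ∀ i, uE hd i * pE hd = (uE hd i : EE d S) := by
    intro i
    rw [uE, pE, mkE_mul]
    exact mkE_congr _ _ (by rw [Lam_mul, mul_one])
  have hpp : pE hd * pE hd = (pE hd : EE d S) := by
    rw [pE, mkE_mul]
    exact mkE_congr _ _ (by rw [Lam_mul, mul_one])
  have hps : star (pE hd) = (pE hd : EE d S) := by
    rw [pE, mkE_star]
    exact mkE_congr _ _ (by rw [star_Lam, inv_one])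
  have hT : T * P = T := by
    apply CStarMatrix.ext
    intro a b
    have e1 : (T * P) a b = ∑ k, T a k * P k b := CStarMatrix.mul_apply ..
    rw [e1, Finset.sum_eq_single b]
    · show (∑ i, W i a b • uE hd i) * (Matrix.diagonal (fun _ => pE hd) b b) = ∑ i, W i a b • uE hd i
      rw [Matrix.diagonal_apply_eq, Finset.sum_mul]
      refine Finset.sum_congr rfl fun i _ => ?_
      rw [smul_mul_assoc, hup]
    · intro k _ hk
      show T a k * (Matrix.diagonal (fun _ => pE hd) k b) = 0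
      rw [Matrix.diagonal_apply_ne _ hk, mul_zero]
    · simp
  have hPs : star P = P := by
    apply CStarMatrix.ext
    intro a b
    show star (Matrix.diagonal (fun _ => pE hd) b a) = (Matrix.diagonal (fun _ => pE hd) a b : EE d S)
    by_cases hab : a = b
    · subst hab
      rw [Matrix.diagonal_apply_eq, hps]
    · rw [Matrix.diagonal_apply_ne _ hab, Matrix.diagonal_apply_ne _ (fun h => hab h.symm), star_zero]
  have hPP : P * P = P := by
    apply CStarMatrix.ext
    intro a b
    have e1 : (P * P) a b = ∑ k, P a k * P k b := CStarMatrix.mul_apply ..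
    rw [e1, Finset.sum_eq_single b]
    · show (Matrix.diagonal (fun _ => pE hd) a b) * (Matrix.diagonal (fun _ => pE hd) b b) =
        (Matrix.diagonal (fun _ => pE hd) a b : EE d S)
      rw [Matrix.diagonal_apply_eq]
      by_cases hab : a = b
      · subst hab
        rw [Matrix.diagonal_apply_eq, hpp]
      · rw [Matrix.diagonal_apply_ne _ hab, zero_mul]
    · intro k _ hk
      show P a k * (Matrix.diagonal (fun _ => pE hd) k b) = 0
      rw [Matrix.diagonal_apply_ne _ hk, mul_zero]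
    · simp
  obtain ⟨Z, hZ⟩ := exists_compl T P hT hPs hPP (2 * Real.sqrt d) (by positivity) hn
  refine ⟨CStarMatrix.ofMatrix.symm Z, ?_⟩
  have h4 : ((2 * Real.sqrt d) ^ 2 : ℝ) = 4 * d := by
    rw [mul_pow, Real.sq_sqrt (Nat.cast_nonneg d)]
    norm_num
  rw [h4] at hZ
  have h5 := congrArg (CStarMatrix.ofMatrix.symm) hZ
  refine Eq.trans ?_ (h5.trans ?_)
  · rfl
  · show (fun a b => (((4 * d : ℝ) : ℂ) • (Matrix.diagonal (fun _ => pE hd) a b : EE d S)) : Matrix (Fin N) (Fin N) (EE d S)) = _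
    funext a b
    by_cases hab : a = b
    · subst hab
      rw [Matrix.diagonal_apply_eq, Matrix.diagonal_apply_eq]
    · rw [Matrix.diagonal_apply_ne _ hab, Matrix.diagonal_apply_ne _ hab, smul_zero]

variable {U : Type u} [NonUnitalCStarAlgebra U]

lemma map_star_mul (f : EE d S →⋆ₙₐ[ℂ] U) {N : ℕ} (X Y : Matrix (Fin N) (Fin N) (EE d S)) :
    (star X * Y).map f = star (X.map f) * Y.map f := by
  ext1 a b
  rw [Matrix.map_apply, Matrix.mul_apply, Matrix.mul_apply, map_sum]
  refine Finset.sum_congr rfl fun k _ => ?_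
  rw [map_mul, Matrix.star_apply, Matrix.star_apply, map_star, Matrix.map_apply, Matrix.map_apply]

/-- the image of the algebra contains free elements -/
lemma freeLike (hd : 0 < d) (f : EE d S →⋆ₙₐ[ℂ] U) :
    FreeLike U d (f (pE hd)) (fun i => f (uE hd i)) where
  ps := by
    rw [← map_star, pE, mkE_star]
    congr 1
    exact mkE_congr _ _ (by rw [star_Lam, inv_one])
  pp := by
    rw [← map_mul, pE, mkE_mul]
    congr 1
    exact mkE_congr _ _ (by rw [Lam_mul, mul_one])
  pu i := by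
    rw [← map_mul, pE, uE, mkE_mul]
    congr 1
    exact mkE_congr _ _ (by rw [Lam_mul, one_mul])
  uu i := by
    rw [← map_star, ← map_mul, pE, uE, mkE_star, mkE_mul]
    congr 1
    exact mkE_congr _ _ (by rw [star_Lam, Lam_mul, inv_mul_cancel])
  ineq N W hW := by
    obtain ⟨Z, hZ⟩ := free_ineq (S := S) hd N W hW
    refine ⟨Z.map f, ?_⟩
    have h1 : (Matrix.of fun a b => ∑ i, W i a b • f (uE hd i) : Matrix (Fin N) (Fin N) U) =
        (Matrix.of fun a b => ∑ i, W i a b • uE hd i : Matrix (Fin N) (Fin N) (EE d S)).map f := by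
      ext1 a b
      rw [Matrix.map_apply, Matrix.of_apply, Matrix.of_apply, map_sum]
      refine Finset.sum_congr rfl fun i _ => ?_
      rw [map_smul]
    rw [h1, ← map_star_mul, ← map_star_mul, ← Matrix.map_add f (map_add f), hZ]
    ext1 a b
    rw [Matrix.map_apply]
    by_cases hab : a = b
    · subst hab
      rw [Matrix.diagonal_apply_eq, Matrix.diagonal_apply_eq, map_smul]
    · rw [Matrix.diagonal_apply_ne _ hab, Matrix.diagonal_apply_ne _ hab, map_zero]

end emb

end Pool.Agent.Helper234.Exact
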