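import Pool.Agent.Helper234.Exact.Y4

set_option autoImplicit false
open scoped ComplexOrder ENNReal InnerProductSpace

namespace Pool.Agent.Helper234.Exact

open Pool.Agent.Helper234.Nuc (PosF IsNuclear IsMUn CX sg sg_sg bseq bseq_eq exists_functional)
open Pool.Agent.Helper234.Brown (red ev card_fixed cperm cperm_mul_self)

universe u

section kv

variable {d : ℕ} {S : Dat} {U : Type u} [NonUnitalCStarAlgebra U] (f : EE d S →⋆ₙₐ[ℂ] U) (σ : Nd d S)

lemma ro_mem (v : Vec σ) : ro v.1 (bv σ) ∈ EA d S := v.2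

/-- the element of the big algebra attached to a vector of a block -/
noncomputable def kv (v : Vec σ) : U := f (mkE (ro v.1 (bv σ)) (ro_mem σ v))

/-- the image of the base projection -/
noncomputable def eU : U := f (mkE (eP σ) (eP_mem σ))

lemma kv_add (v w : Vec σ) : kv f σ (v + w) = kv f σ v + kv f σ w := by
  rw [kv, kv, kv, ← map_add]
  congr 1
  exact mkE_congr _ _ (ro_add _ _ _)

lemma kv_smul (c : ℂ) (v : Vec σ) : kv f σ (c • v) = c • kv f σ v := by
  rw [kv, kv, ← map_smul]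
  congr 1
  exact mkE_congr _ _ (ro_smul _ _ _)

lemma kv_sub (v w : Vec σ) : kv f σ (v - w) = kv f σ v - kv f σ w := by
  rw [sub_eq_add_neg, ← neg_one_smul ℂ w, kv_add, kv_smul, neg_one_smul, ← sub_eq_add_neg]

lemma star_kv_mul (v w : Vec σ) : star (kv f σ v) * kv f σ w = ⟪v.1, w.1⟫_ℂ • eU f σ := by
  rw [kv, kv, eU, ← map_star, ← map_mul, ← map_smul, mkE_star, mkE_mul]
  congr 1
  refine mkE_congr _ _ ?_
  rw [star_ro, ro_mul_ro]
  rfl

lemma star_eU_mul : star (eU f σ) * eU f σ = eU f σ := by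
  rw [eU, ← map_star, ← map_mul, mkE_star, mkE_mul]
  congr 1
  refine mkE_congr _ _ ?_
  rw [eP_eq, star_ro, ro_mul_ro, bv, inner_self_eq_norm_sq_to_K, norm_ket]
  simp

lemma n2_kv (ω : PosF U) (hω : ω.f (eU f σ) = 1) (v : Vec σ) : ω.n2 (kv f σ v) ^ 2 = ‖v.1‖ ^ 2 := by
  rw [ω.n2_sq, star_kv_mul, map_smul, hω, smul_eq_mul, mul_one, inner_self_eq_norm_sq_to_K]
  norm_cast

/-- action of an operator of the algebra -/
lemma mul_kv (T : Hil d S →L[ℂ] Hil d S) (hT : T ∈ EA d S) (v w : Vec σ) (h : T v.1 = w.1) :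
    f (mkE T hT) * kv f σ v = kv f σ w := by
  rw [kv, kv, ← map_mul, mkE_mul]
  congr 1
  refine mkE_congr _ _ ?_
  rw [mul_ro, h]

lemma eU_ne (hf : Function.Injective f) : eU f σ ≠ 0 := by
  intro h
  have h1 : mkE (eP σ) (eP_mem σ) = (0 : EE d S) := hf (by rw [map_zero]; exact h)
  have h2 : toB d S (mkE (eP σ) (eP_mem σ)) = 0 := by rw [h1, map_zero]
  rw [toB_mkE] at h2
  have h3 := congrArg (fun T : Hil d S →L[ℂ] Hil d S => T (ket (some σ, 1))) h2
  classical
  rw [eP_ket, if_pos rfl] at h3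
  have h4 := norm_ket ((some σ, 1) : Pnt d S)
  rw [h3] at h4
  simp at h4

end kv

end Pool.Agent.Helper234.Exact
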