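import Pool.Agent.Helper234.Exact.Y5

set_option autoImplicit false
open scoped ComplexOrder ENNReal InnerProductSpace

namespace Pool.Agent.Helper234.Exact

open Pool.Agent.Helper234.Nuc (PosF IsNuclear IsMUn CX sg sg_sg bseq bseq_eq exists_functional)
open Pool.Agent.Helper234.Brown (red ev card_fixed cperm cperm_mul_self)

universe u

section conj

variable {U : Type u} [NonUnitalCStarAlgebra U]

/-- compression of a positive functional -/
noncomputable def cj (ω : PosF U) (L : U) : PosF U where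
  f := ω.f ∘ₗ (LinearMap.mulLeft ℂ (star L)) ∘ₗ (LinearMap.mulRight ℂ L)
  pos x := by
    have h1 := ω.pos (x * L)
    rw [star_mul] at h1
    show 0 ≤ ω.f (star L * (star x * x * L))
    rw [show star L * (star x * x * L) = star L * star x * (x * L) by simp only [mul_assoc]]
    exact h1

lemma cj_apply (ω : PosF U) (L x : U) : (cj ω L).f x = ω.f (star L * x * L) := by
  show ω.f (star L * (x * L)) = _
  rw [mul_assoc]

end conj

section kets

variable {d : ℕ} {S : Dat} {U : Type u} [NonUnitalCStarAlgebra U] (f : EE d S →⋆ₙₐ[ℂ] U)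

lemma norm_sub_ket {ι : Type} (a b : ι) (h : a ≠ b) : ‖(ket a - ket b : L2 ι)‖ ^ 2 = 2 := by
  classical
  have h1 := @norm_sub_sq ℂ _ _ _ _ (ket a) (ket b : L2 ι)
  rw [norm_ket, norm_ket, inner_ket_ket, if_neg h] at h1
  rw [h1]
  norm_num

lemma norm_add_ket {ι : Type} (a b : ι) (h : a ≠ b) : ‖(ket a + ket b : L2 ι)‖ ^ 2 = 2 := by
  classical
  have h1 := @norm_add_sq ℂ _ _ _ _ (ket a) (ket b : L2 ι)
  rw [norm_ket, norm_ket, inner_ket_ket, if_neg h] at h1
  rw [h1]
  norm_num

lemma norm_kets {ι : Type} (a a' b b' : ι) (h : a = a' → b = b') (h' : b = b' → a = a') :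
    ‖(ket a - ket a' : L2 ι)‖ ^ 2 + ‖(ket b + ket b' : L2 ι)‖ ^ 2 ≤ 4 := by
  by_cases hb : b = b'
  · have ha := h' hb
    subst ha
    subst hb
    rw [sub_self, norm_zero, ← two_smul ℂ, norm_smul, norm_ket]
    norm_num
  · have ha : a ≠ a' := fun ha => hb (h ha)
    rw [norm_sub_ket _ _ ha, norm_add_ket _ _ hb]
    norm_num

/-- basis vectors of a block as elements of the big algebra -/
noncomputable def kh (hd : 0 < d) (σ : Nd d S) (h : Gm d) : U := kv f σ ⟨ket (some σ, h), ket_mem hd σ h⟩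

lemma kv_mul_eU (σ : Nd d S) (v : Vec σ) : kv f σ v * eU f σ = kv f σ v := by
  rw [kv, eU, ← map_mul, mkE_mul]
  congr 1
  refine mkE_congr _ _ ?_
  rw [eP_eq, ro_mul_ro, bv, inner_self_eq_norm_sq_to_K, norm_ket]
  simp

lemma p_mul_kv (hd : 0 < d) (σ : Nd d S) (v : Vec σ) : f (pE hd) * kv f σ v = kv f σ v :=
  mul_kv f σ _ _ _ _ (by rw [Lam_one]; rfl)

lemma u_mul_kh (hd : 0 < d) (σ : Nd d S) (i : Fin d) (h : Gm d) :
    f (uE hd i) * kh f hd σ h = kh f hd σ (FreeGroup.of i * h) :=
  mul_kv f σ _ _ _ _ (Lam_ket _ _ _)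

end kets

section rotv

variable {d : ℕ}

lemma sum_hf_smul {n : ℕ} {E : Type} [AddCommGroup E] [Module ℂ E] (a : CX n) (K : CX n → E) :
    ∑ y, hf (y = a) • K y = (1/2 : ℂ) • K a := by
  rw [Finset.sum_eq_single a]
  · unfold hf; rw [if_pos rfl]
  · intro y _ hy
    unfold hf
    rw [if_neg hy, zero_smul]
  · simp

/-- the basis vector of a position -/
noncomputable def Kp (b : Br d S0) (m : ℕ) (i : Fin 16) (y : CX m) (s : Bool) : Hil d S0 :=
  ket (some (node b m), ps b m ((y, s), i))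

lemma wv_rot (b : Br d S0) (m : ℕ) (i : Fin 16) (x : CX m) :
    wv b i ⟨m, ((x, false) : CX m × Bool)⟩ = (1/2 : ℂ) • (Kp b m i x false + Kp b m i (sg m i x) false) +
      (1/2 : ℂ) • (Kp b m i x true - Kp b m i (sg m i x) true) := by
  have h0 : wv b i ⟨m, ((x, false) : CX m × Bool)⟩ =
      ∑ q : CX m × Bool, rot m i q (x, false) • Kp b m i q.1 q.2 := rfl
  rw [h0, Fintype.sum_prod_type_right, Fintype.sum_bool]
  have h1 : ∑ y : CX m, rot m i (y, true) (x, false) • Kp b m i y true =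
      (1/2 : ℂ) • Kp b m i x true - (1/2 : ℂ) • Kp b m i (sg m i x) true := by
    rw [← sum_hf_smul x (fun y => Kp b m i y true), ← sum_hf_smul (sg m i x) (fun y => Kp b m i y true),
      ← Finset.sum_sub_distrib]
    refine Finset.sum_congr rfl fun y _ => ?_
    rw [← sub_smul]
    rfl
  have h2 : ∑ y : CX m, rot m i (y, false) (x, false) • Kp b m i y false =
      (1/2 : ℂ) • Kp b m i x false + (1/2 : ℂ) • Kp b m i (sg m i x) false := by
    rw [← sum_hf_smul x (fun y => Kp b m i y false), ← sum_hf_smul (sg m i x) (fun y => Kp b m i y false),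
      ← Finset.sum_add_distrib]
    refine Finset.sum_congr rfl fun y _ => ?_
    rw [← add_smul]
    rfl
  rw [h1, h2, smul_add, smul_sub, add_comm]

end rotv

end Pool.Agent.Helper234.Exact
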