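import Pool.Agent.Helper234.Exact.Y6

set_option autoImplicit false
open scoped ComplexOrder ENNReal InnerProductSpace

namespace Pool.Agent.Helper234.Exact

open Pool.Agent.Helper234.Nuc (PosF IsNuclear IsMUn CX sg sg_sg bseq bseq_eq exists_functional)
open Pool.Agent.Helper234.Brown (red ev card_fixed cperm cperm_mul_self)

universe u

section units

variable {d : ℕ} {S : Dat} {U : Type u} [NonUnitalCStarAlgebra U] (f : EE d S →⋆ₙₐ[ℂ] U)

lemma isMUn_kv (hf : Function.Injective f) (σ : Nd d S) {X : Type} [DecidableEq X] (w : X → Vec σ)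
    (hw : ∀ x y, ⟪(w x).1, (w y).1⟫_ℂ = if x = y then 1 else 0) :
    IsMUn (fun x y => kv f σ (w x) * star (kv f σ (w y))) where
  mul_eq p q r s := by
    have h1 : kv f σ (w p) * star (kv f σ (w q)) * (kv f σ (w r) * star (kv f σ (w s))) =
        kv f σ (w p) * (star (kv f σ (w q)) * kv f σ (w r)) * star (kv f σ (w s)) := by
      simp only [mul_assoc]
    rw [h1, star_kv_mul, hw]
    by_cases h : q = r
    · rw [if_pos h, if_pos h, one_smul, kv_mul_eU]
    · rw [if_neg h, if_neg h, zero_smul, mul_zero, zero_mul]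
  star_eq p q := by rw [star_mul, star_star]
  ne_zero p h := by
    have h1 : kv f σ (w p) = 0 := CStarRing.mul_star_self_eq_zero_iff _ |>.mp h
    have h2 := star_kv_mul f σ (w p) (w p)
    rw [h1, mul_zero, hw, if_pos rfl, one_smul] at h2
    exact eU_ne f σ hf h2.symm

end units

section level

variable {d : ℕ} {U : Type u} [NonUnitalCStarAlgebra U] (f : EE d S0 →⋆ₙₐ[ℂ] U) (hd : 0 < d)

/-- the rotated vectors of a slot as elements of the big algebra -/
noncomputable def kw (b : Br d S0) (m : ℕ) (i : Fin 16) (x : CX m) : U :=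
  kv f (node b m) ⟨wv b i ⟨m, ((x, false) : CX m × Bool)⟩, wv_mem hd b i m _⟩

lemma kw_eq (b : Br d S0) (m : ℕ) (i : Fin 16) (x : CX m) : kw f hd b m i x =
    (1/2 : ℂ) • (kh f hd (node b m) (ps b m ((x, false), i)) + kh f hd (node b m) (ps b m ((sg m i x, false), i))) +
    (1/2 : ℂ) • (kh f hd (node b m) (ps b m ((x, true), i)) - kh f hd (node b m) (ps b m ((sg m i x, true), i))) := by
  have h1 : (⟨wv b i ⟨m, ((x, false) : CX m × Bool)⟩, wv_mem hd b i m _⟩ : Vec (node b m)) =
      (1/2 : ℂ) • ((⟨Kp b m i x false, ket_mem hd _ _⟩ : Vec (node b m)) + ⟨Kp b m i (sg m i x) false, ket_mem hd _ _⟩) +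
      (1/2 : ℂ) • ((⟨Kp b m i x true, ket_mem hd _ _⟩ : Vec (node b m)) - ⟨Kp b m i (sg m i x) true, ket_mem hd _ _⟩) :=
    Subtype.ext (wv_rot b m i x)
  rw [kw, h1, kv_add, kv_smul, kv_smul, kv_add, kv_sub]
  rfl

lemma level_est (b : Br d S0) (m : ℕ) (ω : PosF U) (hω : ω.f (eU f (node b m)) = 1) (c : U)
    (hc : star c = c) (hcn : ‖c‖ ≤ 1) (i : Fin 16) (x : CX m)
    (hpos : ∀ y : CX m, 15/16 ≤ Bl ω c (kh f hd (node b m) (ps b m ((y, false), i)))
      (kh f hd (node b m) (ps b m ((y, false), i))))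
    (hneg : ∀ y : CX m, Bl ω c (kh f hd (node b m) (ps b m ((y, true), i)))
      (kh f hd (node b m) (ps b m ((y, true), i))) ≤ -(15/16)) :
    7/8 ≤ Bl ω c (kw f hd b m i (sg m i x)) (kw f hd b m i x) := by
  rw [kw_eq f hd b m i x, kw_eq f hd b m i (sg m i x), sg_sg]
  set p := kh f hd (node b m) (ps b m ((x, false), i)) with hp
  set p' := kh f hd (node b m) (ps b m ((sg m i x, false), i)) with hp'
  set q := kh f hd (node b m) (ps b m ((x, true), i)) with hq
  set q' := kh f hd (node b m) (ps b m ((sg m i x, true), i)) with hq'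
  have e1 : (1/2 : ℂ) • (p' + p) + (1/2 : ℂ) • (q' - q) = (1/2 : ℂ) • (p + p') - (1/2 : ℂ) • (q - q') := by
    rw [add_comm p' p, ← neg_sub q q', smul_neg, ← sub_eq_add_neg]
  rw [e1]
  refine form_est ω c hc hcn p p' q q' ?_ (hpos x) (hpos _) (hneg x) (hneg _)
  have h1 : p - p' = kv f (node b m) (⟨ket (some (node b m), ps b m ((x, false), i)), ket_mem hd _ _⟩ -
      ⟨ket (some (node b m), ps b m ((sg m i x, false), i)), ket_mem hd _ _⟩) := by
    rw [kv_sub]; rfl
  have h2 : q + q' = kv f (node b m) (⟨ket (some (node b m), ps b m ((x, true), i)), ket_mem hd _ _⟩ +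
      ⟨ket (some (node b m), ps b m ((sg m i x, true), i)), ket_mem hd _ _⟩) := by
    rw [kv_add]; rfl
  rw [h1, h2, n2_kv f _ ω hω, n2_kv f _ ω hω]
  refine norm_kets _ _ _ _ (fun h => ?_) (fun h => ?_)
  · have h3 := ps_inj b m (congrArg Prod.snd h)
    have h4 : x = sg m i x := congrArg (fun t : (CX m × Bool) × Fin 16 => t.1.1) h3
    rw [← h4]
  · have h3 := ps_inj b m (congrArg Prod.snd h)
    have h4 : x = sg m i x := congrArg (fun t : (CX m × Bool) × Fin 16 => t.1.1) h3
    rw [← h4]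

end level

end Pool.Agent.Helper234.Exact
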