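import Pool.Agent.Helper234.Exact.Y7

set_option autoImplicit false
open scoped ComplexOrder ENNReal InnerProductSpace

namespace Pool.Agent.Helper234.Exact

open Pool.Agent.Helper234.Nuc (PosF IsNuclear IsMUn CX sg sg_sg bseq bseq_eq exists_functional)
open Pool.Agent.Helper234.Brown (red ev card_fixed cperm cperm_mul_self)

universe u

section main

variable {U : Type u} [NonUnitalCStarAlgebra U]

lemma norm_GG_le {d : ℕ} {S : Dat} (b : Br d S) (z z' : Fin 16) : ‖GG b z z'‖ ≤ 1 := by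
  have h1 : ∀ z, ‖Wb b z‖ ≤ 1 := fun z => LinearIsometry.norm_toContinuousLinearMap_le _
  rw [GG]
  refine (ContinuousLinearMap.opNorm_comp_le _ _).trans ?_
  rw [LinearIsometryEquiv.norm_map]
  have h2 := h1 z
  have h3 := h1 z'
  nlinarith [norm_nonneg (Wb b z), norm_nonneg (Wb b z')]

lemma norm_fGG_le {d : ℕ} {S : Dat} (f : EE d S →⋆ₙₐ[ℂ] U) (b : Br d S) (z z' : Fin 16) :
    ‖f (mkE (GG b z z') (GG_mem b z z'))‖ ≤ 1 :=
  (NonUnitalStarAlgHom.norm_apply_le _ _).trans (norm_GG_le b z z')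

lemma sig_inj {m : ℕ} {a b : S0.Q m} (h : (⟨m, a⟩ : Σ n, S0.Q n) = ⟨m, b⟩) : a = b := by
  cases h
  rfl

lemma star_eU {d : ℕ} {S : Dat} (f : EE d S →⋆ₙₐ[ℂ] U) (σ : Nd d S) : star (eU f σ) = eU f σ := by
  have h1 := star_eU_mul f σ
  have h2 := congrArg star h1
  rw [star_mul, star_star, h1] at h2
  exact h2.symm

lemma eU_mul_eU {d : ℕ} {S : Dat} (f : EE d S →⋆ₙₐ[ℂ] U) (σ : Nd d S) : eU f σ * eU f σ = eU f σ := by
  have h1 := star_eU_mul f σ
  rwa [star_eU] at h1

/-- the branch adapted to an embedding -/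
lemma exists_branch {d : ℕ} (β : ∀ σ : Nd d S0, Pos d S0) (hβ : ∀ σ m, Sep d S0 m (β σ m)) :
    ∃ b : Br d S0, ∀ m p, ps b m p = β (node b m) m p := by
  let L : ∀ n : ℕ, (Fin n → Pos d S0) → Pos d S0 := fun n s => β ⟨n, s⟩
  have hL : ∀ n, bseq L n = β ⟨n, fun i => bseq L i.1⟩ := fun n => bseq_eq L n
  refine ⟨⟨bseq L, fun n => ?_⟩, fun m p => ?_⟩
  · rw [hL]
    exact hβ _ n
  · show bseq L m m p = _
    rw [hL]
    rfl

theorem no_embed (hU : IsNuclear U) (f : EE 16384 S0 →⋆ₙₐ[ℂ] U) (hf : Function.Injective f) : False := by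
  classical
  have hd : 0 < 16384 := by norm_num
  obtain ⟨I, fin, c, hc, hcn, hsep⟩ := exists_family hU (freeLike hd f)
  have hω : ∀ σ : Nd 16384 S0, ∃ ω : PosF U, ω.f (eU f σ) = 1 ∧ ∀ a, ‖ω.f a‖ ≤ 2 * ‖a‖ := fun σ =>
    exists_functional hU (eU f σ) (star_eU_mul f σ).symm (eU_ne f σ hf)
  choose ω hω1 hω2 using hω
  -- colours
  have hkk : ∀ σ h, (ω σ).f (star (kh f hd σ h) * kh f hd σ h) = 1 := by
    intro σ h
    rw [kh, star_kv_mul, map_smul, hω1, inner_ket_ket, if_pos rfl]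
    simp
  have hle : ∀ σ j h, |Bl (ω σ) (c j) (kh f hd σ h) (kh f hd σ h)| ≤ 1 := by
    intro σ j h
    have h1 := Bl_le (ω σ) (c j) (hcn j) (kh f hd σ h)
    rwa [kh, n2_kv f σ _ (hω1 σ), norm_ket, one_pow] at h1
  have hcol : ∀ (σ : Nd 16384 S0) (h : Gm 16384), ∃ ij : Fin 16384 × I,
      15/16 ≤ Bl (ω σ) (c ij.2) (kh f hd σ h) (kh f hd σ h) ∧
      Bl (ω σ) (c ij.2) (kh f hd σ (FreeGroup.of ij.1 * h)) (kh f hd σ (FreeGroup.of ij.1 * h)) ≤ -(15/16) := by
    intro σ h
    obtain ⟨i, j, hij⟩ := hsep (ω σ) (kh f hd σ h) (hkk σ h) (p_mul_kv f hd σ _)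
    refine ⟨(i, j), ?_⟩
    rw [u_mul_kh] at hij
    have h1 := abs_le.mp (hle σ j h)
    have h2 := abs_le.mp (hle σ j (FreeGroup.of i * h))
    have h3 : 2 - 1/16 ≤ Bl (ω σ) (c j) (kh f hd σ h) (kh f hd σ h) -
      Bl (ω σ) (c j) (kh f hd σ (FreeGroup.of i * h)) (kh f hd σ (FreeGroup.of i * h)) := hij
    simp only
    constructor
    · linarith [h1.1, h1.2, h2.1, h2.2]
    · linarith [h1.1, h1.2, h2.1, h2.2]
  choose col hcol1 hcol2 using hcol
  have hinf : ∀ σ : Nd 16384 S0, ∃ ij : Fin 16384 × I, (col σ ⁻¹' {ij}).Infinite := by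
    intro σ
    haveI : Nonempty (Fin 16384) := ⟨⟨0, hd⟩⟩
    obtain ⟨y, hy⟩ := Finite.exists_infinite_fiber (col σ)
    exact ⟨y, Set.infinite_coe_iff.mp hy⟩
  choose ij hij using hinf
  have hAf : ∀ σ, {h | 15/16 ≤ Bl (ω σ) (c (ij σ).2) (kh f hd σ h) (kh f hd σ h)}.Infinite := by
    intro σ
    refine (hij σ).mono ?_
    intro h hh
    have := hcol1 σ h
    rw [show col σ h = ij σ from hh] at this
    exact this
  have hAt : ∀ σ, {h | Bl (ω σ) (c (ij σ).2) (kh f hd σ h) (kh f hd σ h) ≤ -(15/16)}.Infinite := by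
    intro σ
    have h1 : ((fun h => FreeGroup.of (ij σ).1 * h) '' (col σ ⁻¹' {ij σ})).Infinite :=
      (hij σ).image (fun x _ y _ hxy => mul_left_cancel hxy)
    refine h1.mono ?_
    rintro _ ⟨h, hh, rfl⟩
    have := hcol2 σ h
    rw [show col σ h = ij σ from hh] at this
    exact this
  -- positions
  have hβ : ∀ (σ : Nd 16384 S0) (m : ℕ), ∃ β : (CX m × Bool) × Fin 16 → Gm 16384,
      (∀ p, β p ∈ (if p.1.2 = false then {h | 15/16 ≤ Bl (ω σ) (c (ij σ).2) (kh f hd σ h) (kh f hd σ h)} else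
        {h | Bl (ω σ) (c (ij σ).2) (kh f hd σ h) (kh f hd σ h) ≤ -(15/16)})) ∧
      ∀ p q g, FreeGroup.norm g ≤ m → g * β p = β q → p = q := by
    intro σ m
    refine exists_sep _ (fun p => ?_) m
    by_cases hp : p.1.2 = false
    · rw [if_pos hp]; exact hAf σ
    · rw [if_neg hp]; exact hAt σ
  choose β hβ1 hβ2 using hβ
  obtain ⟨b, hb⟩ := exists_branch (fun σ m p => β σ m p) (fun σ m => hβ2 σ m)
  -- apply the core theorem
  refine core2 hU (fun j z => f (mkE (GG b 0 z) (GG_mem b 0 z)) * c j * f (mkE (GG b z 0) (GG_mem b z 0)))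
    (fun j z => ?_) (fun j z => ?_) (fun m => ?_)
  · rw [star_mul, star_mul, hc, ← map_star, ← map_star, mkE_star, mkE_star, mul_assoc]
    congr 1
    · congr 1
      exact mkE_congr _ _ (star_GG _ _ _)
    · congr 2
      exact mkE_congr _ _ (star_GG _ _ _)
  · have h1 := norm_fGG_le f b 0 z
    have h2 := norm_fGG_le f b z 0
    have h3 := hcn j
    calc _ ≤ ‖f (mkE (GG b 0 z) (GG_mem b 0 z)) * c j‖ * ‖f (mkE (GG b z 0) (GG_mem b z 0))‖ := norm_mul_le _ _
      _ ≤ (1 * 1) * 1 := by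
        refine mul_le_mul ?_ h2 (norm_nonneg _) (by norm_num)
        exact (norm_mul_le _ _).trans (mul_le_mul h1 h3 (norm_nonneg _) (by norm_num))
      _ = 1 := by norm_num
  · set σ := node b m with hσ
    let w : CX m → Vec σ := fun x => ⟨wv b 0 ⟨m, ((x, false) : CX m × Bool)⟩, wv_mem hd b 0 m _⟩
    have hw : ∀ x y, ⟪(w x).1, (w y).1⟫_ℂ = if x = y then 1 else 0 := by
      intro x y
      show ⟪wv b 0 ⟨m, ((x, false) : CX m × Bool)⟩, wv b 0 ⟨m, ((y, false) : CX m × Bool)⟩⟫_ℂ = _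
      rw [inner_wv]
      by_cases hxy : x = y
      · subst hxy
        rw [if_pos rfl, if_pos ⟨rfl, rfl⟩]
      · rw [if_neg hxy, if_neg]
        rintro ⟨_, h⟩
        exact hxy (congrArg Prod.fst (sig_inj h))
    have hMU := isMUn_kv f hf σ w hw
    have x₀ : CX m := fun _ => 0
    have hkw : ∀ x, kv f σ (w x) * (star (kv f σ (w x₀)) * kv f σ (w x₀)) = kv f σ (w x) := by
      intro x
      rw [star_kv_mul, hw, if_pos rfl, one_smul, kv_mul_eU]
    refine ⟨CX m, inferInstance, inferInstance, x₀, fun x y => kv f σ (w x) * star (kv f σ (w y)), sg m,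
      (ij σ).2, cj (ω σ) (kv f σ (w x₀)), hMU, ?_, ?_, ?_, ?_, ?_⟩
    · intro i
      exact cperm_mul_self _ _ _
    · intro v hv hred
      have h5 := card_fixed (2*(m+1)) (m+1) v (by omega) hred
      refine le_trans ?_ h5
      have h6 : (2:ℕ) ^ m ≤ 2 ^ (m+1) := Nat.pow_le_pow_right (by norm_num) (by omega)
      exact Nat.mul_le_mul_left _ h6
    · rw [cj_apply]
      have e1 : star (kv f σ (w x₀)) * (kv f σ (w x₀) * star (kv f σ (w x₀))) * kv f σ (w x₀) = eU f σ := by
        calc _ = (star (kv f σ (w x₀)) * kv f σ (w x₀)) * (star (kv f σ (w x₀)) * kv f σ (w x₀)) := by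
              simp only [mul_assoc]
          _ = eU f σ := by
              rw [star_kv_mul, hw, if_pos rfl, one_smul, eU_mul_eU]
      rw [e1, hω1]
    · intro a
      rw [cj_apply]
      have h1 : (ω σ).f (star (kv f σ (w x₀)) * kv f σ (w x₀)) = 1 := by
        rw [star_kv_mul, hw, if_pos rfl, one_smul, hω1]
      have h2 := conj_le (ω σ) (kv f σ (w x₀)) h1 a
      linarith [norm_nonneg a]
    · intro i
      have key : ∀ x : CX m, 7/8 ≤ ((cj (ω σ) (kv f σ (w x₀))).f (star (kv f σ (w (sg m i x)) * star (kv f σ (w x₀))) *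
          (f (mkE (GG b 0 i) (GG_mem b 0 i)) * c (ij σ).2 * f (mkE (GG b i 0) (GG_mem b i 0))) *
          (kv f σ (w x) * star (kv f σ (w x₀))))).re := by
        intro x
        have hG : ∀ y : CX m, f (mkE (GG b i 0) (GG_mem b i 0)) * kv f σ (w y) = kw f hd b m i y := by
          intro y
          exact mul_kv f σ _ _ _ _ (GG_wv _ _ _ _)
        have hG' : ∀ y : CX m, star (kv f σ (w y)) * f (mkE (GG b 0 i) (GG_mem b 0 i)) = star (kw f hd b m i y) := by
          intro y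
          rw [← hG, star_mul, ← map_star, mkE_star]
          congr 2
          exact mkE_congr _ _ (star_GG _ _ _).symm
        have e2 : star (kv f σ (w x₀)) * (star (kv f σ (w (sg m i x)) * star (kv f σ (w x₀))) *
          (f (mkE (GG b 0 i) (GG_mem b 0 i)) * c (ij σ).2 * f (mkE (GG b i 0) (GG_mem b i 0))) *
          (kv f σ (w x) * star (kv f σ (w x₀)))) * kv f σ (w x₀) =
          star (kw f hd b m i (sg m i x)) * c (ij σ).2 * kw f hd b m i x := by
          have e3 : star (kv f σ (w x₀)) * star (kv f σ (w (sg m i x)) * star (kv f σ (w x₀))) =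
              star (kv f σ (w (sg m i x))) := by
            rw [← star_mul, mul_assoc, hkw]
          have e4 : kv f σ (w x) * star (kv f σ (w x₀)) * kv f σ (w x₀) = kv f σ (w x) := by
            rw [mul_assoc, hkw]
          calc _ = (star (kv f σ (w x₀)) * star (kv f σ (w (sg m i x)) * star (kv f σ (w x₀)))) *
                f (mkE (GG b 0 i) (GG_mem b 0 i)) * c (ij σ).2 * (f (mkE (GG b i 0) (GG_mem b i 0)) *
                (kv f σ (w x) * star (kv f σ (w x₀)) * kv f σ (w x₀))) := by simp only [mul_assoc]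
            _ = _ := by rw [e3, e4, hG, hG']
        rw [cj_apply, e2]
        refine level_est f hd b m (ω σ) (hω1 σ) (c (ij σ).2) (hc _) (hcn _) i x (fun y => ?_) (fun y => ?_)
        · have := hβ1 σ m ((y, false), i)
          rw [if_pos rfl] at this
          rw [hb m]
          exact this
        · have := hβ1 σ m ((y, true), i)
          rw [if_neg (by simp)] at this
          rw [hb m]
          exact this
      have hcard : (0 : ℝ) < Fintype.card (CX m) := by exact_mod_cast (Fintype.card_pos_iff.mpr ⟨x₀⟩)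
      have e5 : ((Fintype.card (CX m) : ℂ))⁻¹ = (((Fintype.card (CX m) : ℝ)⁻¹ : ℝ) : ℂ) := by push_cast; rfl
      rw [e5, Complex.re_ofReal_mul, Complex.re_sum, ← div_eq_inv_mul, le_div_iff₀ hcard]
      refine le_trans (le_of_eq ?_) (Finset.sum_le_sum fun x _ => key x)
      rw [Finset.sum_const, Finset.card_univ, nsmul_eq_mul, mul_comm]

end main

end Pool.Agent.Helper234.Exact
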