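import Pool.Agent.Helper234.Exact.ZE
import Pool.Agent.Helper234.Exact.Y3

set_option autoImplicit false
open scoped ComplexOrder ENNReal InnerProductSpace

namespace Pool.Agent.Helper234.Exact

variable {d : ℕ} {S : Dat}

variable (d S) in
theorem exact_EE (hd : 0 < d) :
    ∃ (B : Type) (_ : NonUnitalCStarAlgebra B) (π : EE d S →⋆ₙₐ[ℂ] B), Function.Injective π ∧
      ∀ (F : Finset (EE d S)) (ε : ℝ), 0 < ε →
        ∃ (D : Type) (_ : CStarAlgebra D) (_ : FiniteDimensional ℂ D)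
          (φ : EE d S →ₗ[ℂ] D) (ψ : D →ₗ[ℂ] B),
          (∀ a, ‖φ a‖ ≤ ‖a‖) ∧ (∀ d, ‖ψ d‖ ≤ ‖d‖) ∧
          (∀ (n : ℕ) (y : Matrix (Fin n) (Fin n) (EE d S)),
            ∃ z : Matrix (Fin n) (Fin n) D, (star y * y).map φ = star z * z) ∧
          (∀ (n : ℕ) (y : Matrix (Fin n) (Fin n) D),
            ∃ z : Matrix (Fin n) (Fin n) B, (star y * y).map ψ = star z * z) ∧
          ∀ a ∈ F, ‖ψ (φ a) - π a‖ < ε := by
  haveI : Nonempty (JJ d S) := ⟨Sum.inl (none, 1, 0)⟩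
  exact ZD.exact_criterion (J := JJ d S) (gens d S) (fun g hg => star_gens d S hg)
    (fun F hF hFg ε hε => exact_main hd F hF hFg ε hε)

end Pool.Agent.Helper234.Exact
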