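import Pool.Agent.Helper234.Exact.Y8
import Pool.Agent.Helper234.Exact.ZF
import Pool.Agent.Helper234.Exact.X2

set_option autoImplicit false
open scoped ComplexOrder ENNReal InnerProductSpace

namespace Pool.Agent.Helper234.Exact

open Pool.Agent.Helper234.Nuc (CX)

section sepa

variable {d : ℕ} {S : Dat}

lemma exists_split {b b' : Br d S} (h : b ≠ b') : ∃ n, node b n ≠ node b' n := by
  by_contra hc
  push Not at hc
  apply h
  apply Subtype.ext
  funext m
  have h1 := hc (m+1)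
  have h2 : (⟨m+1, fun i => b.1 i⟩ : Nd d S) = ⟨m+1, fun i => b'.1 i⟩ := h1
  rw [Sigma.mk.injEq] at h2
  have h3 := congrFun (eq_of_heq h2.2) ⟨m, Nat.lt_succ_self m⟩
  exact h3

lemma GG_kill {b b' : Br d S} {n : ℕ} (h : node b n ≠ node b' n) (z z' : Fin 16) (q : S.Q n) :
    GG b' z z (wv b z' ⟨n, q⟩) = 0 := by
  rw [wv, map_sum]
  refine Finset.sum_eq_zero fun x _ => ?_
  rw [map_smul, GG_ket_zero, smul_zero]
  intro m q' he
  rw [Prod.mk.injEq, Option.some.injEq] at he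
  have h1 : n = m := congrArg Sigma.fst he.1
  subst h1
  exact h he.1

lemma one_le_dist {b b' : Br d S} (h : b ≠ b') :
    1 ≤ ‖mkE (GG b 0 0) (GG_mem b 0 0) - mkE (GG b' 0 0) (GG_mem b' 0 0)‖ := by
  obtain ⟨n, hn⟩ := exists_split h
  let q : S.Q n := Classical.arbitrary _
  have h1 : (GG b 0 0 - GG b' 0 0) (wv b 0 ⟨n, q⟩) = wv b 0 ⟨n, q⟩ := by
    rw [sub_apply, GG_wv, GG_kill hn, sub_zero]
  have h2 : ‖wv b 0 ⟨n, q⟩‖ = 1 := (orth_wv b 0).1 _
  have h3 := (GG b 0 0 - GG b' 0 0).le_opNorm (wv b 0 ⟨n, q⟩)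
  rw [h1, h2, mul_one] at h3
  exact h3

lemma exists_code (hd : 0 < d) : ∃ F : (ℕ → Bool) → Br d S, Function.Injective F := by
  classical
  haveI : Nonempty (Fin d) := ⟨⟨0, hd⟩⟩
  have h1 : ∀ n, ∃ β : S.Q n × Fin 16 → Gm d, Sep d S n β := by
    intro n
    obtain ⟨β, -, h⟩ := exists_sep (ι := S.Q n × Fin 16) (fun _ => (Set.univ : Set (Gm d)))
      (fun _ => Set.infinite_univ) n
    exact ⟨β, h⟩
  choose β hβ using h1
  let i0 : Fin d := ⟨0, hd⟩
  refine ⟨fun t => ⟨fun n m => if m = n then β m else fun _ => if t n then 1 else FreeGroup.of i0, fun n => ?_⟩, ?_⟩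
  · simp only [if_true]
    exact hβ n
  · intro t t' htt
    funext n
    have h2 := congrArg Subtype.val htt
    have h3 := congrFun (congrFun (congrFun h2 n) (n+1)) (Classical.arbitrary _, 0)
    simp only [Nat.succ_ne_self, if_false] at h3
    have h4 : (1 : Gm d) ≠ FreeGroup.of i0 := (FreeGroup.of_ne_one i0).symm
    cases ht : t n <;> cases ht' : t' n
    · rfl
    · rw [ht, ht'] at h3
      exact absurd h3.symm (by simpa using h4)
    · rw [ht, ht'] at h3
      exact absurd h3 (by simpa using h4)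
    · rfl

lemma not_countable_code : ¬ Countable (ℕ → Bool) := by
  intro h
  obtain ⟨g, hg⟩ := exists_injective_nat (ℕ → Bool)
  classical
  let k : Set ℕ → (ℕ → Bool) := fun s n => decide (n ∈ s)
  have hk : Function.Injective k := by
    intro s s' hs
    ext n
    have := congrFun hs n
    simpa [k] using this
  exact Function.cantor_injective (fun s => g (k s)) (hg.comp hk)

variable (d S) in
theorem not_separable (hd : 0 < d) : ¬ TopologicalSpace.SeparableSpace (EE d S) := by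
  intro h
  obtain ⟨D, hDc, hDd⟩ := TopologicalSpace.exists_countable_dense (EE d S)
  obtain ⟨F, hF⟩ := exists_code (S := S) hd
  have h1 : ∀ t, ∃ y ∈ D, dist (mkE (GG (F t) 0 0) (GG_mem (F t) 0 0)) y < 1/2 := fun t =>
    hDd.exists_dist_lt _ (by norm_num)
  choose y hyD hy using h1
  have hinj : Function.Injective (fun t => (⟨y t, hyD t⟩ : D)) := by
    intro t t' htt
    by_contra hne
    have h2 := one_le_dist (fun hc => hne (hF hc) : F t ≠ F t')
    have h3 : y t = y t' := congrArg Subtype.val htt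
    have h4 := hy t
    have h5 := hy t'
    rw [← h3] at h5
    rw [← dist_eq_norm] at h2
    have h6 := dist_triangle_right (mkE (GG (F t) 0 0) (GG_mem (F t) 0 0)) (mkE (GG (F t') 0 0) (GG_mem (F t') 0 0)) (y t)
    linarith
  haveI := hDc.to_subtype
  exact not_countable_code hinj.countable

end sepa

/-- The example: a nonseparable exact algebra with no embedding into a nuclear one. -/
theorem main : ¬ (∀ (A : Type) [NonUnitalCStarAlgebra A], ¬ TopologicalSpace.SeparableSpace A →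
    (∃ (B : Type) (_ : NonUnitalCStarAlgebra B) (π : A →⋆ₙₐ[ℂ] B), Function.Injective π ∧
      ∀ (F : Finset A) (ε : ℝ), 0 < ε →
        ∃ (D : Type) (_ : CStarAlgebra D) (_ : FiniteDimensional ℂ D)
          (φ : A →ₗ[ℂ] D) (ψ : D →ₗ[ℂ] B),
          (∀ a, ‖φ a‖ ≤ ‖a‖) ∧ (∀ d, ‖ψ d‖ ≤ ‖d‖) ∧
          (∀ (n : ℕ) (y : Matrix (Fin n) (Fin n) A),
            ∃ z : Matrix (Fin n) (Fin n) D, (star y * y).map φ = star z * z) ∧
          (∀ (n : ℕ) (y : Matrix (Fin n) (Fin n) D),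
            ∃ z : Matrix (Fin n) (Fin n) B, (star y * y).map ψ = star z * z) ∧
          ∀ a ∈ F, ‖ψ (φ a) - π a‖ < ε) →
    ∃ (C : Type) (_ : NonUnitalCStarAlgebra C) (ι : A →⋆ₙₐ[ℂ] C), Function.Injective ι ∧
      ∀ (F : Finset C) (ε : ℝ), 0 < ε →
        ∃ (D : Type) (_ : CStarAlgebra D) (_ : FiniteDimensional ℂ D)
          (φ : C →ₗ[ℂ] D) (ψ : D →ₗ[ℂ] C),
          (∀ c, ‖φ c‖ ≤ ‖c‖) ∧ (∀ d, ‖ψ d‖ ≤ ‖d‖) ∧
          (∀ (n : ℕ) (y : Matrix (Fin n) (Fin n) C),
            ∃ z : Matrix (Fin n) (Fin n) D, (star y * y).map φ = star z * z) ∧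
          (∀ (n : ℕ) (y : Matrix (Fin n) (Fin n) D),
            ∃ z : Matrix (Fin n) (Fin n) C, (star y * y).map ψ = star z * z) ∧
          ∀ c ∈ F, ‖ψ (φ c) - c‖ < ε) := by
  intro h
  have hd : 0 < 16384 := by norm_num
  obtain ⟨C, iC, ι, hι, hnuc⟩ := h (EE 16384 S0) (not_separable 16384 S0 hd) (exact_EE 16384 S0 hd)
  exact no_embed (FNuc.isNuclear hnuc) ι hι

end Pool.Agent.Helper234.Exact
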