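import Pool.Agent.Helper234.Exact.Y1

set_option autoImplicit false
open scoped ComplexOrder ENNReal InnerProductSpace

namespace Pool.Agent.Helper234.Exact

variable {d : ℕ} {S : Dat}



section vv

variable {J H : Type} [NormedAddCommGroup H] [InnerProductSpace ℂ H] [CompleteSpace H]

omit [CompleteSpace H] in
lemma amp_mem (T : H →L[ℂ] H) (f : lp (fun _ : J => H) 2) : Memℓp (fun j => T (f j)) 2 := by
  have hf := lp.memℓp f
  have h2 : (0 : ℝ) < (2 : ℝ≥0∞).toReal := by norm_num
  rw [memℓp_gen_iff h2] at hf ⊢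
  refine Summable.of_nonneg_of_le (fun j => by positivity) (fun j => ?_) (hf.mul_left (‖T‖ ^ (2 : ℝ≥0∞).toReal))
  rw [← Real.mul_rpow (norm_nonneg _) (norm_nonneg _)]
  exact Real.rpow_le_rpow (norm_nonneg _) (T.le_opNorm _) h2.le

/-- pointwise application of an operator -/
noncomputable def ampFun (T : H →L[ℂ] H) (f : lp (fun _ : J => H) 2) : lp (fun _ : J => H) 2 :=
  ⟨fun j => T (f j), amp_mem T f⟩

/-- a vector at one coordinate -/
noncomputable def kk (j : J) (v : H) : lp (fun _ : J => H) 2 := by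
  classical exact lp.single 2 j v

/-- initial segment of the reduced word -/
def tk {d : ℕ} (g : Gm d) (k : ℕ) : Gm d := FreeGroup.mk (g.toWord.take k)

/-- remaining segment of the reduced word -/
def dp {d : ℕ} (g : Gm d) (k : ℕ) : Gm d := FreeGroup.mk (g.toWord.drop k)

/-- level -/
def lv {d : ℕ} (g : Gm d) (k : ℕ) : ℤ := (g.toWord.length : ℤ) - k


/-- the vectors of the amenability of the tree at infinity -/
noncomputable def VV (lab : Option (Nd d S) × Gm d × ℤ → J) (N : ℕ) (x : Pnt d S) :
    lp (fun _ : J => Hil d S) 2 :=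
  ((1 / Real.sqrt N : ℝ) : ℂ) • ∑ k ∈ Finset.range N,
    kk (lab (x.1, dp x.2 k, lv x.2 k)) (ket (none, tk x.2 k) : Hil d S)

omit [CompleteSpace H] in
open Classical in
lemma inner_kk (j j' : J) (v v' : H) : ⟪kk j v, kk j' v'⟫_ℂ = if j = j' then ⟪v, v'⟫_ℂ else 0 := by
  rw [kk, kk, lp.inner_single_left, lp.single_apply]
  by_cases h : j = j'
  · subst h; simp
  · rw [if_neg h, Pi.single_eq_of_ne h, inner_zero_right]

omit [CompleteSpace H] in
open Classical in
lemma ampFun_kk (T : H →L[ℂ] H) (j : J) (v : H) : ampFun T (kk j v) = kk j (T v) := by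
  apply lp.ext
  funext j'
  show T ((kk j v : lp (fun _ : J => H) 2) j') = _
  rw [kk, kk, lp.single_apply, lp.single_apply]
  by_cases h : j' = j
  · subst h; simp
  · rw [Pi.single_eq_of_ne h, Pi.single_eq_of_ne h, map_zero]

omit [CompleteSpace H] in
lemma ampFun_smul (T : H →L[ℂ] H) (c : ℂ) (f : lp (fun _ : J => H) 2) :
    ampFun T (c • f) = c • ampFun T f := by
  apply lp.ext
  funext j
  show T ((c • f : lp (fun _ : J => H) 2) j) = c • T (f j)
  rw [lp.coeFn_smul, Pi.smul_apply, map_smul]

omit [CompleteSpace H] in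
lemma ampFun_add (T : H →L[ℂ] H) (f g : lp (fun _ : J => H) 2) :
    ampFun T (f + g) = ampFun T f + ampFun T g := by
  apply lp.ext
  funext j
  show T ((f + g : lp (fun _ : J => H) 2) j) = T (f j) + T (g j)
  rw [lp.coeFn_add, Pi.add_apply, map_add]

omit [CompleteSpace H] in
lemma ampFun_zero (T : H →L[ℂ] H) : ampFun T (0 : lp (fun _ : J => H) 2) = 0 := by
  apply lp.ext
  funext j
  show T ((0 : lp (fun _ : J => H) 2) j) = 0
  rw [lp.coeFn_zero, Pi.zero_apply, map_zero]

omit [CompleteSpace H] in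
lemma ampFun_sum {ι : Type} (T : H →L[ℂ] H) (s : Finset ι) (f : ι → lp (fun _ : J => H) 2) :
    ampFun T (∑ k ∈ s, f k) = ∑ k ∈ s, ampFun T (f k) := by
  classical
  induction s using Finset.induction_on with
  | empty => simp [ampFun_zero]
  | insert a s ha ih => rw [Finset.sum_insert ha, Finset.sum_insert ha, ampFun_add, ih]

lemma tk_mul_dp {d : ℕ} (g : Gm d) (k : ℕ) : tk g k * dp g k = g := by
  rw [tk, dp, FreeGroup.mul_mk, List.take_append_drop, FreeGroup.mk_toWord]

open Classical in
lemma inner_term (j j' : J) (p q : Pnt d S) :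
    ⟪kk j (ket p : Hil d S), kk j' (ket q : Hil d S)⟫_ℂ = if j = j' ∧ p = q then 1 else 0 := by
  rw [inner_kk, inner_ket_ket]
  by_cases h1 : j = j' <;> by_cases h2 : p = q <;> simp [h1, h2]

lemma prefactor (N : ℕ) (hN : 0 < N) (c : ℂ) :
    (starRingEnd ℂ) ((1 / Real.sqrt N : ℝ) : ℂ) * (((1 / Real.sqrt N : ℝ) : ℂ) * c) = ((1 / N : ℝ) : ℂ) * c := by
  rw [Complex.conj_ofReal, ← mul_assoc, ← Complex.ofReal_mul]
  congr 2
  have h : (0 : ℝ) ≤ N := Nat.cast_nonneg N
  rw [div_mul_div_comm, Real.mul_self_sqrt h, one_mul]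

open Classical in
theorem inner_VV (lab : Option (Nd d S) × Gm d × ℤ → J) (hlab : Function.Injective lab) (N : ℕ) (hN : 0 < N)
    (x y : Pnt d S) : ⟪VV lab N x, VV lab N y⟫_ℂ = if x = y then 1 else 0 := by
  have hN' : (N : ℝ) ≠ 0 := by positivity
  rw [VV, VV, inner_smul_left, inner_smul_right, prefactor N hN, sum_inner]
  simp only [inner_sum, inner_term]
  by_cases hxy : x = y
  · subst hxy
    rw [if_pos rfl]
    have h1 : ∀ k k' : ℕ, (lab (x.1, dp x.2 k, lv x.2 k) = lab (x.1, dp x.2 k', lv x.2 k') ∧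
        ((none, tk x.2 k) : Pnt d S) = (none, tk x.2 k')) ↔ k = k' := by
      intro k k'
      constructor
      · rintro ⟨h, -⟩
        have h2 := hlab h
        simp only [Prod.mk.injEq, lv] at h2
        have h3 := h2.2.2
        omega
      · rintro rfl
        exact ⟨rfl, rfl⟩
    simp only [h1]
    have h2 : ∀ k ∈ Finset.range N, (∑ k' ∈ Finset.range N, if k = k' then (1 : ℂ) else 0) = 1 := by
      intro k hk
      rw [Finset.sum_ite_eq, if_pos hk]
    rw [Finset.sum_congr rfl h2, Finset.sum_const, Finset.card_range, nsmul_eq_mul, mul_one]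
    rw [show ((1 / (N : ℝ) : ℝ) : ℂ) * (N : ℂ) = ((1 / (N : ℝ) * (N : ℝ) : ℝ) : ℂ) by push_cast; ring]
    rw [one_div, inv_mul_cancel₀ hN', Complex.ofReal_one]
  · rw [if_neg hxy]
    rw [Finset.sum_eq_zero, mul_zero]
    intro k _
    refine Finset.sum_eq_zero fun k' _ => ?_
    rw [if_neg]
    rintro ⟨h, h'⟩
    apply hxy
    have h2 := hlab h
    simp only [Prod.mk.injEq] at h2 h'
    refine Prod.ext h2.1 ?_
    rw [← tk_mul_dp x.2 k, ← tk_mul_dp y.2 k', h2.2.1, h'.2]

lemma word_cases {d : ℕ} (i : Fin d) (g : Gm d) :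
    (FreeGroup.of i * g).toWord = (i, true) :: g.toWord ∨
      g.toWord = (i, false) :: (FreeGroup.of i * g).toWord := by
  classical
  have h1 : FreeGroup.of i * g = FreeGroup.mk ((i, true) :: g.toWord) := by
    conv_lhs => rw [← FreeGroup.mk_toWord (x := g)]
    rfl
  have h2 : FreeGroup.reduce g.toWord = g.toWord := FreeGroup.reduce_toWord g
  rw [h1, FreeGroup.toWord_mk, FreeGroup.reduce.cons, h2]
  rcases hw : g.toWord with _ | ⟨⟨a, b⟩, t⟩
  · left; rfl
  · simp only
    by_cases hc : i = a ∧ true = !b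
    · right
      rw [if_pos hc]
      obtain ⟨rfl, hb⟩ := hc
      have hb' : b = false := by
        cases b
        · rfl
        · exact absurd hb (by decide)
      rw [hb']
    · left
      rw [if_neg hc]

lemma sum_shift (N : ℕ) (hN : 0 < N) :
    (∑ k ∈ Finset.range N, ∑ k' ∈ Finset.range N, if k' = k + 1 then (1 : ℂ) else 0) = (N : ℂ) - 1 := by
  obtain ⟨M, rfl⟩ : ∃ M, N = M + 1 := ⟨N - 1, by omega⟩
  rw [Finset.sum_range_succ]
  have h1 : ∀ k ∈ Finset.range M, (∑ k' ∈ Finset.range (M + 1), if k' = k + 1 then (1 : ℂ) else 0) = 1 := by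
    intro k hk
    rw [Finset.mem_range] at hk
    rw [Finset.sum_ite_eq', if_pos (Finset.mem_range.mpr (by omega))]
  have h2 : (∑ k' ∈ Finset.range (M + 1), if k' = M + 1 then (1 : ℂ) else 0) = 0 := by
    rw [Finset.sum_ite_eq', if_neg (by simp)]
  rw [Finset.sum_congr rfl h1, h2]
  simp

lemma sum_shift' (N : ℕ) (hN : 0 < N) :
    (∑ k ∈ Finset.range N, ∑ k' ∈ Finset.range N, if k = k' + 1 then (1 : ℂ) else 0) = (N : ℂ) - 1 := by
  rw [Finset.sum_comm]
  exact sum_shift N hN

open Classical in
theorem inner_amp_VV (lab : Option (Nd d S) × Gm d × ℤ → J) (hlab : Function.Injective lab) (N : ℕ) (hN : 0 < N)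
    (i : Fin d) (x y : Pnt d S) :
    ⟪ampFun (Lam (FreeGroup.of i)) (VV lab N x), VV lab N y⟫_ℂ =
      if y = (x.1, FreeGroup.of i * x.2) then (((N - 1) / N : ℝ) : ℂ) else 0 := by
  have hN' : (N : ℝ) ≠ 0 := by positivity
  rw [VV, VV, ampFun_smul, ampFun_sum]
  simp only [ampFun_kk, Lam_ket]
  rw [inner_smul_left, inner_smul_right, prefactor N hN, sum_inner]
  simp only [inner_sum, inner_term]
  have hfin : ((1 / (N : ℝ) : ℝ) : ℂ) * ((N : ℂ) - 1) = ((((N : ℝ) - 1) / N : ℝ) : ℂ) := by
    push_cast; ring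
  by_cases hxy : y = (x.1, FreeGroup.of i * x.2)
  · rw [if_pos hxy, ← hfin]
    congr 1
    subst hxy
    simp only
    obtain ⟨s, g⟩ := x
    simp only
    rcases word_cases i g with hw | hw
    · rw [← sum_shift N hN]
      refine Finset.sum_congr rfl fun k _ => Finset.sum_congr rfl fun k' _ => ?_
      congr 1
      rw [eq_iff_iff]
      constructor
      · rintro ⟨h, -⟩
        have h2 := hlab h
        simp only [Prod.mk.injEq, lv, hw, List.length_cons] at h2
        have h3 := h2.2.2
        push_cast at h3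
        omega
      · rintro rfl
        refine ⟨?_, ?_⟩
        · congr 1
          simp only [Prod.mk.injEq, lv, dp, hw, List.length_cons, List.drop_succ_cons, true_and]
          push_cast
          omega
        · simp only [Prod.mk.injEq, tk, hw, List.take_succ_cons, true_and]
          rfl
    · rw [← sum_shift' N hN]
      refine Finset.sum_congr rfl fun k _ => Finset.sum_congr rfl fun k' _ => ?_
      congr 1
      rw [eq_iff_iff]
      have hl : g.toWord.length = (FreeGroup.of i * g).toWord.length + 1 := by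
        conv_lhs => rw [hw]
        rfl
      constructor
      · rintro ⟨h, -⟩
        have h2 := hlab h
        simp only [Prod.mk.injEq, lv, hl] at h2
        have h3 := h2.2.2
        push_cast at h3
        omega
      · rintro rfl
        refine ⟨?_, ?_⟩
        · congr 1
          have h4 : dp g (k' + 1) = dp (FreeGroup.of i * g) k' := by
            rw [dp, dp]
            conv_lhs => rw [hw]
            rfl
          have h5 : lv g (k' + 1) = lv (FreeGroup.of i * g) k' := by
            rw [lv, lv, hl]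
            push_cast
            omega
          rw [h4, h5]
        · have h6 : FreeGroup.of i * tk g (k' + 1) = tk (FreeGroup.of i * g) k' := by
            rw [tk, tk]
            conv_lhs => rw [hw]
            rw [List.take_succ_cons, FreeGroup.of, FreeGroup.mul_mk]
            apply Quot.sound
            exact FreeGroup.Red.Step.not (L₁ := []) (b := true)
          rw [h6]
  · rw [if_neg hxy]
    rw [Finset.sum_eq_zero, mul_zero]
    intro k _
    refine Finset.sum_eq_zero fun k' _ => ?_
    rw [if_neg]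
    rintro ⟨h, h'⟩
    apply hxy
    have h2 := hlab h
    simp only [Prod.mk.injEq] at h2 h'
    refine Prod.ext h2.1.symm ?_
    show y.2 = FreeGroup.of i * x.2
    rw [← tk_mul_dp y.2 k', ← h2.2.1, ← h'.2, mul_assoc, tk_mul_dp]

end vv

end Pool.Agent.Helper234.Exact
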