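import Pool.Agent.Helper234.Exact.Y1

set_option autoImplicit false
open scoped ComplexOrder ENNReal InnerProductSpace

namespace Pool.Agent.Helper234.Exact


open Classical in
/-- mixing two partially defined isometric intertwiners -/
theorem mix {P K : Type} [NormedAddCommGroup K] [InnerProductSpace ℂ K] [CompleteSpace K]
    (A : K → K) (hAadd : ∀ v w, A (v + w) = A v + A w) (hAsmul : ∀ (c : ℂ) v, A (c • v) = c • A v)
    (hA : ∀ v w, ⟪A v, A w⟫_ℂ = ⟪v, w⟫_ℂ) (π : P → P) (hπ : Function.Injective π)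
    (v1 v2 : P → K) (θ : P → ℝ) (κ δ : ℝ)
    (h11 : ∀ x y, ⟪v1 x, v1 y⟫_ℂ = if x = y then 1 else 0)
    (h22 : ∀ x y, Real.cos (θ x) ≠ 0 → Real.cos (θ y) ≠ 0 → ⟪v2 x, v2 y⟫_ℂ = if x = y then 1 else 0)
    (h12 : ∀ x y, ⟪v1 x, v2 y⟫_ℂ = 0)
    (hA11 : ∀ x y, ⟪A (v1 x), v1 y⟫_ℂ = if y = π x then (κ : ℂ) else 0)
    (hA22 : ∀ x y, Real.cos (θ x) ≠ 0 → Real.cos (θ y) ≠ 0 →
      ⟪A (v2 x), v2 y⟫_ℂ = if y = π x then 1 else 0)
    (hA12 : ∀ x y, ⟪A (v1 x), v2 y⟫_ℂ = 0) (hA21 : ∀ x y, ⟪A (v2 x), v1 y⟫_ℂ = 0)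
    (hθ : ∀ x, |θ x - θ (π x)| ≤ δ) (hδ : 0 ≤ δ) (hκ : 1 - δ ^ 2 ≤ κ) (hκ1 : κ ≤ 1)
    (hsin : ∀ x, 0 ≤ Real.sin (θ x)) :
    ∃ hv : Orthonormal ℂ (fun x => ((Real.sin (θ x) : ℝ) : ℂ) • v1 x + ((Real.cos (θ x) : ℝ) : ℂ) • v2 x),
      ∀ (U : L2 P →L[ℂ] L2 P), (∀ x, U (ket x) = ket (π x)) → ∀ f : L2 P,
        ‖A (iso _ hv f) - iso _ hv (U f)‖ ≤ 2 * δ * ‖f‖ := by
  have h21 : ∀ x y, ⟪v2 x, v1 y⟫_ℂ = 0 := by
    intro x y
    rw [← inner_conj_symm, h12, map_zero]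
  set Om : P → K := fun x => ((Real.sin (θ x) : ℝ) : ℂ) • v1 x + ((Real.cos (θ x) : ℝ) : ℂ) • v2 x
    with hOmdef
  have hOm : ∀ x y, ⟪Om x, Om y⟫_ℂ = if x = y then 1 else 0 := by
    intro x y
    have key : ((Real.cos (θ x) : ℝ) : ℂ) * (((Real.cos (θ y) : ℝ) : ℂ) * ⟪v2 x, v2 y⟫_ℂ)
        = if x = y then ((Real.cos (θ x) : ℝ) : ℂ) * ((Real.cos (θ y) : ℝ) : ℂ) else 0 := by
      by_cases hx : Real.cos (θ x) = 0
      · simp only [hx, Complex.ofReal_zero, zero_mul, ite_self]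
      by_cases hy : Real.cos (θ y) = 0
      · simp only [hy, Complex.ofReal_zero, zero_mul, mul_zero, ite_self]
      rw [h22 x y hx hy]
      split_ifs <;> simp
    simp only [hOmdef, inner_add_left, inner_add_right, inner_smul_left, inner_smul_right,
      Complex.conj_ofReal, h11, h12, h21, mul_zero, zero_add, add_zero]
    rw [mul_left_comm ((Real.cos (θ y) : ℝ) : ℂ), key]
    by_cases hxy : x = y
    · subst hxy
      simp only [if_true, mul_one]
      have := Real.sin_sq_add_cos_sq (θ x)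
      rw [← Complex.ofReal_mul, ← Complex.ofReal_mul, ← Complex.ofReal_add, ← Complex.ofReal_one]
      congr 1
      nlinarith [this]
    · simp [hxy]
  have hv : Orthonormal ℂ Om := by
    rw [orthonormal_iff_ite]
    exact hOm
  refine ⟨hv, ?_⟩
  intro U hU f
  have hAOm : ∀ x, A (Om x) = ((Real.sin (θ x) : ℝ) : ℂ) • A (v1 x)
      + ((Real.cos (θ x) : ℝ) : ℂ) • A (v2 x) := by
    intro x
    simp only [hOmdef, hAadd, hAsmul]
  have hAinner : ∀ x y, ⟪A (Om x), Om y⟫_ℂ = if y = π x then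
      ((Real.sin (θ x) * Real.sin (θ y) * κ + Real.cos (θ x) * Real.cos (θ y) : ℝ) : ℂ) else 0 := by
    intro x y
    have key : ((Real.cos (θ x) : ℝ) : ℂ) * (((Real.cos (θ y) : ℝ) : ℂ) * ⟪A (v2 x), v2 y⟫_ℂ)
        = if y = π x then ((Real.cos (θ x) : ℝ) : ℂ) * ((Real.cos (θ y) : ℝ) : ℂ) else 0 := by
      by_cases hx : Real.cos (θ x) = 0
      · simp only [hx, Complex.ofReal_zero, zero_mul, ite_self]
      by_cases hy : Real.cos (θ y) = 0
      · simp only [hy, Complex.ofReal_zero, zero_mul, mul_zero, ite_self]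
      rw [hA22 x y hx hy]
      split_ifs <;> simp
    rw [hAOm]
    simp only [hOmdef, inner_add_left, inner_add_right, inner_smul_left, inner_smul_right,
      Complex.conj_ofReal, hA11, hA12, hA21, mul_zero, zero_add, add_zero]
    rw [mul_left_comm ((Real.cos (θ y) : ℝ) : ℂ), key]
    by_cases hxy : y = π x
    · simp only [hxy, if_true]
      push_cast
      ring
    · simp [hxy]
  let AL : K →ₗ[ℂ] K :=
    { toFun := A
      map_add' := hAadd
      map_smul' := hAsmul }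
  let AI : K →ₗᵢ[ℂ] K := AL.isometryOfInner hA
  have hAI : ∀ v, AI v = A v := fun v => rfl
  let W := iso Om hv
  have hWket : ∀ x, W (ket x) = Om x := fun x => iso_ket Om hv x
  let T : L2 P →L[ℂ] K := AI.toContinuousLinearMap ∘L W.toContinuousLinearMap
    - W.toContinuousLinearMap ∘L U
  have hT : ∀ g, T g = A (W g) - W (U g) := fun g => rfl
  set Del : P → K := fun x => A (Om x) - Om (π x) with hDel
  have hTket : ∀ x, T (ket x) = Del x := by
    intro x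
    rw [hT, hU, hWket, hWket]
  have horth : ∀ x y, x ≠ y → ⟪Del x, Del y⟫_ℂ = 0 := by
    intro x y hxy
    simp only [hDel, inner_sub_left, inner_sub_right]
    rw [hA, hOm, hOm, hAinner]
    rw [← inner_conj_symm (Om (π x)) (A (Om y)), hAinner]
    have h1 : π x ≠ π y := fun h => hxy (hπ h)
    rw [if_neg hxy, if_neg h1, if_neg h1, if_neg h1.symm]
    simp
  have hDelnorm : ∀ x, ‖Del x‖ ^ 2 ≤ (2 * δ) ^ 2 := by
    intro x
    have h1 : ‖A (Om x)‖ ^ 2 = 1 := by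
      have := inner_self_eq_norm_sq_to_K (𝕜 := ℂ) (A (Om x))
      rw [hA, hOm, if_pos rfl] at this
      have h3 : ((1 : ℝ) : ℂ) = ((‖A (Om x)‖ ^ 2 : ℝ) : ℂ) := by
        push_cast
        exact this
      exact (Complex.ofReal_injective h3).symm
    have h2 : ‖Om (π x)‖ ^ 2 = 1 := by
      have := inner_self_eq_norm_sq_to_K (𝕜 := ℂ) (Om (π x))
      rw [hOm, if_pos rfl] at this
      have h3 : ((1 : ℝ) : ℂ) = ((‖Om (π x)‖ ^ 2 : ℝ) : ℂ) := by
        push_cast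
        exact this
      exact (Complex.ofReal_injective h3).symm
    have h3 := norm_sub_sq (𝕜 := ℂ) (A (Om x)) (Om (π x))
    rw [h1, h2, hAinner, if_pos rfl] at h3
    have h4 : RCLike.re ((Real.sin (θ x) * Real.sin (θ (π x)) * κ
        + Real.cos (θ x) * Real.cos (θ (π x)) : ℝ) : ℂ) = Real.sin (θ x) * Real.sin (θ (π x)) * κ
        + Real.cos (θ x) * Real.cos (θ (π x)) := Complex.ofReal_re _
    rw [h4] at h3
    show ‖A (Om x) - Om (π x)‖ ^ 2 ≤ _
    rw [h3]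
    have h5 : Real.cos (θ x - θ (π x)) = Real.cos (θ x) * Real.cos (θ (π x))
        + Real.sin (θ x) * Real.sin (θ (π x)) := Real.cos_sub _ _
    have h6 := Real.one_sub_sq_div_two_le_cos (x := θ x - θ (π x))
    have h7 : (θ x - θ (π x)) ^ 2 ≤ δ ^ 2 := by
      rw [← sq_abs]
      exact pow_le_pow_left₀ (abs_nonneg _) (hθ x) 2
    have h8 : 0 ≤ Real.sin (θ x) * Real.sin (θ (π x)) := mul_nonneg (hsin _) (hsin _)
    have h9 : Real.sin (θ x) * Real.sin (θ (π x)) ≤ 1 := by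
      have a1 := Real.sin_le_one (θ x)
      have a2 := Real.sin_le_one (θ (π x))
      nlinarith [hsin x, hsin (π x)]
    nlinarith [mul_nonneg h8 (by linarith : (0 : ℝ) ≤ 1 - κ)]
  have hfin : ∀ s : Finset P, ‖∑ x ∈ s, f x • Del x‖ ^ 2 = ∑ x ∈ s, ‖f x‖ ^ 2 * ‖Del x‖ ^ 2 := by
    intro s
    induction s using Finset.induction_on with
    | empty => simp
    | insert a s ha ih =>
      rw [Finset.sum_insert ha, Finset.sum_insert ha, ← ih]
      have : ⟪f a • Del a, ∑ x ∈ s, f x • Del x⟫_ℂ = 0 := by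
        rw [inner_sum]
        apply Finset.sum_eq_zero
        intro x hx
        rw [inner_smul_left, inner_smul_right, horth a x (by rintro rfl; exact ha hx)]
        simp
      rw [sq, norm_add_sq_eq_norm_sq_add_norm_sq_of_inner_eq_zero _ _ this, ← sq, ← sq, norm_smul,
        mul_pow]
  have hfin2 : ∀ s : Finset P, ‖∑ x ∈ s, f x • Del x‖ ≤ 2 * δ * ‖f‖ := by
    intro s
    have h1 : ∑ x ∈ s, ‖f x‖ ^ 2 ≤ ‖f‖ ^ 2 := by
      have := lp.sum_rpow_le_norm_rpow (p := 2) (by norm_num) f s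
      simpa using this
    have h2 : ‖∑ x ∈ s, f x • Del x‖ ^ 2 ≤ (2 * δ * ‖f‖) ^ 2 := by
      rw [hfin]
      calc ∑ x ∈ s, ‖f x‖ ^ 2 * ‖Del x‖ ^ 2 ≤ ∑ x ∈ s, ‖f x‖ ^ 2 * (2 * δ) ^ 2 := by
            apply Finset.sum_le_sum
            intro x _
            exact mul_le_mul_of_nonneg_left (hDelnorm x) (by positivity)
        _ = (∑ x ∈ s, ‖f x‖ ^ 2) * (2 * δ) ^ 2 := by rw [Finset.sum_mul]
        _ ≤ ‖f‖ ^ 2 * (2 * δ) ^ 2 := mul_le_mul_of_nonneg_right h1 (by positivity)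
        _ = (2 * δ * ‖f‖) ^ 2 := by ring
    exact (pow_le_pow_iff_left₀ (norm_nonneg _) (by positivity) (by norm_num)).mp h2
  have hsum : HasSum (fun x => f x • Del x) (T f) := by
    have h1 := (hasSum_ket f).mapL T
    simp only [map_smul, hTket] at h1
    exact h1
  rw [show A (iso _ hv f) - iso _ hv (U f) = T f from rfl]
  have hten : Filter.Tendsto (fun s : Finset P => ‖∑ x ∈ s, f x • Del x‖) Filter.atTop
      (nhds ‖T f‖) := by
    exact hsum.norm
  exact le_of_tendsto hten (Filter.Eventually.of_forall hfin2)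

end Pool.Agent.Helper234.Exact
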