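import Pool.Agent.Helper234.Exact.Z2
import Pool.Agent.Helper234.Exact.Z3

set_option autoImplicit false
open scoped ComplexOrder ENNReal InnerProductSpace

namespace Pool.Agent.Helper234.Exact

variable {d : ℕ} {S : Dat}

/-- labels -/
abbrev JJ (d : ℕ) (S : Dat) : Type := (Option (Nd d S) × Gm d × ℤ) ⊕ (Nd d S × Option (Σ n, S.Q n))

/-- the amplified Hilbert space -/
abbrev KK (d : ℕ) (S : Dat) : Type := lp (fun _ : JJ d S => Hil d S) 2

/-- centers -/
inductive Ctr (d : ℕ) (S : Dat) : Type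
  | base (σ : Nd d S) : Ctr d S
  | slot (b : Br d S) (n : ℕ) (q : S.Q n) (z : Fin 16) : Ctr d S

/-- block of a center -/
def Ctr.blk : Ctr d S → Nd d S
  | .base σ => σ
  | .slot b n _ _ => node b n

/-- position of a center in its block -/
def Ctr.pos : Ctr d S → Gm d
  | .base _ => 1
  | .slot b n q z => ps b n (q, z)

variable (d S)

/-- parameters of the construction of the approximate intertwiner -/
structure Par where
  Th : Finset (Br d S)
  SB : Finset (Nd d S)
  n1 : ℕ
  q0 : S.Q n1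
  M : ℕ
  r : ℕ
  h1 : ∀ b ∈ Th, ∀ b' ∈ Th, node b n1 = node b' n1 → b = b'
  h2 : ∀ b ∈ Th, ∀ n, n1 ≤ n → node b n ∉ SB
  h3 : ∀ b ∈ Th, ∀ n, n < n1 → node b n ∈ SB
  h4 : ∀ b ∈ Th, ∀ n, n < n1 → ∀ p, FreeGroup.norm (ps b n p) ≤ r
  h5 : 2 * (M + 1) ≤ n1
  h6 : 0 < M

variable {d S}

/-- admissible centers -/
def Ctr.ok (p : Par d S) : Ctr d S → Prop
  | .base σ => σ ∈ p.SB
  | .slot b n _ _ => b ∈ p.Th ∧ p.n1 ≤ n

/-- radius of the frozen ball around a center -/
def Ctr.rad (p : Par d S) : Ctr d S → ℕ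
  | .base _ => p.r
  | .slot _ _ _ _ => 0

/-- vectors attached to centers -/
noncomputable def C0 (p : Par d S) : Ctr d S → KK d S
  | .base σ => kk (Sum.inr (σ, none)) (ket (some σ, 1))
  | .slot b n q z => ∑ q', S.O n z q' q • kk (Sum.inr (node b n, some ⟨n, q'⟩)) (wv b z ⟨p.n1, p.q0⟩)

/-- a point written as a translate of a center -/
def Rep (p : Par d S) (x : Pnt d S) (g : Gm d) (c : Ctr d S) : Prop := c.ok p ∧ x = (some c.blk, g * c.pos)

/-- a point written as a close translate of a center -/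
def GRep (p : Par d S) (x : Pnt d S) (g : Gm d) (c : Ctr d S) : Prop :=
  Rep p x g c ∧ FreeGroup.norm g ≤ p.M + 1 + c.rad p

open Classical in
/-- the vectors near the centers -/
noncomputable def CC (p : Par d S) (x : Pnt d S) : KK d S :=
  if h : ∃ g c, GRep p x g c then ampFun (Lam h.choose) (C0 p h.choose_spec.choose) else 0

/-- distance to the centers -/
noncomputable def Dd (p : Par d S) (x : Pnt d S) : ℕ :=
  sInf {k | k = p.M ∨ ∃ g c, Rep p x g c ∧ k = FreeGroup.norm g - c.rad p}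

/-- the angle -/
noncomputable def ang (p : Par d S) (δ : ℝ) (x : Pnt d S) : ℝ := min (Dd p x * δ) (Real.pi / 2)

/-- the vectors at infinity -/
noncomputable def V1 (N : ℕ) (x : Pnt d S) : KK d S := VV (J := JJ d S) Sum.inl N x

/-- the combined vectors -/
noncomputable def Om (p : Par d S) (N : ℕ) (δ : ℝ) (x : Pnt d S) : KK d S :=
  ((Real.sin (ang p δ x) : ℝ) : ℂ) • V1 N x + ((Real.cos (ang p δ x) : ℝ) : ℂ) • CC p x

end Pool.Agent.Helper234.Exact
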