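import Pool.Agent.Helper234.Exact.Z4

set_option autoImplicit false
open scoped ComplexOrder ENNReal InnerProductSpace

namespace Pool.Agent.Helper234.Exact.Z5

open Pool.Agent.Helper234.Exact

variable {d : ℕ} {S : Dat}

theorem G1_node (p : Par d S) {b b' : Br d S} (hb : b ∈ p.Th) (hb' : b' ∈ p.Th) {n n' : ℕ}
    (hn : p.n1 ≤ n) (h : node b n = node b' n') : n = n' ∧ b = b' := by
  have h1 : n = n' := congrArg Sigma.fst h
  refine ⟨h1, ?_⟩
  subst h1
  apply p.h1 b hb b' hb'
  have h2 : (fun m : Fin n => b.1 m) = (fun m : Fin n => b'.1 m) := by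
    have := h
    unfold node at this
    exact eq_of_heq (Sigma.mk.inj_iff.1 this).2
  unfold node
  congr 1
  funext m
  exact congrFun h2 ⟨m.1, lt_of_lt_of_le m.2 hn⟩

theorem G1_ps (p : Par d S) (b : Br d S) {n : ℕ} (hn : p.n1 ≤ n) {g g' : Gm d}
    (hg : FreeGroup.norm g ≤ p.M + 1) (hg' : FreeGroup.norm g' ≤ p.M + 1)
    {x y : S.Q n × Fin 16} (h : g * ps b n x = g' * ps b n y) : x = y ∧ g = g' := by
  have h1 : (g'⁻¹ * g) * ps b n x = ps b n y := by
    rw [mul_assoc, h, ← mul_assoc, inv_mul_cancel, one_mul]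
  have h2 : FreeGroup.norm (g'⁻¹ * g) ≤ n := by
    have h3 := FreeGroup.norm_mul_le g'⁻¹ g
    rw [FreeGroup.norm_inv_eq] at h3
    have := p.h5
    omega
  have h3 : x = y := b.2 n x y _ h2 h1
  refine ⟨h3, ?_⟩
  subst h3
  exact mul_right_cancel h

/-- TARGET 1 -/
theorem rep_unique (p : Par d S) {x : Pnt d S} {g g' : Gm d} {c c' : Ctr d S} (h : GRep p x g c)
    (h' : GRep p x g' c') : g = g' ∧ c = c' := by
  obtain ⟨⟨hok, hx⟩, hn⟩ := h
  obtain ⟨⟨hok', hx'⟩, hn'⟩ := h'
  rw [hx] at hx'
  rw [Prod.mk.injEq, Option.some.injEq] at hx'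
  obtain ⟨h1, h2⟩ := hx'
  cases c with
  | base σ =>
    cases c' with
    | base σ' =>
      simp only [Ctr.blk, Ctr.pos, mul_one] at h1 h2
      exact ⟨h2, by rw [h1]⟩
    | slot b' n' q' z' =>
      simp only [Ctr.blk] at h1
      simp only [Ctr.ok] at hok hok'
      rw [h1] at hok
      exact absurd hok (p.h2 b' hok'.1 n' hok'.2)
  | slot b n q z =>
    cases c' with
    | base σ' =>
      simp only [Ctr.blk] at h1
      simp only [Ctr.ok] at hok hok'
      rw [← h1] at hok'
      exact absurd hok' (p.h2 b hok.1 n hok.2)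
    | slot b' n' q' z' =>
      simp only [Ctr.blk, Ctr.pos, Ctr.rad, Ctr.ok, add_zero] at h1 h2 hn hn' hok hok'
      obtain ⟨e1, e2⟩ := G1_node p hok.1 hok'.1 hok.2 h1
      subst e1
      subst e2
      obtain ⟨e3, e4⟩ := G1_ps p b hok.2 hn hn' h2
      rw [Prod.mk.injEq] at e3
      exact ⟨e4, by rw [e3.1, e3.2]⟩

open Classical in
theorem G1_wv (p : Par d S) (b : Br d S) {g g' : Gm d}
    (hg : FreeGroup.norm g ≤ p.M + 1) (hg' : FreeGroup.norm g' ≤ p.M + 1) (z z' : Fin 16) :
    ⟪(Lam g (wv b z ⟨p.n1, p.q0⟩) : Hil d S), Lam g' (wv b z' ⟨p.n1, p.q0⟩)⟫_ℂ =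
      if g = g' ∧ z = z' then 1 else 0 := by
  have h1 : ∀ (g : Gm d) (z : Fin 16), (Lam g (wv b z ⟨p.n1, p.q0⟩) : Hil d S) =
      ∑ x : S.Q p.n1, S.O p.n1 z x p.q0 • ket (some (node b p.n1), g * ps b p.n1 (x, z)) := by
    intro g z
    have : (wv b z ⟨p.n1, p.q0⟩ : Hil d S) =
      ∑ x : S.Q p.n1, S.O p.n1 z x p.q0 • ket (some (node b p.n1), ps b p.n1 (x, z)) := rfl
    rw [this, map_sum]
    refine Finset.sum_congr rfl fun x _ => ?_
    rw [map_smul, Lam_ket]
  rw [h1, h1, sum_inner]
  simp only [inner_sum, inner_smul_left, inner_smul_right, inner_ket_ket]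
  have h2 : ∀ x y : S.Q p.n1, ((some (node b p.n1), g * ps b p.n1 (x, z)) : Pnt d S) =
      (some (node b p.n1), g' * ps b p.n1 (y, z')) ↔ ((g = g' ∧ z = z') ∧ x = y) := by
    intro x y
    constructor
    · intro h
      rw [Prod.mk.injEq] at h
      obtain ⟨e3, e4⟩ := G1_ps p b le_rfl hg hg' h.2
      rw [Prod.mk.injEq] at e3
      exact ⟨⟨e4, e3.2⟩, e3.1⟩
    · rintro ⟨⟨rfl, rfl⟩, rfl⟩
      rfl
  simp only [h2]
  by_cases hgz : g = g' ∧ z = z'
  · obtain ⟨rfl, rfl⟩ := hgz
    simp only [and_self, true_and, if_true]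
    have h3 := S.O_sq p.n1 z p.q0 p.q0
    rw [if_pos rfl] at h3
    refine Eq.trans ?_ h3
    refine Finset.sum_congr rfl fun x _ => ?_
    rw [Finset.sum_eq_single x]
    · rw [if_pos rfl, S.O_star]; ring
    · intro y _ hy
      rw [if_neg (fun h => hy h.symm)]; ring
    · simp
  · rw [if_neg hgz]
    refine Finset.sum_eq_zero fun x _ => Finset.sum_eq_zero fun y _ => ?_
    rw [if_neg (fun h => hgz h.1)]
    ring

theorem G1_amp_base (p : Par d S) (g : Gm d) (σ : Nd d S) :
    ampFun (Lam g) (C0 p (.base σ)) = kk (Sum.inr (σ, none)) (ket (some σ, g)) := by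
  have : C0 p (.base σ) = kk (Sum.inr (σ, none)) (ket (some σ, 1)) := rfl
  rw [this, ampFun_kk, Lam_ket, mul_one]

theorem G1_amp_slot (p : Par d S) (g : Gm d) (b : Br d S) (n : ℕ) (q : S.Q n) (z : Fin 16) :
    ampFun (Lam g) (C0 p (.slot b n q z)) =
      ∑ q', S.O n z q' q • kk (Sum.inr (node b n, some ⟨n, q'⟩)) (Lam g (wv b z ⟨p.n1, p.q0⟩)) := by
  have : C0 p (.slot b n q z) =
    ∑ q', S.O n z q' q • kk (Sum.inr (node b n, some ⟨n, q'⟩)) (wv b z ⟨p.n1, p.q0⟩) := rfl
  rw [this, ampFun_sum]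
  refine Finset.sum_congr rfl fun x _ => ?_
  rw [ampFun_smul, ampFun_kk]

open Classical in
/-- TARGET 2 -/
theorem inner_C (p : Par d S) {g g' : Gm d} {c c' : Ctr d S} (hc : c.ok p) (hc' : c'.ok p)
    (hg : FreeGroup.norm g ≤ p.M + 1 + c.rad p) (hg' : FreeGroup.norm g' ≤ p.M + 1 + c'.rad p) :
    ⟪ampFun (Lam g) (C0 p c), ampFun (Lam g') (C0 p c')⟫_ℂ = if g = g' ∧ c = c' then 1 else 0 := by
  cases c with
  | base σ =>
    cases c' with
    | base σ' =>
      rw [G1_amp_base, G1_amp_base, inner_kk, inner_ket_ket]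
      by_cases h1 : σ = σ'
      · subst h1
        rw [if_pos rfl]
        by_cases h2 : g = g'
        · subst h2
          rw [if_pos rfl, if_pos ⟨rfl, rfl⟩]
        · rw [if_neg, if_neg (fun h => h2 h.1)]
          intro h
          exact h2 (Prod.mk.inj h).2
      · rw [if_neg, if_neg]
        · rintro ⟨-, h⟩
          exact h1 (Ctr.base.inj h)
        · intro h
          exact h1 (Prod.mk.inj (Sum.inr.inj h)).1
    | slot b' n' q' z' =>
      rw [G1_amp_base, G1_amp_slot, inner_sum]
      rw [if_neg (by rintro ⟨-, h⟩; cases h)]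
      refine Finset.sum_eq_zero fun x _ => ?_
      rw [inner_smul_right, inner_kk, if_neg, mul_zero]
      intro h
      have h5 := (Prod.mk.inj (Sum.inr.inj h)).2
      cases h5
  | slot b n q z =>
    cases c' with
    | base σ' =>
      rw [G1_amp_base, G1_amp_slot, sum_inner]
      rw [if_neg (by rintro ⟨-, h⟩; cases h)]
      refine Finset.sum_eq_zero fun x _ => ?_
      rw [inner_smul_left, inner_kk, if_neg, mul_zero]
      intro h
      have h5 := (Prod.mk.inj (Sum.inr.inj h)).2
      cases h5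
    | slot b' n' q' z' =>
      simp only [Ctr.rad, Ctr.ok, add_zero] at hg hg' hc hc'
      rw [G1_amp_slot, G1_amp_slot, sum_inner]
      simp only [inner_sum, inner_smul_left, inner_smul_right, inner_kk]
      by_cases hnode : node b n = node b' n'
      · obtain ⟨e1, e2⟩ := G1_node p hc.1 hc'.1 hc.2 hnode
        subst e1
        subst e2
        have hlab : ∀ a a' : S.Q n, ((Sum.inr (node b n, some ⟨n, a⟩) : JJ d S) =
            Sum.inr (node b n, some ⟨n, a'⟩)) ↔ a = a' := by
          intro a a'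
          constructor
          · intro h
            have h2 := Option.some.inj (Prod.mk.inj (Sum.inr.inj h)).2
            exact eq_of_heq (Sigma.mk.inj_iff.1 h2).2
          · rintro rfl
            rfl
        simp only [hlab, G1_wv p b hg hg' z z']
        by_cases hgz : g = g' ∧ z = z'
        · obtain ⟨rfl, rfl⟩ := hgz
          have h3 := S.O_sq n z q q'
          have h4 : (if g = g ∧ Ctr.slot b n q z = Ctr.slot b n q' z then (1:ℂ) else 0) =
              if q = q' then 1 else 0 := by
            congr 1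
            rw [eq_iff_iff]
            constructor
            · rintro ⟨-, h⟩
              injection h
            · rintro rfl
              exact ⟨rfl, rfl⟩
          rw [h4, ← h3]
          refine Finset.sum_congr rfl fun x _ => ?_
          rw [Finset.sum_eq_single x]
          · rw [if_pos rfl, if_pos ⟨rfl, rfl⟩, S.O_star]; ring
          · intro y _ hy
            rw [if_neg (fun h => hy h.symm)]; ring
          · simp
        · have hR : (if g = g' ∧ Ctr.slot b n q z = Ctr.slot b n q' z' then (1:ℂ) else 0) = 0 := by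
            rw [if_neg]
            rintro ⟨h1, h2⟩
            apply hgz
            refine ⟨h1, ?_⟩
            injection h2
          rw [hR]
          refine Finset.sum_eq_zero fun x _ => Finset.sum_eq_zero fun y _ => ?_
          rw [if_neg hgz, ite_self]
          ring
      · rw [if_neg]
        · refine Finset.sum_eq_zero fun x _ => Finset.sum_eq_zero fun y _ => ?_
          rw [if_neg]
          · ring
          · intro h
            exact hnode (Prod.mk.inj (Sum.inr.inj h)).1
        · rintro ⟨-, h⟩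
          apply hnode
          have := congrArg Ctr.blk h
          exact this

end Pool.Agent.Helper234.Exact.Z5
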