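import Pool.Agent.Helper234.Exact.Z4

set_option autoImplicit false
open scoped ComplexOrder ENNReal InnerProductSpace

namespace Pool.Agent.Helper234.Exact.Z6

open Pool.Agent.Helper234.Exact

variable {d : ℕ} {S : Dat}

lemma Dd_mem (p : Par d S) (x : Pnt d S) :
    Dd p x = p.M ∨ ∃ g c, Rep p x g c ∧ Dd p x = FreeGroup.norm g - c.rad p := by
  have h := Nat.sInf_mem (s := {k | k = p.M ∨ ∃ g c, Rep p x g c ∧ k = FreeGroup.norm g - c.rad p})
    ⟨p.M, Or.inl rfl⟩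
  exact h

lemma Rep_mul {p : Par d S} {x : Pnt d S} {g : Gm d} {c : Ctr d S} (h : Rep p x g c) (k : Gm d) :
    Rep p (x.1, k * x.2) (k * g) c := by
  refine ⟨h.1, ?_⟩
  rw [h.2]
  simp only [mul_assoc]

lemma Dd_step (p : Par d S) (k : Gm d) (hk : FreeGroup.norm k ≤ 1) (x : Pnt d S) :
    Dd p (x.1, k * x.2) ≤ Dd p x + 1 := by
  rcases Dd_mem p x with h | ⟨g, c, h1, h2⟩
  · have h3 : Dd p (x.1, k * x.2) ≤ p.M := Nat.sInf_le (Or.inl rfl)
    omega
  · have h3 : Dd p (x.1, k * x.2) ≤ FreeGroup.norm (k * g) - c.rad p :=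
      Nat.sInf_le (Or.inr ⟨k * g, c, Rep_mul h1 k, rfl⟩)
    have h4 := FreeGroup.norm_mul_le k g
    omega

/-- TARGET 1 -/
theorem Dd_lip (p : Par d S) (i : Fin d) (x : Pnt d S) :
    Dd p (x.1, FreeGroup.of i * x.2) ≤ Dd p x + 1 ∧ Dd p x ≤ Dd p (x.1, FreeGroup.of i * x.2) + 1 := by
  constructor
  · exact Dd_step p _ (by rw [FreeGroup.norm_of]) x
  · have h := Dd_step p (FreeGroup.of i)⁻¹ (by rw [FreeGroup.norm_inv_eq, FreeGroup.norm_of])
      (x.1, FreeGroup.of i * x.2)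
    simp only [inv_mul_cancel_left] at h
    exact h

/-- TARGET 2 -/
theorem Dd_rep (p : Par d S) (x : Pnt d S) (h : Dd p x < p.M) :
    ∃ g c, Rep p x g c ∧ FreeGroup.norm g < p.M + c.rad p ∧ Dd p x = FreeGroup.norm g - c.rad p := by
  rcases Dd_mem p x with h1 | ⟨g, c, h1, h2⟩
  · omega
  · exact ⟨g, c, h1, by omega, h2⟩

lemma ampFun_Lam_inner (g : Gm d) (v w : KK d S) :
    ⟪ampFun (Lam g) v, ampFun (Lam g) w⟫_ℂ = ⟪v, w⟫_ℂ := by
  rw [lp.inner_eq_tsum, lp.inner_eq_tsum]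
  apply tsum_congr
  intro j
  exact (iso (fun x : Pnt d S => (ket (x.1, g * x.2) : Hil d S)) (orth_lam g)).inner_map_map
    (v j) (w j)

lemma ampFun_Lam_Lam (g h : Gm d) (v : KK d S) :
    ampFun (Lam g) (ampFun (Lam h) v) = ampFun (Lam (g * h)) v := by
  apply lp.ext
  funext j
  show Lam g (Lam h (v j)) = Lam (g * h) (v j)
  rw [← Lam_mul]
  rfl

lemma ampFun_Lam_one (v : KK d S) : ampFun (Lam 1) v = v := by
  apply lp.ext
  funext j
  show Lam 1 (v j) = v j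
  rw [Lam_one]
  rfl

lemma CC_eq (p : Par d S)
    (hu : ∀ {x : Pnt d S} {g g' : Gm d} {c c' : Ctr d S}, GRep p x g c → GRep p x g' c' → g = g' ∧ c = c')
    {x : Pnt d S} {g : Gm d} {c : Ctr d S} (h : GRep p x g c) :
    CC p x = ampFun (Lam g) (C0 p c) := by
  have hex : ∃ g c, GRep p x g c := ⟨g, c, h⟩
  obtain ⟨e1, e2⟩ := hu hex.choose_spec.choose_spec h
  rw [CC, dif_pos hex, e2, e1]

lemma CC_zero (p : Par d S) {x : Pnt d S} (h : ¬ ∃ g c, GRep p x g c) : CC p x = 0 := by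
  rw [CC, dif_neg h]

lemma ang_nonneg (p : Par d S) {δ : ℝ} (hδ : 0 < δ) (x : Pnt d S) : 0 ≤ ang p δ x :=
  le_min (by positivity) (by positivity)

lemma ang_le (p : Par d S) (δ : ℝ) (x : Pnt d S) : ang p δ x ≤ Real.pi / 2 := min_le_right _ _

lemma Dd_lt_of_cos (p : Par d S) {δ : ℝ} (hδ : 0 < δ) (hM : Real.pi / 2 ≤ p.M * δ) {x : Pnt d S}
    (h : Real.cos (ang p δ x) ≠ 0) : Dd p x < p.M := by
  by_contra hcon
  push Not at hcon
  apply h
  have h1 : Real.pi / 2 ≤ Dd p x * δ := by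
    refine hM.trans (mul_le_mul_of_nonneg_right ?_ hδ.le)
    exact_mod_cast hcon
  rw [ang, min_eq_right h1, Real.cos_pi_div_two]

open Classical in
/-- TARGET 3 -/
theorem mixed (p : Par d S) (N : ℕ) (hN : 0 < N) (δ : ℝ) (hδ : 0 < δ) (hM : Real.pi / 2 ≤ p.M * δ)
    (hNδ : 1 / (N : ℝ) ≤ δ ^ 2) (i0 : Fin d)
    (hu : ∀ {x : Pnt d S} {g g' : Gm d} {c c' : Ctr d S}, GRep p x g c → GRep p x g' c' → g = g' ∧ c = c')
    (hi : ∀ {g g' : Gm d} {c c' : Ctr d S}, c.ok p → c'.ok p → FreeGroup.norm g ≤ p.M + 1 + c.rad p →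
      FreeGroup.norm g' ≤ p.M + 1 + c'.rad p →
      ⟪ampFun (Lam g) (C0 p c), ampFun (Lam g') (C0 p c')⟫_ℂ = if g = g' ∧ c = c' then 1 else 0)
    (hd : ∀ (g g' : Gm d) (N : ℕ) (x : Pnt d S) (c : Ctr d S),
      ⟪ampFun (Lam g) (V1 N x), ampFun (Lam g') (C0 p c)⟫_ℂ = 0) :
    ∃ hv : Orthonormal ℂ (Om p N δ), ∀ (i : Fin d) (f : Hil d S),
      ‖ampFun (Lam (FreeGroup.of i)) (iso _ hv f) - iso _ hv (Lam (FreeGroup.of i) f)‖ ≤ 2 * δ * ‖f‖ := by
  have hNr : (0 : ℝ) < N := by exact_mod_cast hN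
  -- the vectors at infinity are orthogonal to the vectors near the centers
  have hd0 : ∀ (g : Gm d) (x y : Pnt d S), ⟪ampFun (Lam g) (V1 N x), CC p y⟫_ℂ = 0 := by
    intro g x y
    by_cases hy : ∃ g c, GRep p y g c
    · obtain ⟨g', c', h⟩ := hy
      rw [CC_eq p hu h]
      exact hd g g' N x c'
    · rw [CC_zero p hy, inner_zero_right]
  -- representation
  have hrep : ∀ x : Pnt d S, Real.cos (ang p δ x) ≠ 0 → ∃ g c, Rep p x g c ∧
      FreeGroup.norm g < p.M + c.rad p := by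
    intro x hx
    obtain ⟨g, c, h1, h2, _⟩ := Dd_rep p x (Dd_lt_of_cos p hδ hM hx)
    exact ⟨g, c, h1, h2⟩
  have main : ∀ i : Fin d, ∃ hv : Orthonormal ℂ (Om p N δ), ∀ (U : L2 (Pnt d S) →L[ℂ] L2 (Pnt d S)),
      (∀ x, U (ket x) = ket ((x.1, FreeGroup.of i * x.2) : Pnt d S)) → ∀ f : L2 (Pnt d S),
        ‖ampFun (Lam (FreeGroup.of i)) (iso _ hv f) - iso _ hv (U f)‖ ≤ 2 * δ * ‖f‖ := by
    intro i
    refine mix (P := Pnt d S) (K := KK d S) (ampFun (Lam (FreeGroup.of i)))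
      (fun v w => ampFun_add _ v w) (fun c v => ampFun_smul _ c v)
      (fun v w => ampFun_Lam_inner _ v w)
      (fun x => (x.1, FreeGroup.of i * x.2)) ?_ (V1 N) (CC p) (ang p δ) (((N : ℝ) - 1) / N) δ
      ?_ ?_ ?_ ?_ ?_ ?_ ?_ ?_ hδ.le ?_ ?_ ?_
    · -- injectivity
      intro x y hxy
      simp only [Prod.mk.injEq] at hxy
      exact Prod.ext hxy.1 (mul_left_cancel hxy.2)
    · -- h11
      intro x y
      refine (inner_VV (J := JJ d S) Sum.inl Sum.inl_injective N hN x y).trans ?_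
      congr
    · -- h22
      intro x y hx hy
      obtain ⟨g, c, h1, h2⟩ := hrep x hx
      obtain ⟨g', c', h1', h2'⟩ := hrep y hy
      have G1 : GRep p x g c := ⟨h1, by omega⟩
      have G2 : GRep p y g' c' := ⟨h1', by omega⟩
      rw [CC_eq p hu G1, CC_eq p hu G2, hi h1.1 h1'.1 (by omega) (by omega)]
      congr 1
      rw [eq_iff_iff]
      constructor
      · rintro ⟨rfl, rfl⟩
        rw [h1.2, h1'.2]
      · rintro rfl
        exact hu G1 G2
    · -- h12
      intro x y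
      have := hd0 1 x y
      rwa [ampFun_Lam_one] at this
    · -- hA11
      intro x y
      refine (inner_amp_VV (J := JJ d S) Sum.inl Sum.inl_injective N hN i x y).trans ?_
      congr
    · -- hA22
      intro x y hx hy
      obtain ⟨g, c, h1, h2⟩ := hrep x hx
      obtain ⟨g', c', h1', h2'⟩ := hrep y hy
      have G1 : GRep p x g c := ⟨h1, by omega⟩
      have G2 : GRep p y g' c' := ⟨h1', by omega⟩
      have hn : FreeGroup.norm (FreeGroup.of i * g) ≤ p.M + 1 + c.rad p := by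
        have h3 := FreeGroup.norm_mul_le (FreeGroup.of i) g
        rw [FreeGroup.norm_of] at h3
        omega
      rw [CC_eq p hu G1, CC_eq p hu G2, ampFun_Lam_Lam, hi h1.1 h1'.1 hn (by omega)]
      congr 1
      rw [eq_iff_iff]
      have R := Rep_mul h1 (FreeGroup.of i)
      constructor
      · rintro ⟨h3, rfl⟩
        rw [h1'.2, ← h3]
        exact R.2.symm
      · rintro rfl
        exact hu ⟨R, hn⟩ G2
    · -- hA12
      intro x y
      exact hd0 _ x y
    · -- hA21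
      intro x y
      by_cases hx : ∃ g c, GRep p x g c
      · obtain ⟨g', c', h⟩ := hx
        rw [CC_eq p hu h, ampFun_Lam_Lam, ← inner_conj_symm]
        have := hd 1 (FreeGroup.of i * g') N y c'
        rw [ampFun_Lam_one] at this
        rw [this, map_zero]
      · rw [CC_zero p hx, ampFun_zero, inner_zero_left]
    · -- hθ
      intro x
      obtain ⟨l1, l2⟩ := Dd_lip p i x
      have l1' : (Dd p (x.1, FreeGroup.of i * x.2) : ℝ) ≤ Dd p x + 1 := by exact_mod_cast l1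
      have l2' : (Dd p x : ℝ) ≤ Dd p (x.1, FreeGroup.of i * x.2) + 1 := by exact_mod_cast l2
      have h3 : |ang p δ x - ang p δ (x.1, FreeGroup.of i * x.2)| ≤
          |(Dd p x : ℝ) * δ - Dd p (x.1, FreeGroup.of i * x.2) * δ| := by
        have := abs_min_sub_min_le_max ((Dd p x : ℝ) * δ) (Real.pi / 2)
          ((Dd p (x.1, FreeGroup.of i * x.2) : ℝ) * δ) (Real.pi / 2)
        simpa [ang] using this
      refine h3.trans ?_
      rw [abs_le]
      constructor <;> nlinarith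
    · -- hκ
      have : ((N : ℝ) - 1) / N = 1 - 1 / N := by field_simp
      rw [this]; linarith
    · rw [div_le_one hNr]; linarith
    · intro x
      exact Real.sin_nonneg_of_nonneg_of_le_pi (ang_nonneg p hδ x)
        ((ang_le p δ x).trans (by linarith [Real.pi_pos]))
  obtain ⟨hv, _⟩ := main i0
  refine ⟨hv, fun i f => ?_⟩
  obtain ⟨hv', h⟩ := main i
  exact h (Lam (FreeGroup.of i)) (fun x => Lam_ket _ x.1 x.2) f

end Pool.Agent.Helper234.Exact.Z6
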