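import Pool.Agent.Helper234.Exact.Z4

set_option autoImplicit false
open scoped ComplexOrder ENNReal InnerProductSpace

namespace Pool.Agent.Helper234.Exact.Z7

open Pool.Agent.Helper234.Exact

variable {d : ℕ} {S : Dat}

section helpers

variable {J H : Type} [NormedAddCommGroup H] [InnerProductSpace ℂ H] [CompleteSpace H]

omit [CompleteSpace H] in
lemma kk_zero' (j : J) : kk j (0 : H) = 0 := by
  classical
  rw [kk]; exact lp.single_zero (E := fun _ : J => H) 2 j

omit [CompleteSpace H] in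
lemma kk_add' (j : J) (u v : H) : kk j (u + v) = kk j u + kk j v := by
  classical
  rw [kk, kk, kk]; exact lp.single_add (E := fun _ : J => H) 2 j u v

omit [CompleteSpace H] in
lemma kk_smul' (j : J) (c : ℂ) (v : H) : kk j (c • v) = c • kk j v := by
  classical
  rw [kk, kk]; exact lp.single_smul (E := fun _ : J => H) 2 j c v

omit [CompleteSpace H] in
lemma kk_sum' {ι : Type} (j : J) (s : Finset ι) (f : ι → H) :
    kk j (∑ i ∈ s, f i) = ∑ i ∈ s, kk j (f i) := by
  classical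
  induction s using Finset.induction_on with
  | empty => simp [kk_zero']
  | insert a s ha ih => rw [Finset.sum_insert ha, Finset.sum_insert ha, kk_add', ih]

/-- pointwise application as a continuous linear map -/
noncomputable def ampL (T : H →L[ℂ] H) : lp (fun _ : J => H) 2 →L[ℂ] lp (fun _ : J => H) 2 :=
  LinearMap.mkContinuous
    { toFun := ampFun T
      map_add' := ampFun_add T
      map_smul' := fun c f => ampFun_smul T c f } ‖T‖ (by
    intro f
    have h2 : (0 : ℝ) < (2 : ℝ≥0∞).toReal := by norm_num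
    refine lp.norm_le_of_forall_sum_le h2 (by positivity) fun s => ?_
    calc ∑ i ∈ s, ‖(ampFun T f) i‖ ^ (2 : ℝ≥0∞).toReal
        ≤ ∑ i ∈ s, (‖T‖ * ‖f i‖) ^ (2 : ℝ≥0∞).toReal := by
          refine Finset.sum_le_sum fun i _ => Real.rpow_le_rpow (norm_nonneg _) (T.le_opNorm _) h2.le
      _ = ‖T‖ ^ (2 : ℝ≥0∞).toReal * ∑ i ∈ s, ‖f i‖ ^ (2 : ℝ≥0∞).toReal := by
          rw [Finset.mul_sum]
          refine Finset.sum_congr rfl fun i _ => ?_
          rw [Real.mul_rpow (norm_nonneg _) (norm_nonneg _)]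
      _ ≤ ‖T‖ ^ (2 : ℝ≥0∞).toReal * ‖f‖ ^ (2 : ℝ≥0∞).toReal := by
          refine mul_le_mul_of_nonneg_left (lp.sum_rpow_le_norm_rpow h2 f s) (by positivity)
      _ = (‖T‖ * ‖f‖) ^ (2 : ℝ≥0∞).toReal := by
          rw [Real.mul_rpow (norm_nonneg _) (norm_nonneg _)])

omit [CompleteSpace H] in
lemma ampL_apply (T : H →L[ℂ] H) (f : lp (fun _ : J => H) 2) : ampL T f = ampFun T f := rfl

omit [CompleteSpace H] in
lemma ampFun_one (f : lp (fun _ : J => H) 2) : ampFun (1 : H →L[ℂ] H) f = f := by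
  apply lp.ext
  funext j
  rfl

end helpers

section core

lemma amp_V1_zero (T : Hil d S →L[ℂ] Hil d S) (hT : ∀ g, T (ket (none, g)) = 0) (N : ℕ) (x : Pnt d S) :
    ampFun T (V1 N x) = 0 := by
  rw [V1, VV, ampFun_smul, ampFun_sum]
  simp only [ampFun_kk, hT, kk_zero', Finset.sum_const_zero, smul_zero]

lemma CC_eq (p : Par d S)
    (hu : ∀ {x : Pnt d S} {g g' : Gm d} {c c' : Ctr d S}, GRep p x g c → GRep p x g' c' → g = g' ∧ c = c')
    {x : Pnt d S} {g : Gm d} {c : Ctr d S} (h : GRep p x g c) : CC p x = ampFun (Lam g) (C0 p c) := by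
  classical
  have hex : ∃ g c, GRep p x g c := ⟨g, c, h⟩
  rw [CC, dif_pos hex]
  obtain ⟨h1, h2⟩ := hu hex.choose_spec.choose_spec h
  rw [h2, h1]

lemma Om_far (p : Par d S) (N : ℕ) (δ : ℝ) (hM : Real.pi / 2 ≤ p.M * δ) (hδ : 0 < δ) (x : Pnt d S)
    (hx : p.M ≤ Dd p x) : Om p N δ x = V1 N x := by
  have h1 : Real.pi / 2 ≤ Dd p x * δ := by
    refine hM.trans ?_
    exact mul_le_mul_of_nonneg_right (by exact_mod_cast hx) hδ.le
  rw [Om, ang, min_eq_right h1, Real.sin_pi_div_two, Real.cos_pi_div_two]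
  simp

lemma Om_near (p : Par d S) (N : ℕ) (δ : ℝ)
    (hu : ∀ {x : Pnt d S} {g g' : Gm d} {c c' : Ctr d S}, GRep p x g c → GRep p x g' c' → g = g' ∧ c = c')
    {x : Pnt d S} {g : Gm d} {c : Ctr d S} (h : Rep p x g c) (hg : FreeGroup.norm g ≤ c.rad p) :
    Om p N δ x = ampFun (Lam g) (C0 p c) := by
  have h0 : Dd p x = 0 := by
    have : Dd p x ≤ 0 := Nat.sInf_le (Or.inr ⟨g, c, h, by omega⟩)
    omega
  rw [Om, ang, h0, CC_eq p hu (g := g) (c := c) ⟨h, by omega⟩, Nat.cast_zero, zero_mul,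
    min_eq_left (by positivity : (0 : ℝ) ≤ Real.pi / 2), Real.sin_zero, Real.cos_zero]
  simp

/-- killing of the vector of a point -/
lemma amp_Om_zero (p : Par d S) (N : ℕ) (δ : ℝ) (hM : Real.pi / 2 ≤ p.M * δ) (hδ : 0 < δ)
    (hu : ∀ {x : Pnt d S} {g g' : Gm d} {c c' : Ctr d S}, GRep p x g c → GRep p x g' c' → g = g' ∧ c = c')
    (hDd : ∀ x : Pnt d S, Dd p x < p.M →
      ∃ g c, Rep p x g c ∧ FreeGroup.norm g < p.M + c.rad p ∧ Dd p x = FreeGroup.norm g - c.rad p)
    (T : Hil d S →L[ℂ] Hil d S) (hT : ∀ g, T (ket (none, g)) = 0) (x : Pnt d S) (hx : T (ket x) = 0)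
    (hs : ∀ b' n q z0 g, b' ∈ p.Th → p.n1 ≤ n → FreeGroup.norm g < p.M →
      x = (some (node b' n), g * ps b' n (q, z0)) →
      ∀ y, T (ket (some (node b' p.n1), g * ps b' p.n1 (y, z0))) = 0) :
    ampFun T (Om p N δ x) = 0 := by
  rcases Nat.lt_or_ge (Dd p x) p.M with hlt | hge
  · obtain ⟨g, c, hR, hn, -⟩ := hDd x hlt
    rw [Om, ampFun_add, ampFun_smul, ampFun_smul, amp_V1_zero T hT, smul_zero, zero_add,
      CC_eq p hu (g := g) (c := c) ⟨hR, by omega⟩]
    suffices h : ampFun T (ampFun (Lam g) (C0 p c)) = 0 by rw [h, smul_zero]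
    obtain ⟨hok, hxe⟩ := hR
    cases c with
    | base σ =>
      rw [C0, ampFun_kk, ampFun_kk, Lam_ket]
      have : (ket (some σ, g * 1) : Hil d S) = ket x := by rw [hxe]; rfl
      rw [this, hx, kk_zero']
    | slot b' n q z0 =>
      rw [C0, ampFun_sum, ampFun_sum]
      refine Finset.sum_eq_zero fun q' _ => ?_
      rw [ampFun_smul, ampFun_smul, ampFun_kk, ampFun_kk]
      suffices h : T (Lam g (wv b' z0 ⟨p.n1, p.q0⟩)) = 0 by rw [h, kk_zero', smul_zero]
      rw [wv, map_sum, map_sum]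
      refine Finset.sum_eq_zero fun y _ => ?_
      rw [map_smul, map_smul, Lam_ket]
      have hn' : FreeGroup.norm g < p.M := by simpa [Ctr.rad] using hn
      rw [hs b' n q z0 g hok.1 hok.2 hn' hxe y, smul_zero]
  · rw [Om_far p N δ hM hδ x hge, amp_V1_zero T hT]

/-- the value at a position of a branch, lower levels -/
lemma Om_pos_lt (p : Par d S) (N : ℕ) (δ : ℝ)
    (hu : ∀ {x : Pnt d S} {g g' : Gm d} {c c' : Ctr d S}, GRep p x g c → GRep p x g' c' → g = g' ∧ c = c')
    (b : Br d S) (hb : b ∈ p.Th) (n : ℕ) (hn : n < p.n1) (q : S.Q n) (z : Fin 16) :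
    Om p N δ (some (node b n), ps b n (q, z)) =
      kk (Sum.inr (node b n, none)) (ket (some (node b n), ps b n (q, z))) := by
  have hR : Rep p (some (node b n), ps b n (q, z)) (ps b n (q, z)) (Ctr.base (node b n)) :=
    ⟨p.h3 b hb n hn, by simp [Ctr.blk, Ctr.pos]⟩
  rw [Om_near p N δ hu hR (p.h4 b hb n hn _), C0, ampFun_kk, Lam_ket, mul_one]

/-- the value at a position of a branch, upper levels -/
lemma Om_pos_ge (p : Par d S) (N : ℕ) (δ : ℝ)
    (hu : ∀ {x : Pnt d S} {g g' : Gm d} {c c' : Ctr d S}, GRep p x g c → GRep p x g' c' → g = g' ∧ c = c')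
    (b : Br d S) (hb : b ∈ p.Th) (n : ℕ) (hn : p.n1 ≤ n) (q : S.Q n) (z : Fin 16) :
    Om p N δ (some (node b n), ps b n (q, z)) =
      ∑ q', S.O n z q' q • kk (Sum.inr (node b n, some ⟨n, q'⟩)) (wv b z ⟨p.n1, p.q0⟩) := by
  have hR : Rep p (some (node b n), ps b n (q, z)) 1 (Ctr.slot b n q z) :=
    ⟨⟨hb, hn⟩, by simp [Ctr.blk, Ctr.pos]⟩
  rw [Om_near p N δ hu hR (by simp [Ctr.rad]), Lam_one, ampFun_one, C0]

/-- label of the vectors -/
noncomputable def ww (p : Par d S) (b : Br d S) (z : Fin 16) (n : ℕ) (q : S.Q n) : KK d S := by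
  classical
  exact if n < p.n1 then kk (Sum.inr (node b n, none)) (wv b z ⟨n, q⟩)
    else kk (Sum.inr (node b n, some ⟨n, q⟩)) (wv b z ⟨p.n1, p.q0⟩)

lemma iso_wv (p : Par d S) (N : ℕ) (δ : ℝ)
    (hu : ∀ {x : Pnt d S} {g g' : Gm d} {c c' : Ctr d S}, GRep p x g c → GRep p x g' c' → g = g' ∧ c = c')
    (hv : Orthonormal ℂ (Om p N δ)) (b : Br d S) (hb : b ∈ p.Th) (z : Fin 16) (n : ℕ) (q : S.Q n) :
    iso _ hv (wv b z ⟨n, q⟩) = ww p b z n q := by
  classical
  have e1 : iso _ hv (wv b z ⟨n, q⟩) = ∑ x, S.O n z x q • Om p N δ (some (node b n), ps b n (x, z)) := by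
    rw [wv, map_sum]
    refine Finset.sum_congr rfl fun x _ => ?_
    rw [map_smul, iso_ket]
  rw [e1, ww]
  by_cases hn : n < p.n1
  · rw [if_pos hn, wv, kk_sum']
    refine Finset.sum_congr rfl fun x _ => ?_
    rw [kk_smul', Om_pos_lt p N δ hu b hb n hn]
  · rw [if_neg hn]
    simp only [Om_pos_ge p N δ hu b hb n (not_lt.1 hn), Finset.smul_sum, smul_smul]
    rw [Finset.sum_comm]
    have h1 : ∀ y : S.Q n, ∑ x, (S.O n z x q * S.O n z y x) •
        (kk (Sum.inr (node b n, some ⟨n, y⟩)) (wv b z ⟨p.n1, p.q0⟩) : KK d S) =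
        (if y = q then (1 : ℂ) else 0) • kk (Sum.inr (node b n, some ⟨n, y⟩)) (wv b z ⟨p.n1, p.q0⟩) := by
      intro y
      rw [← Finset.sum_smul]
      congr 1
      rw [← S.O_sq n z y q]
      refine Finset.sum_congr rfl fun x _ => mul_comm _ _
    simp only [h1, ite_smul, one_smul, zero_smul, Finset.sum_ite_eq', Finset.mem_univ, if_true]

lemma amp_Om_pos (p : Par d S) (N : ℕ) (δ : ℝ)
    (hu : ∀ {x : Pnt d S} {g g' : Gm d} {c c' : Ctr d S}, GRep p x g c → GRep p x g' c' → g = g' ∧ c = c')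
    (hv : Orthonormal ℂ (Om p N δ)) (b : Br d S) (hb : b ∈ p.Th) (z z' : Fin 16) (n : ℕ) (q : S.Q n) :
    ampFun (GG b z z') (Om p N δ (some (node b n), ps b n (q, z'))) =
      iso _ hv (GG b z z' (ket (some (node b n), ps b n (q, z')))) := by
  classical
  have e0 : GG b z z' (ket (some (node b n), ps b n (q, z'))) = ∑ q', S.O n z' q' q • wv b z ⟨n, q'⟩ := by
    rw [ket_eq, map_sum]
    refine Finset.sum_congr rfl fun x _ => ?_
    rw [map_smul, GG_wv]
  have e1 : iso _ hv (GG b z z' (ket (some (node b n), ps b n (q, z')))) =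
      ∑ q', S.O n z' q' q • ww p b z n q' := by
    rw [e0, map_sum]
    refine Finset.sum_congr rfl fun x _ => ?_
    rw [map_smul, iso_wv p N δ hu hv b hb]
  rw [e1]
  by_cases hn : n < p.n1
  · rw [Om_pos_lt p N δ hu b hb n hn, ampFun_kk, e0, kk_sum']
    refine Finset.sum_congr rfl fun x _ => ?_
    rw [kk_smul', ww, if_pos hn]
  · rw [Om_pos_ge p N δ hu b hb n (not_lt.1 hn), ampFun_sum]
    refine Finset.sum_congr rfl fun x _ => ?_
    rw [ampFun_smul, ampFun_kk, GG_wv, ww, if_neg hn]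

end core

/-- TARGET 1 -/
theorem inter_GG (p : Par d S) (N : ℕ) (δ : ℝ) (hM : Real.pi / 2 ≤ p.M * δ) (hδ : 0 < δ)
    (hu : ∀ {x : Pnt d S} {g g' : Gm d} {c c' : Ctr d S}, GRep p x g c → GRep p x g' c' → g = g' ∧ c = c')
    (hDd : ∀ x : Pnt d S, Dd p x < p.M →
      ∃ g c, Rep p x g c ∧ FreeGroup.norm g < p.M + c.rad p ∧ Dd p x = FreeGroup.norm g - c.rad p)
    (hv : Orthonormal ℂ (Om p N δ)) (b : Br d S) (hb : b ∈ p.Th) (z z' : Fin 16) (f : Hil d S) :
    ampFun (GG b z z') (iso _ hv f) = iso _ hv (GG b z z' f) := by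
  classical
  have key : (ampL (GG b z z')).comp (iso _ hv).toContinuousLinearMap =
      (iso _ hv).toContinuousLinearMap.comp (GG b z z') := by
    apply ext_ket
    intro x
    show ampFun (GG b z z') (iso _ hv (ket x)) = iso _ hv (GG b z z' (ket x))
    rw [iso_ket]
    by_cases hpos : ∃ n q, x = (some (node b n), ps b n (q, z'))
    · obtain ⟨n, q, rfl⟩ := hpos
      exact amp_Om_pos p N δ hu hv b hb z z' n q
    · have hpos' : ∀ n q, x ≠ (some (node b n), ps b n (q, z')) := fun n q h => hpos ⟨n, q, h⟩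
      have hx : GG b z z' (ket x) = 0 := GG_ket_zero b z z' x hpos'
      rw [hx, map_zero]
      refine amp_Om_zero p N δ hM hδ hu hDd _ ?_ x hx ?_
      · intro g
        refine GG_ket_zero b z z' _ fun n q h => ?_
        have := congrArg Prod.fst h
        simp at this
      · intro b' n q z0 g hb' hn hg hxe y
        refine GG_ket_zero b z z' _ fun m q'' h => ?_
        rw [Prod.mk.injEq, Option.some.injEq] at h
        obtain ⟨h1, h2⟩ := h
        have h3 : p.n1 = m := congrArg Sigma.fst h1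
        subst h3
        have h4 := p.h1 b' hb' b hb h1
        subst h4
        have hM1 := p.h5
        have h5 := b'.2 p.n1 (y, z0) (q'', z') g (by omega) h2
        rw [Prod.mk.injEq] at h5
        obtain ⟨h6, h7⟩ := h5
        subst h6 h7
        have h8 : g = 1 := mul_eq_right.1 h2
        rw [h8, one_mul] at hxe
        exact hpos' n q hxe
  exact congrArg (fun T => T f) key

/-- TARGET 2 -/
theorem inter_eP (p : Par d S) (N : ℕ) (δ : ℝ) (hM : Real.pi / 2 ≤ p.M * δ) (hδ : 0 < δ)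
    (hu : ∀ {x : Pnt d S} {g g' : Gm d} {c c' : Ctr d S}, GRep p x g c → GRep p x g' c' → g = g' ∧ c = c')
    (hDd : ∀ x : Pnt d S, Dd p x < p.M →
      ∃ g c, Rep p x g c ∧ FreeGroup.norm g < p.M + c.rad p ∧ Dd p x = FreeGroup.norm g - c.rad p)
    (hv : Orthonormal ℂ (Om p N δ)) (σ : Nd d S) (hσ : σ ∈ p.SB) (f : Hil d S) :
    ampFun (eP σ) (iso _ hv f) = iso _ hv (eP σ f) := by
  classical
  have key : (ampL (eP σ)).comp (iso _ hv).toContinuousLinearMap =
      (iso _ hv).toContinuousLinearMap.comp (eP σ) := by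
    apply ext_ket
    intro x
    show ampFun (eP σ) (iso _ hv (ket x)) = iso _ hv (eP σ (ket x))
    rw [iso_ket]
    by_cases hpos : x = (some σ, 1)
    · have hR : Rep p x 1 (Ctr.base σ) := ⟨hσ, by simp [Ctr.blk, Ctr.pos, hpos]⟩
      rw [eP_ket, if_pos hpos, iso_ket, Om_near p N δ hu hR (by simp), Lam_one, ampFun_one, C0,
        ampFun_kk, eP_ket, if_pos rfl]
    · have hx : eP σ (ket x) = 0 := by rw [eP_ket, if_neg hpos]
      rw [hx, map_zero]
      refine amp_Om_zero p N δ hM hδ hu hDd _ ?_ x hx ?_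
      · intro g
        rw [eP_ket, if_neg]
        intro h
        have := congrArg Prod.fst h
        simp at this
      · intro b' n q z0 g hb' hn hg hxe y
        rw [eP_ket, if_neg]
        intro h
        rw [Prod.mk.injEq, Option.some.injEq] at h
        exact p.h2 b' hb' p.n1 le_rfl (by rw [h.1]; exact hσ)
  exact congrArg (fun T => T f) key

end Pool.Agent.Helper234.Exact.Z7
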