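import Pool.Agent.Helper234.Exact.Z4

set_option autoImplicit false
open scoped ComplexOrder ENNReal InnerProductSpace

namespace Pool.Agent.Helper234.Exact.Z8

open Pool.Agent.Helper234.Exact

variable {d : ℕ} {S : Dat}


lemma ball_fin (n : ℕ) : {g : Gm d | FreeGroup.norm g ≤ n}.Finite := by
  have h := (List.finite_length_le (Fin d × Bool) n).image (FreeGroup.mk : List (Fin d × Bool) → Gm d)
  refine h.subset ?_
  intro g hg
  exact ⟨g.toWord, hg, FreeGroup.mk_toWord⟩

/-- the generating set -/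
noncomputable def genX (p : Par d S) (N : ℕ) : Set (Hil d S) :=
  (fun g : Gm d => (ket (none, g) : Hil d S)) '' {g | FreeGroup.norm g ≤ N} ∪
  (⋃ σ ∈ p.SB, (fun g : Gm d => (ket (some σ, g) : Hil d S)) '' {g | FreeGroup.norm g ≤ p.M + 1 + p.r}) ∪
  (⋃ b ∈ p.Th, ⋃ z : Fin 16, (fun g : Gm d => Lam g (wv b z ⟨p.n1, p.q0⟩)) '' {g | FreeGroup.norm g ≤ p.M + 1})

lemma genX_fin (p : Par d S) (N : ℕ) : (genX p N).Finite := by
  unfold genX
  refine Set.Finite.union (Set.Finite.union ?_ ?_) ?_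
  · exact (ball_fin N).image _
  · exact p.SB.finite_toSet.biUnion (fun σ _ => (ball_fin _).image _)
  · exact p.Th.finite_toSet.biUnion (fun b _ => Set.finite_iUnion (fun z => (ball_fin _).image _))

/-- vectors with coordinates in a subspace -/
def YY (X : Submodule ℂ (Hil d S)) : Submodule ℂ (KK d S) where
  carrier := {f | ∀ j, f j ∈ X}
  add_mem' := by
    intro a b ha hb j
    rw [lp.coeFn_add, Pi.add_apply]
    exact X.add_mem (ha j) (hb j)
  zero_mem' := by
    intro j
    rw [lp.coeFn_zero, Pi.zero_apply]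
    exact X.zero_mem
  smul_mem' := by
    intro c a ha j
    rw [lp.coeFn_smul, Pi.smul_apply]
    exact X.smul_mem c (ha j)

lemma mem_YY (X : Submodule ℂ (Hil d S)) (f : KK d S) : f ∈ YY X ↔ ∀ j, f j ∈ X := Iff.rfl

lemma YY_closed (X : Submodule ℂ (Hil d S)) [FiniteDimensional ℂ X] : IsClosed (YY X : Set (KK d S)) := by
  have h1 : (YY X : Set (KK d S)) = ⋂ j, (fun f : KK d S => f j) ⁻¹' (X : Set (Hil d S)) := by
    ext f
    simp only [SetLike.mem_coe, mem_YY, Set.mem_iInter, Set.mem_preimage]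
  rw [h1]
  refine isClosed_iInter fun j => ?_
  refine IsClosed.preimage ?_ (Submodule.closed_of_finiteDimensional X)
  have h2 : Continuous (fun f : KK d S => (f : ∀ _ : JJ d S, Hil d S)) :=
    (lp.uniformContinuous_coe (E := fun _ : JJ d S => Hil d S) (p := 2)).continuous
  exact (continuous_apply j).comp h2

lemma kk_YY (X : Submodule ℂ (Hil d S)) (j : JJ d S) (v : Hil d S) (hv : v ∈ X) : kk j v ∈ YY X := by
  classical
  intro j'
  rw [kk, lp.single_apply]
  by_cases h : j' = j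
  · subst h; rw [Pi.single_eq_same]; exact hv
  · rw [Pi.single_eq_of_ne h]; exact X.zero_mem

lemma V1_YY (p : Par d S) (N : ℕ) (x : Pnt d S) : V1 N x ∈ YY (Submodule.span ℂ (genX p N)) := by
  unfold V1 VV
  refine Submodule.smul_mem _ _ (Submodule.sum_mem _ fun k hk => kk_YY _ _ _ ?_)
  refine Submodule.subset_span (Or.inl (Or.inl ⟨tk x.2 k, ?_, rfl⟩))
  have h1 : FreeGroup.norm (tk x.2 k) ≤ (x.2.toWord.take k).length := FreeGroup.norm_mk_le
  have h2 : (x.2.toWord.take k).length ≤ k := by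
    rw [List.length_take]; exact min_le_left _ _
  have h3 := Finset.mem_range.mp hk
  show FreeGroup.norm (tk x.2 k) ≤ N
  omega

lemma ampC_YY (p : Par d S) (N : ℕ) (x : Pnt d S) (g : Gm d) (c : Ctr d S) (hs : GRep p x g c) :
    ampFun (Lam g) (C0 p c) ∈ YY (Submodule.span ℂ (genX p N)) := by
  classical
  obtain ⟨⟨hok, -⟩, hn⟩ := hs
  cases c with
  | base σ =>
    rw [C0, ampFun_kk, Lam_ket]
    refine kk_YY _ _ _ (Submodule.subset_span (Or.inl (Or.inr ?_)))
    simp only [Set.mem_iUnion]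
    refine ⟨σ, hok, g, hn, ?_⟩
    simp only [mul_one]
  | slot b n q z =>
    rw [C0, ampFun_sum]
    refine Submodule.sum_mem _ fun q' _ => ?_
    rw [ampFun_smul, ampFun_kk]
    refine Submodule.smul_mem _ _ (kk_YY _ _ _ (Submodule.subset_span (Or.inr ?_)))
    simp only [Set.mem_iUnion]
    exact ⟨b, hok.1, z, g, hn, rfl⟩

lemma CC_YY (p : Par d S) (N : ℕ) (x : Pnt d S) : CC p x ∈ YY (Submodule.span ℂ (genX p N)) := by
  classical
  unfold CC
  split_ifs with h
  · exact ampC_YY p N x _ _ h.choose_spec.choose_spec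
  · exact Submodule.zero_mem _

lemma Om_YY (p : Par d S) (N : ℕ) (δ : ℝ) (x : Pnt d S) : Om p N δ x ∈ YY (Submodule.span ℂ (genX p N)) := by
  unfold Om
  exact Submodule.add_mem _ (Submodule.smul_mem _ _ (V1_YY p N x)) (Submodule.smul_mem _ _ (CC_YY p N x))

/-- TARGET -/
theorem fin_XX (p : Par d S) (N : ℕ) (δ : ℝ) (hv : Orthonormal ℂ (Om p N δ)) :
    ∃ X : Submodule ℂ (Hil d S), FiniteDimensional ℂ X ∧ ∀ v j, iso _ hv v j ∈ X := by
  have hfd : FiniteDimensional ℂ (Submodule.span ℂ (genX p N)) :=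
    FiniteDimensional.span_of_finite ℂ (genX_fin p N)
  refine ⟨Submodule.span ℂ (genX p N), hfd, ?_⟩
  intro v
  have h1 := (hasSum_ket v).mapL (iso _ hv).toContinuousLinearMap
  have h2 : (iso _ hv) v ∈ (YY (Submodule.span ℂ (genX p N)) : Set (KK d S)) := by
    refine (YY_closed (Submodule.span ℂ (genX p N))).mem_of_tendsto h1 (Filter.Eventually.of_forall fun s => ?_)
    refine Submodule.sum_mem _ fun x _ => ?_
    rw [map_smul]
    refine Submodule.smul_mem _ _ ?_
    have h3 : (iso _ hv).toContinuousLinearMap (ket x) = Om p N δ x := iso_ket _ hv x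
    rw [h3]
    exact Om_YY p N δ x
  exact h2

end Pool.Agent.Helper234.Exact.Z8
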