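import Pool.Agent.Helper234.Exact.Z4

set_option autoImplicit false
open scoped ComplexOrder ENNReal InnerProductSpace

namespace Pool.Agent.Helper234.Exact.Z9

open Pool.Agent.Helper234.Exact

variable {d : ℕ} {S : Dat}

open Classical in
lemma exists_par_aux (F : Set (Hil d S →L[ℂ] Hil d S)) (hF : F.Finite) (hFg : F ⊆ gens d S) :
    ∃ (Th : Finset (Br d S)) (Se : Finset (Nd d S)), ∀ T ∈ F,
      (∃ i : Fin d, T = Lam (FreeGroup.of i) ∨ T = Lam (FreeGroup.of i)⁻¹) ∨
      (∃ σ ∈ Se, T = eP σ) ∨ ∃ b ∈ Th, ∃ z z', T = GG b z z' := by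
  induction F, hF using Set.Finite.induction_on with
  | empty => exact ⟨∅, ∅, fun T hT => absurd hT (Set.notMem_empty T)⟩
  | @insert T0 F0 h0 hF0 ih =>
    obtain ⟨Th, Se, h⟩ := ih (fun T hT => hFg (Set.mem_insert_of_mem _ hT))
    rcases hFg (Set.mem_insert T0 F0) with hL | ⟨σ0, hσ0⟩ | ⟨b0, z0, z0', hb0⟩
    · refine ⟨Th, Se, fun T hT => ?_⟩
      rcases Set.mem_insert_iff.1 hT with rfl | hT
      · exact Or.inl hL
      · exact h T hT
    · refine ⟨Th, insert σ0 Se, fun T hT => ?_⟩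
      rcases Set.mem_insert_iff.1 hT with rfl | hT
      · exact Or.inr (Or.inl ⟨σ0, Finset.mem_insert_self _ _, hσ0⟩)
      · rcases h T hT with h1 | ⟨σ, hσ, h2⟩ | h3
        · exact Or.inl h1
        · exact Or.inr (Or.inl ⟨σ, Finset.mem_insert_of_mem hσ, h2⟩)
        · exact Or.inr (Or.inr h3)
    · refine ⟨insert b0 Th, Se, fun T hT => ?_⟩
      rcases Set.mem_insert_iff.1 hT with rfl | hT
      · exact Or.inr (Or.inr ⟨b0, Finset.mem_insert_self _ _, z0, z0', hb0⟩)
      · rcases h T hT with h1 | h2 | ⟨b, hb, h3⟩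
        · exact Or.inl h1
        · exact Or.inr (Or.inl h2)
        · exact Or.inr (Or.inr ⟨b, Finset.mem_insert_of_mem hb, h3⟩)

lemma exists_par_node_fst (b : Br d S) (n : ℕ) : (node b n).1 = n := rfl

lemma exists_par_node_eq {b b' : Br d S} {n : ℕ} (h : node b n = node b' n) (m : ℕ) (hm : m < n) : b.1 m = b'.1 m := by
  unfold node at h
  have h2 := eq_of_heq (Sigma.mk.inj h).2
  exact congrFun h2 ⟨m, hm⟩

open Classical in
/-- TARGET -/
theorem exists_par (F : Set (Hil d S →L[ℂ] Hil d S)) (hF : F.Finite) (hFg : F ⊆ gens d S) (M : ℕ) (hM : 0 < M) :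
    ∃ p : Par d S, p.M = M ∧ ∀ T ∈ F, (∃ i : Fin d, T = Lam (FreeGroup.of i) ∨ T = Lam (FreeGroup.of i)⁻¹) ∨
      (∃ σ ∈ p.SB, T = eP σ) ∨ ∃ b ∈ p.Th, ∃ z z', T = GG b z z' := by
  obtain ⟨Th, Se, h⟩ := exists_par_aux F hF hFg
  -- separation levels
  have hsep : ∃ A : ℕ, ∀ b ∈ Th, ∀ b' ∈ Th, b ≠ b' → ∃ m, m < A ∧ b.1 m ≠ b'.1 m := by
    have h1 : ∀ b b' : Br d S, ∃ m, b ≠ b' → b.1 m ≠ b'.1 m := by
      intro b b'
      by_cases hbb : b = b'
      · exact ⟨0, fun h => absurd hbb h⟩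
      · by_contra hc
        push Not at hc
        apply hbb
        apply Subtype.ext
        funext m
        exact (hc m).2
    choose f hf using h1
    refine ⟨(Th ×ˢ Th).sup (fun q => f q.1 q.2) + 1, fun b hb b' hb' hne => ⟨f b b', ?_, hf b b' hne⟩⟩
    have := Finset.le_sup (f := fun q : Br d S × Br d S => f q.1 q.2) (Finset.mk_mem_product hb hb')
    simp only at this
    omega
  obtain ⟨A, hA⟩ := hsep
  set n1 : ℕ := A + (Se.sup (fun σ => σ.1) + 1) + 2 * (M + 1) with hn1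
  set SB : Finset (Nd d S) := Se ∪ (Th ×ˢ Finset.range n1).image (fun q => node q.1 q.2) with hSB
  set r : ℕ := Th.sup (fun b => (Finset.range n1).sup (fun n => Finset.univ.sup (fun p : S.Q n × Fin 16 =>
    FreeGroup.norm (ps b n p)))) with hr
  refine ⟨⟨Th, SB, n1, Classical.arbitrary (S.Q n1), M, r, ?_, ?_, ?_, ?_, by omega, hM⟩, rfl, ?_⟩
  · intro b hb b' hb' hnode
    by_contra hne
    obtain ⟨m, hm, hmne⟩ := hA b hb b' hb' hne
    exact hmne (exists_par_node_eq hnode m (by omega))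
  · intro b hb n hn hmem
    rw [hSB, Finset.mem_union, Finset.mem_image] at hmem
    rcases hmem with h1 | ⟨⟨b', m⟩, hq, heq⟩
    · have := Finset.le_sup (f := fun σ : Nd d S => σ.1) h1
      simp only [exists_par_node_fst] at this
      omega
    · rw [Finset.mem_product, Finset.mem_range] at hq
      have h2 := congrArg Sigma.fst heq
      simp only [exists_par_node_fst] at h2
      have h3 := hq.2
      simp only at h3
      omega
  · intro b hb n hn
    rw [hSB]
    exact Finset.mem_union_right _ (Finset.mem_image.2 ⟨(b, n), Finset.mk_mem_product hb (Finset.mem_range.2 hn), rfl⟩)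
  · intro b hb n hn p
    have h1 : FreeGroup.norm (ps b n p) ≤ Finset.univ.sup (fun p : S.Q n × Fin 16 => FreeGroup.norm (ps b n p)) :=
      Finset.le_sup (f := fun p : S.Q n × Fin 16 => FreeGroup.norm (ps b n p)) (Finset.mem_univ p)
    have h2 : Finset.univ.sup (fun p : S.Q n × Fin 16 => FreeGroup.norm (ps b n p)) ≤
        (Finset.range n1).sup (fun n => Finset.univ.sup (fun p : S.Q n × Fin 16 => FreeGroup.norm (ps b n p))) :=
      Finset.le_sup (f := fun n => Finset.univ.sup (fun p : S.Q n × Fin 16 => FreeGroup.norm (ps b n p)))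
        (Finset.mem_range.2 hn)
    have h3 : (Finset.range n1).sup (fun n => Finset.univ.sup (fun p : S.Q n × Fin 16 => FreeGroup.norm (ps b n p))) ≤ r :=
      Finset.le_sup (f := fun b => (Finset.range n1).sup (fun n => Finset.univ.sup (fun p : S.Q n × Fin 16 =>
        FreeGroup.norm (ps b n p)))) hb
    exact h1.trans (h2.trans h3)
  · intro T hT
    rcases h T hT with h1 | ⟨σ, hσ, h2⟩ | h3
    · exact Or.inl h1
    · exact Or.inr (Or.inl ⟨σ, Finset.mem_union_left _ hσ, h2⟩)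
    · exact Or.inr (Or.inr h3)

end Pool.Agent.Helper234.Exact.Z9
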