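import Pool.Agent.Helper234.Exact.Z2

set_option autoImplicit false
open scoped ComplexOrder ENNReal InnerProductSpace

namespace Pool.Agent.Helper234.Exact.ZD

open Pool.Agent.Helper234.Exact
variable {J H : Type} [NormedAddCommGroup H] [InnerProductSpace ℂ H] [CompleteSpace H]


omit [CompleteSpace H] in
lemma ampFun_apply (T : H →L[ℂ] H) (f : lp (fun _ : J => H) 2) (j : J) :
    ampFun T f j = T (f j) := rfl

omit [CompleteSpace H] in
lemma norm_ampFun_le (T : H →L[ℂ] H) (f : lp (fun _ : J => H) 2) :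
    ‖ampFun T f‖ ≤ ‖T‖ * ‖f‖ := by
  have h2 : (0 : ℝ) < (2 : ℝ≥0∞).toReal := by norm_num
  apply lp.norm_le_of_forall_sum_le h2 (by positivity)
  intro s
  rw [Real.mul_rpow (norm_nonneg _) (norm_nonneg _)]
  refine le_trans ?_ (mul_le_mul_of_nonneg_left (lp.sum_rpow_le_norm_rpow h2 f s) (by positivity))
  rw [Finset.mul_sum]
  refine Finset.sum_le_sum fun j _ => ?_
  rw [← Real.mul_rpow (norm_nonneg _) (norm_nonneg _)]
  exact Real.rpow_le_rpow (norm_nonneg _) (T.le_opNorm _) h2.le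

/-- the amplification as a bounded operator -/
noncomputable def amp (T : H →L[ℂ] H) : lp (fun _ : J => H) 2 →L[ℂ] lp (fun _ : J => H) 2 :=
  LinearMap.mkContinuous
    { toFun := ampFun T
      map_add' := fun f g => by
        apply lp.ext; funext j
        show T ((f + g : lp (fun _ : J => H) 2) j) = _
        rw [lp.coeFn_add, lp.coeFn_add, Pi.add_apply, map_add]; rfl
      map_smul' := fun c f => by
        apply lp.ext; funext j
        show T ((c • f : lp (fun _ : J => H) 2) j) = _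
        rw [RingHom.id_apply, lp.coeFn_smul, lp.coeFn_smul, Pi.smul_apply, map_smul]; rfl } ‖T‖
    (norm_ampFun_le T)

omit [CompleteSpace H] in
lemma amp_apply (T : H →L[ℂ] H) (f : lp (fun _ : J => H) 2) : amp T f = ampFun T f := rfl

omit [CompleteSpace H] in
lemma norm_amp_le (T : H →L[ℂ] H) : ‖(amp T : lp (fun _ : J => H) 2 →L[ℂ] _)‖ ≤ ‖T‖ :=
  LinearMap.mkContinuous_norm_le _ (norm_nonneg _) _

omit [CompleteSpace H] in
lemma amp_comp (S T : H →L[ℂ] H) :
    (amp (S ∘L T) : lp (fun _ : J => H) 2 →L[ℂ] _) = amp S ∘L amp T := rfl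

omit [CompleteSpace H] in
lemma amp_add (S T : H →L[ℂ] H) :
    (amp (S + T) : lp (fun _ : J => H) 2 →L[ℂ] _) = amp S + amp T := by
  ext f : 1
  apply lp.ext; funext j
  rw [ContinuousLinearMap.add_apply, lp.coeFn_add, Pi.add_apply]; rfl

omit [CompleteSpace H] in
lemma amp_smul (c : ℂ) (T : H →L[ℂ] H) :
    (amp (c • T) : lp (fun _ : J => H) 2 →L[ℂ] _) = c • amp T := by
  ext f : 1
  apply lp.ext; funext j
  rw [ContinuousLinearMap.smul_apply, lp.coeFn_smul, Pi.smul_apply]; rfl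

lemma amp_adjoint (T : H →L[ℂ] H) :
    (amp (ContinuousLinearMap.adjoint T) : lp (fun _ : J => H) 2 →L[ℂ] _) =
      ContinuousLinearMap.adjoint (amp T) := by
  rw [ContinuousLinearMap.eq_adjoint_iff]
  intro f g
  rw [lp.inner_eq_tsum, lp.inner_eq_tsum]
  congr 1; funext j
  show inner ℂ (ContinuousLinearMap.adjoint T (f j)) (g j) = inner ℂ (f j) (T (g j))
  rw [ContinuousLinearMap.adjoint_inner_left]

omit [CompleteSpace H] in
/-- amplifications as a linear map -/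
lemma amp_sum {ι : Type*} (s : Finset ι) (T : ι → H →L[ℂ] H) :
    (amp (∑ i ∈ s, T i) : lp (fun _ : J => H) 2 →L[ℂ] _) = ∑ i ∈ s, amp (T i) := by
  classical
  induction s using Finset.induction_on with
  | empty =>
    ext f : 1
    apply lp.ext; funext j
    rfl
  | insert a s ha ih => rw [Finset.sum_insert ha, Finset.sum_insert ha, amp_add, ih]

/-- approximate intertwining -/
def Good (𝒢 : Set (H →L[ℂ] H)) (a : H →L[ℂ] H) (J : Type) : Prop :=
  ∀ ε > 0, ∃ F' : Set (H →L[ℂ] H), F'.Finite ∧ F' ⊆ 𝒢 ∧ ∃ δ > 0,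
    ∀ W : H →ₗᵢ[ℂ] lp (fun _ : J => H) 2,
      (∀ g ∈ F', ∀ v, ‖ampFun g (W v) - W (g v)‖ ≤ δ * ‖v‖) →
      ∀ v, ‖ampFun a (W v) - W (a v)‖ ≤ ε * ‖v‖

omit [CompleteSpace H] in
lemma good_add {𝒢 : Set (H →L[ℂ] H)} {a b : H →L[ℂ] H} (ha : Good 𝒢 a J) (hb : Good 𝒢 b J) :
    Good 𝒢 (a + b) J := by
  intro ε hε
  obtain ⟨F1, hF1, hs1, δ1, hδ1, h1⟩ := ha (ε / 2) (by positivity)
  obtain ⟨F2, hF2, hs2, δ2, hδ2, h2⟩ := hb (ε / 2) (by positivity)
  refine ⟨F1 ∪ F2, hF1.union hF2, Set.union_subset hs1 hs2, min δ1 δ2, lt_min hδ1 hδ2, ?_⟩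
  intro W hW v
  have e1 := h1 W (fun g hg v => (hW g (Or.inl hg) v).trans
    (mul_le_mul_of_nonneg_right (min_le_left _ _) (norm_nonneg _))) v
  have e2 := h2 W (fun g hg v => (hW g (Or.inr hg) v).trans
    (mul_le_mul_of_nonneg_right (min_le_right _ _) (norm_nonneg _))) v
  have e3 : ampFun (a + b) (W v) - W ((a + b) v) =
      (ampFun a (W v) - W (a v)) + (ampFun b (W v) - W (b v)) := by
    rw [← amp_apply, amp_add, ContinuousLinearMap.add_apply, ContinuousLinearMap.add_apply,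
      map_add, amp_apply, amp_apply]
    abel
  rw [e3]
  calc _ ≤ _ := norm_add_le _ _
    _ ≤ ε / 2 * ‖v‖ + ε / 2 * ‖v‖ := add_le_add e1 e2
    _ = ε * ‖v‖ := by ring

omit [CompleteSpace H] in
lemma good_smul {𝒢 : Set (H →L[ℂ] H)} (c : ℂ) {a : H →L[ℂ] H} (ha : Good 𝒢 a J) :
    Good 𝒢 (c • a) J := by
  intro ε hε
  obtain ⟨F1, hF1, hs1, δ1, hδ1, h1⟩ := ha (ε / (‖c‖ + 1)) (by positivity)
  refine ⟨F1, hF1, hs1, δ1, hδ1, ?_⟩
  intro W hW v
  have e3 : ampFun (c • a) (W v) - W ((c • a) v) = c • (ampFun a (W v) - W (a v)) := by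
    rw [← amp_apply, amp_smul, ContinuousLinearMap.smul_apply, ContinuousLinearMap.smul_apply,
      map_smul, amp_apply, smul_sub]
  rw [e3, norm_smul]
  calc ‖c‖ * ‖ampFun a (W v) - W (a v)‖ ≤ ‖c‖ * (ε / (‖c‖ + 1) * ‖v‖) :=
        mul_le_mul_of_nonneg_left (h1 W hW v) (norm_nonneg _)
    _ ≤ (‖c‖ + 1) * (ε / (‖c‖ + 1) * ‖v‖) := by
        apply mul_le_mul_of_nonneg_right (by linarith)
        positivity
    _ = ε * ‖v‖ := by field_simp

omit [CompleteSpace H] in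
lemma good_zero {𝒢 : Set (H →L[ℂ] H)} : Good 𝒢 (0 : H →L[ℂ] H) J := by
  intro ε hε
  refine ⟨∅, Set.finite_empty, Set.empty_subset _, 1, one_pos, ?_⟩
  intro W _ v
  have e3 : ampFun (0 : H →L[ℂ] H) (W v) = 0 := by
    apply lp.ext; funext j; rfl
  rw [e3, ContinuousLinearMap.zero_apply, map_zero, sub_zero, norm_zero]
  positivity

omit [CompleteSpace H] in
lemma good_mul {𝒢 : Set (H →L[ℂ] H)} {a b : H →L[ℂ] H} (ha : Good 𝒢 a J) (hb : Good 𝒢 b J) :
    Good 𝒢 (a * b) J := by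
  intro ε hε
  obtain ⟨F1, hF1, hs1, δ1, hδ1, h1⟩ := ha (ε / (2 * (‖b‖ + 1))) (by positivity)
  obtain ⟨F2, hF2, hs2, δ2, hδ2, h2⟩ := hb (ε / (2 * (‖a‖ + 1))) (by positivity)
  refine ⟨F1 ∪ F2, hF1.union hF2, Set.union_subset hs1 hs2, min δ1 δ2, lt_min hδ1 hδ2, ?_⟩
  intro W hW v
  have e1 := h1 W (fun g hg v => (hW g (Or.inl hg) v).trans
    (mul_le_mul_of_nonneg_right (min_le_left _ _) (norm_nonneg _))) (b v)
  have e2 := h2 W (fun g hg v => (hW g (Or.inr hg) v).trans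
    (mul_le_mul_of_nonneg_right (min_le_right _ _) (norm_nonneg _))) v
  have e3 : ampFun (a * b) (W v) - W ((a * b) v) =
      amp a (ampFun b (W v) - W (b v)) + (ampFun a (W (b v)) - W (a (b v))) := by
    rw [map_sub, amp_apply, amp_apply]
    show ampFun a (ampFun b (W v)) - W (a (b v)) = _
    abel
  rw [e3]
  have e4 : ‖amp a (ampFun b (W v) - W (b v))‖ ≤ ‖a‖ * (ε / (2 * (‖a‖ + 1)) * ‖v‖) :=
    (norm_ampFun_le a _).trans (mul_le_mul_of_nonneg_left e2 (norm_nonneg _))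
  have e5 : ε / (2 * (‖b‖ + 1)) * ‖b v‖ ≤ ε / (2 * (‖b‖ + 1)) * (‖b‖ * ‖v‖) :=
    mul_le_mul_of_nonneg_left (b.le_opNorm v) (by positivity)
  have e6 : ‖a‖ * (ε / (2 * (‖a‖ + 1)) * ‖v‖) ≤ ε / 2 * ‖v‖ := by
    calc ‖a‖ * (ε / (2 * (‖a‖ + 1)) * ‖v‖) ≤ (‖a‖ + 1) * (ε / (2 * (‖a‖ + 1)) * ‖v‖) := by
          apply mul_le_mul_of_nonneg_right (by linarith); positivity
      _ = ε / 2 * ‖v‖ := by field_simp
  have e7 : ε / (2 * (‖b‖ + 1)) * (‖b‖ * ‖v‖) ≤ ε / 2 * ‖v‖ := by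
    calc ε / (2 * (‖b‖ + 1)) * (‖b‖ * ‖v‖) ≤ ε / (2 * (‖b‖ + 1)) * ((‖b‖ + 1) * ‖v‖) := by
          apply mul_le_mul_of_nonneg_left _ (by positivity)
          apply mul_le_mul_of_nonneg_right (by linarith) (norm_nonneg _)
      _ = ε / 2 * ‖v‖ := by field_simp
  calc _ ≤ _ := norm_add_le _ _
    _ ≤ ε / 2 * ‖v‖ + ε / 2 * ‖v‖ := add_le_add (e4.trans e6) (e1.trans (e5.trans e7))
    _ = ε * ‖v‖ := by ring

lemma good_adjoin {𝒢 : Set (H →L[ℂ] H)} (hstar : ∀ g ∈ 𝒢, star g ∈ 𝒢) {a : H →L[ℂ] H}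
    (ha : a ∈ NonUnitalStarAlgebra.adjoin ℂ 𝒢) : Good 𝒢 a J := by
  have h0 : 𝒢 ∪ star 𝒢 = 𝒢 := by
    apply Set.union_eq_self_of_subset_right
    intro g hg
    rw [Set.mem_star] at hg
    simpa using hstar _ hg
  have ha' : a ∈ NonUnitalAlgebra.adjoin ℂ 𝒢 := by
    have : a ∈ (NonUnitalStarAlgebra.adjoin ℂ 𝒢).toNonUnitalSubalgebra := ha
    rwa [NonUnitalStarAlgebra.adjoin_toNonUnitalSubalgebra, h0] at this
  clear ha
  induction ha' using NonUnitalAlgebra.adjoin_induction with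
  | mem x hx =>
    intro ε hε
    exact ⟨{x}, Set.finite_singleton _, Set.singleton_subset_iff.2 hx, ε, hε,
      fun W hW v => hW x rfl v⟩
  | add x y hx hy h1 h2 => exact good_add h1 h2
  | zero => exact good_zero
  | mul x y hx hy h1 h2 => exact good_mul h1 h2
  | smul c x hx h1 => exact good_smul c h1

lemma good_closure {𝒢 : Set (H →L[ℂ] H)} (hstar : ∀ g ∈ 𝒢, star g ∈ 𝒢) {a : H →L[ℂ] H}
    (ha : a ∈ (NonUnitalStarAlgebra.adjoin ℂ 𝒢).topologicalClosure) : Good 𝒢 a J := by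
  intro ε hε
  have ha' : a ∈ closure ((NonUnitalStarAlgebra.adjoin ℂ 𝒢 : Set (H →L[ℂ] H))) := ha
  obtain ⟨b, hb, hab⟩ := Metric.mem_closure_iff.1 ha' (ε / 4) (by positivity)
  rw [dist_eq_norm] at hab
  obtain ⟨F1, hF1, hs1, δ1, hδ1, h1⟩ := good_adjoin (J := J) hstar hb (ε / 2) (by positivity)
  refine ⟨F1, hF1, hs1, δ1, hδ1, ?_⟩
  intro W hW v
  have e1 := h1 W hW v
  have e3 : ampFun a (W v) - W (a v) =
      ampFun (a - b) (W v) + (ampFun b (W v) - W (b v)) - W ((a - b) v) := by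
    have : ampFun a (W v) = ampFun (a - b) (W v) + ampFun b (W v) := by
      rw [← amp_apply, ← amp_apply, ← amp_apply, ← ContinuousLinearMap.add_apply, ← amp_add,
        sub_add_cancel]
    rw [this, ContinuousLinearMap.sub_apply, map_sub]
    abel
  rw [e3]
  have e4 : ‖ampFun (a - b) (W v)‖ ≤ ε / 4 * ‖v‖ := by
    refine (norm_ampFun_le _ _).trans ?_
    rw [W.norm_map]
    exact mul_le_mul_of_nonneg_right hab.le (norm_nonneg _)
  have e5 : ‖W ((a - b) v)‖ ≤ ε / 4 * ‖v‖ := by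
    rw [W.norm_map]
    exact ((a - b).le_opNorm v).trans (mul_le_mul_of_nonneg_right hab.le (norm_nonneg _))
  calc _ ≤ ‖ampFun (a - b) (W v) + (ampFun b (W v) - W (b v))‖ + ‖W ((a - b) v)‖ :=
        norm_sub_le _ _
    _ ≤ (‖ampFun (a - b) (W v)‖ + ‖ampFun b (W v) - W (b v)‖) + ‖W ((a - b) v)‖ := by
        gcongr; exact norm_add_le _ _
    _ ≤ (ε / 4 * ‖v‖ + ε / 2 * ‖v‖) + ε / 4 * ‖v‖ := by gcongr
    _ = ε * ‖v‖ := by ring

omit [CompleteSpace H] in
lemma good_finset {𝒢 : Set (H →L[ℂ] H)} (s : Finset (H →L[ℂ] H)) (hs : ∀ a ∈ s, Good 𝒢 a J) :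
    ∀ ε > 0, ∃ F' : Set (H →L[ℂ] H), F'.Finite ∧ F' ⊆ 𝒢 ∧ ∃ δ > 0,
    ∀ W : H →ₗᵢ[ℂ] lp (fun _ : J => H) 2,
      (∀ g ∈ F', ∀ v, ‖ampFun g (W v) - W (g v)‖ ≤ δ * ‖v‖) →
      ∀ a ∈ s, ∀ v, ‖ampFun a (W v) - W (a v)‖ ≤ ε * ‖v‖ := by
  classical
  intro ε hε
  induction s using Finset.induction_on with
  | empty => exact ⟨∅, Set.finite_empty, Set.empty_subset _, 1, one_pos, by simp⟩
  | insert a s ha ih =>
    obtain ⟨F1, hF1, hs1, δ1, hδ1, h1⟩ := ih (fun b hb => hs b (Finset.mem_insert_of_mem hb))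
    obtain ⟨F2, hF2, hs2, δ2, hδ2, h2⟩ := hs a (Finset.mem_insert_self _ _) ε hε
    refine ⟨F1 ∪ F2, hF1.union hF2, Set.union_subset hs1 hs2, min δ1 δ2, lt_min hδ1 hδ2, ?_⟩
    intro W hW b hb v
    rcases Finset.mem_insert.1 hb with rfl | hb
    · exact h2 W (fun g hg v => (hW g (Or.inr hg) v).trans
        (mul_le_mul_of_nonneg_right (min_le_right _ _) (norm_nonneg _))) v
    · exact h1 W (fun g hg v => (hW g (Or.inl hg) v).trans
        (mul_le_mul_of_nonneg_right (min_le_left _ _) (norm_nonneg _))) b hb v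


section cp

set_option synthInstance.maxHeartbeats 400000 in
lemma exists_gram {E F : Type} [NormedAddCommGroup E] [InnerProductSpace ℂ E] [CompleteSpace E]
    [NormedAddCommGroup F] [InnerProductSpace ℂ F] [CompleteSpace F] (T : E →L[ℂ] F) :
    ∃ S : E →L[ℂ] E, ∀ u v, inner ℂ (S u) (S v) = inner ℂ (T u) (T v) := by
  have hP : 0 ≤ ContinuousLinearMap.adjoint T ∘L T := by
    rw [ContinuousLinearMap.nonneg_iff_isPositive]
    exact ContinuousLinearMap.isPositive_adjoint_comp_self T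
  obtain ⟨S, hS⟩ := CStarAlgebra.nonneg_iff_eq_star_mul_self.1 hP
  refine ⟨S, fun u v => ?_⟩
  have h1 : inner ℂ u ((star S * S) v) = inner ℂ (S u) (S v) := by
    rw [ContinuousLinearMap.mul_apply, ContinuousLinearMap.star_eq_adjoint,
      ContinuousLinearMap.adjoint_inner_right]
  rw [← h1, ← hS, ContinuousLinearMap.comp_apply, ContinuousLinearMap.adjoint_inner_right]

variable {X : Type} [NormedAddCommGroup X] [InnerProductSpace ℂ X] [CompleteSpace X]

/-- compressions are completely positive -/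
lemma phi_cp [FiniteDimensional ℂ X] (J0 : X →L[ℂ] H) (n : ℕ)
    (y : Matrix (Fin n) (Fin n) (H →L[ℂ] H)) :
    ∃ z : Matrix (Fin n) (Fin n) (X →L[ℂ] X), ∀ p q,
      ContinuousLinearMap.adjoint J0 ∘L (∑ k, star (y k p) * y k q) ∘L J0 =
        ∑ k, star (z k p) * z k q := by
  classical
  let T0 : PiLp 2 (fun _ : Fin n => X) →ₗ[ℂ] PiLp 2 (fun _ : Fin n => H) :=
    { toFun := fun U => WithLp.toLp 2 (fun k => ∑ q, y k q (J0 (U q)))
      map_add' := fun U V => by
        ext k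
        simp [Finset.sum_add_distrib]
      map_smul' := fun c U => by
        ext k
        simp [Finset.smul_sum] }
  let T : PiLp 2 (fun _ : Fin n => X) →L[ℂ] PiLp 2 (fun _ : Fin n => H) :=
    LinearMap.toContinuousLinearMap T0
  obtain ⟨S, hS⟩ := exists_gram T
  let sg : Fin n → X →L[ℂ] PiLp 2 (fun _ : Fin n => X) := fun q =>
    LinearMap.toContinuousLinearMap
      { toFun := fun v => WithLp.toLp 2 (Pi.single q v)
        map_add' := fun u v => by rw [Pi.single_add]; rfl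
        map_smul' := fun c v => by rw [Pi.single_smul]; rfl }
  have hTs : ∀ p u k, T (sg p u) k = y k p (J0 u) := by
    intro p u k
    show ∑ q, y k q (J0 ((Pi.single p u : Fin n → X) q)) = _
    rw [Finset.sum_eq_single p]
    · rw [Pi.single_eq_same]
    · intro b _ hb
      rw [Pi.single_eq_of_ne hb, map_zero, map_zero]
    · intro h; exact absurd (Finset.mem_univ p) h
  refine ⟨fun m q => (PiLp.proj 2 (fun _ : Fin n => X) m : PiLp 2 (fun _ : Fin n => X) →L[ℂ] X) ∘L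
    S ∘L sg q, fun p q => ?_⟩
  ext v
  apply ext_inner_left ℂ
  intro u
  have h1 : inner ℂ u ((ContinuousLinearMap.adjoint J0 ∘L (∑ k, star (y k p) * y k q) ∘L J0) v) =
      ∑ k, inner ℂ (y k p (J0 u)) (y k q (J0 v)) := by
    rw [ContinuousLinearMap.comp_apply, ContinuousLinearMap.comp_apply,
      ContinuousLinearMap.adjoint_inner_right, ContinuousLinearMap.sum_apply, inner_sum]
    refine Finset.sum_congr rfl fun k _ => ?_
    rw [ContinuousLinearMap.mul_apply, ContinuousLinearMap.star_eq_adjoint,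
      ContinuousLinearMap.adjoint_inner_right]
  rw [h1, ContinuousLinearMap.sum_apply, inner_sum]
  have h2 := hS (sg p u) (sg q v)
  rw [PiLp.inner_apply, PiLp.inner_apply] at h2
  have h3 : ∀ k, inner ℂ (T (sg p u) k) (T (sg q v) k) =
      inner ℂ (y k p (J0 u)) (y k q (J0 v)) := by
    intro k; rw [hTs, hTs]
  rw [← Finset.sum_congr rfl (fun k _ => h3 k), ← h2]
  refine Finset.sum_congr rfl fun k _ => ?_
  rw [ContinuousLinearMap.mul_apply, ContinuousLinearMap.star_eq_adjoint,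
    ContinuousLinearMap.adjoint_inner_right]
  rfl

/-- the second map of the factorization -/
noncomputable def psiMap (ι W : H →L[ℂ] lp (fun _ : J => H) 2) (J0 : X →L[ℂ] H) :
    (X →L[ℂ] X) →ₗ[ℂ] (lp (fun _ : J => H) 2 →L[ℂ] lp (fun _ : J => H) 2) where
  toFun d := ι ∘L (ContinuousLinearMap.adjoint W) ∘L
    (amp (J0 ∘L d ∘L ContinuousLinearMap.adjoint J0)) ∘L W ∘L (ContinuousLinearMap.adjoint ι)
  map_add' d e := by
    rw [ContinuousLinearMap.add_comp, ContinuousLinearMap.comp_add, amp_add,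
      ContinuousLinearMap.add_comp, ContinuousLinearMap.comp_add, ContinuousLinearMap.comp_add]
  map_smul' c d := by
    rw [ContinuousLinearMap.smul_comp, ContinuousLinearMap.comp_smul, amp_smul,
      ContinuousLinearMap.smul_comp, ContinuousLinearMap.comp_smul, ContinuousLinearMap.comp_smul]
    rfl

lemma norm_apply_le' {E F : Type} [NormedAddCommGroup E] [InnerProductSpace ℂ E]
    [NormedAddCommGroup F] [InnerProductSpace ℂ F] (T : E →L[ℂ] F) (hT : ‖T‖ ≤ 1) (x : E) :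
    ‖T x‖ ≤ ‖x‖ := by
  calc ‖T x‖ ≤ ‖T‖ * ‖x‖ := T.le_opNorm x
    _ ≤ 1 * ‖x‖ := mul_le_mul_of_nonneg_right hT (norm_nonneg _)
    _ = ‖x‖ := one_mul _

lemma norm_adj_le {E F : Type} [NormedAddCommGroup E] [InnerProductSpace ℂ E] [CompleteSpace E]
    [NormedAddCommGroup F] [InnerProductSpace ℂ F] [CompleteSpace F] (T : E →L[ℂ] F)
    (hT : ‖T‖ ≤ 1) : ‖ContinuousLinearMap.adjoint T‖ ≤ 1 := by
  rw [LinearIsometryEquiv.norm_map]; exact hT

lemma norm_psiMap_le (ι W : H →L[ℂ] lp (fun _ : J => H) 2) (J0 : X →L[ℂ] H)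
    (h1 : ‖ι‖ ≤ 1) (h2 : ‖W‖ ≤ 1) (h3 : ‖J0‖ ≤ 1) (d : X →L[ℂ] X) : ‖psiMap ι W J0 d‖ ≤ ‖d‖ := by
  refine ContinuousLinearMap.opNorm_le_bound _ (norm_nonneg _) fun f => ?_
  show ‖ι (ContinuousLinearMap.adjoint W ((amp (J0 ∘L d ∘L ContinuousLinearMap.adjoint J0))
    (W (ContinuousLinearMap.adjoint ι f))))‖ ≤ ‖d‖ * ‖f‖
  refine (norm_apply_le' ι h1 _).trans ?_
  refine (norm_apply_le' _ (norm_adj_le W h2) _).trans ?_
  refine (norm_ampFun_le _ _).trans ?_
  have e1 : ‖J0 ∘L d ∘L ContinuousLinearMap.adjoint J0‖ ≤ ‖d‖ := by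
    refine ContinuousLinearMap.opNorm_le_bound _ (norm_nonneg _) fun x => ?_
    show ‖J0 (d (ContinuousLinearMap.adjoint J0 x))‖ ≤ ‖d‖ * ‖x‖
    refine (norm_apply_le' J0 h3 _).trans ?_
    refine (d.le_opNorm _).trans ?_
    exact mul_le_mul_of_nonneg_left (norm_apply_le' _ (norm_adj_le J0 h3) _) (norm_nonneg _)
  have e2 : ‖W (ContinuousLinearMap.adjoint ι f)‖ ≤ ‖f‖ :=
    (norm_apply_le' W h2 _).trans (norm_apply_le' _ (norm_adj_le ι h1) _)
  exact mul_le_mul e1 e2 (norm_nonneg _) (norm_nonneg _)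

lemma psi_cp (ι W : H →L[ℂ] lp (fun _ : J => H) 2) (J0 : X →L[ℂ] H)
    (hι : ContinuousLinearMap.adjoint ι ∘L ι = ContinuousLinearMap.id ℂ H)
    (hJ : ContinuousLinearMap.adjoint J0 ∘L J0 = ContinuousLinearMap.id ℂ X) (n : ℕ)
    (y : Matrix (Fin n) (Fin n) (X →L[ℂ] X)) :
    ∃ z : Matrix (Fin n) (Fin n) (lp (fun _ : J => H) 2 →L[ℂ] lp (fun _ : J => H) 2), ∀ p q,
      psiMap ι W J0 (∑ k, star (y k p) * y k q) = ∑ k, star (z k p) * z k q := by
  refine ⟨fun k q => (amp (J0 ∘L y k q ∘L ContinuousLinearMap.adjoint J0)) ∘L W ∘L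
    (ContinuousLinearMap.adjoint ι), fun p q => ?_⟩
  rw [map_sum]
  refine Finset.sum_congr rfl fun k _ => ?_
  have e1 : (J0 ∘L (star (y k p) * y k q) ∘L ContinuousLinearMap.adjoint J0) =
      ContinuousLinearMap.adjoint (J0 ∘L y k p ∘L ContinuousLinearMap.adjoint J0) ∘L
        (J0 ∘L y k q ∘L ContinuousLinearMap.adjoint J0) := by
    ext x
    rw [ContinuousLinearMap.adjoint_comp, ContinuousLinearMap.adjoint_comp,
      ContinuousLinearMap.adjoint_adjoint]
    show J0 (ContinuousLinearMap.adjoint (y k p) (y k q (ContinuousLinearMap.adjoint J0 x))) =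
      J0 (ContinuousLinearMap.adjoint (y k p) ((ContinuousLinearMap.adjoint J0 ∘L J0)
        (y k q (ContinuousLinearMap.adjoint J0 x))))
    rw [hJ]; rfl
  show ι ∘L (ContinuousLinearMap.adjoint W) ∘L
    (amp (J0 ∘L (star (y k p) * y k q) ∘L ContinuousLinearMap.adjoint J0)) ∘L W ∘L
      (ContinuousLinearMap.adjoint ι) = _
  rw [e1, amp_comp, amp_adjoint, ContinuousLinearMap.star_eq_adjoint,
    ContinuousLinearMap.adjoint_comp, ContinuousLinearMap.adjoint_comp,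
    ContinuousLinearMap.adjoint_adjoint]
  rfl

end cp

/-- compression to the range of an isometry, as a star homomorphism -/
noncomputable def conjHom {E F : Type} [NormedAddCommGroup E] [InnerProductSpace ℂ E]
    [CompleteSpace E] [NormedAddCommGroup F] [InnerProductSpace ℂ F] [CompleteSpace F]
    (ι : E →L[ℂ] F) (hι : ContinuousLinearMap.adjoint ι ∘L ι = ContinuousLinearMap.id ℂ E) :
    (E →L[ℂ] E) →⋆ₙₐ[ℂ] (F →L[ℂ] F) where
  toFun a := ι ∘L a ∘L ContinuousLinearMap.adjoint ι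
  map_smul' c a := by
    rw [ContinuousLinearMap.smul_comp, ContinuousLinearMap.comp_smul]; rfl
  map_zero' := by
    rw [ContinuousLinearMap.zero_comp, ContinuousLinearMap.comp_zero]
  map_add' a b := by
    rw [ContinuousLinearMap.add_comp, ContinuousLinearMap.comp_add]
  map_mul' a b := by
    ext x
    show ι (a (b (ContinuousLinearMap.adjoint ι x))) =
      ι (a ((ContinuousLinearMap.adjoint ι ∘L ι) (b (ContinuousLinearMap.adjoint ι x))))
    rw [hι]; rfl
  map_star' a := by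
    rw [ContinuousLinearMap.star_eq_adjoint, ContinuousLinearMap.star_eq_adjoint,
      ContinuousLinearMap.adjoint_comp, ContinuousLinearMap.adjoint_comp,
      ContinuousLinearMap.adjoint_adjoint]
    rfl

lemma conjHom_apply {E F : Type} [NormedAddCommGroup E] [InnerProductSpace ℂ E]
    [CompleteSpace E] [NormedAddCommGroup F] [InnerProductSpace ℂ F] [CompleteSpace F]
    (ι : E →L[ℂ] F) (hι : ContinuousLinearMap.adjoint ι ∘L ι = ContinuousLinearMap.id ℂ E)
    (a : E →L[ℂ] E) : conjHom ι hι a = ι ∘L a ∘L ContinuousLinearMap.adjoint ι := rfl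

lemma conjHom_injective {E F : Type} [NormedAddCommGroup E] [InnerProductSpace ℂ E]
    [CompleteSpace E] [NormedAddCommGroup F] [InnerProductSpace ℂ F] [CompleteSpace F]
    (ι : E →L[ℂ] F) (hι : ContinuousLinearMap.adjoint ι ∘L ι = ContinuousLinearMap.id ℂ E) :
    Function.Injective (conjHom ι hι) := by
  intro a b hab
  have h1 : ∀ c : E →L[ℂ] E,
      ContinuousLinearMap.adjoint ι ∘L (ι ∘L c ∘L ContinuousLinearMap.adjoint ι) ∘L ι = c := by
    intro c
    ext x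
    show (ContinuousLinearMap.adjoint ι ∘L ι) (c ((ContinuousLinearMap.adjoint ι ∘L ι) x)) = c x
    rw [hι]; rfl
  rw [conjHom_apply, conjHom_apply] at hab
  rw [← h1 a, hab, h1 b]

/-- compression to a subspace, as a linear map -/
noncomputable def phiMap {X : Type} [NormedAddCommGroup X] [InnerProductSpace ℂ X]
    [CompleteSpace X] (J0 : X →L[ℂ] H) : (H →L[ℂ] H) →ₗ[ℂ] (X →L[ℂ] X) where
  toFun a := ContinuousLinearMap.adjoint J0 ∘L a ∘L J0
  map_add' a b := by
    rw [ContinuousLinearMap.add_comp, ContinuousLinearMap.comp_add]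
  map_smul' c a := by
    rw [ContinuousLinearMap.smul_comp, ContinuousLinearMap.comp_smul]; rfl

lemma norm_phiMap_le {X : Type} [NormedAddCommGroup X] [InnerProductSpace ℂ X]
    [CompleteSpace X] (J0 : X →L[ℂ] H) (h3 : ‖J0‖ ≤ 1) (a : H →L[ℂ] H) :
    ‖phiMap J0 a‖ ≤ ‖a‖ := by
  refine ContinuousLinearMap.opNorm_le_bound _ (norm_nonneg _) fun x => ?_
  show ‖ContinuousLinearMap.adjoint J0 (a (J0 x))‖ ≤ ‖a‖ * ‖x‖
  refine (norm_apply_le' _ (norm_adj_le J0 h3) _).trans ?_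
  refine (a.le_opNorm _).trans ?_
  exact mul_le_mul_of_nonneg_left (norm_apply_le' _ h3 _) (norm_nonneg _)

lemma adj_comp_of_isometry {E F : Type} [NormedAddCommGroup E] [InnerProductSpace ℂ E]
    [CompleteSpace E] [NormedAddCommGroup F] [InnerProductSpace ℂ F] [CompleteSpace F]
    (ι : E →ₗᵢ[ℂ] F) :
    ContinuousLinearMap.adjoint ι.toContinuousLinearMap ∘L ι.toContinuousLinearMap =
      ContinuousLinearMap.id ℂ E := by
  ext x
  apply ext_inner_left ℂ
  intro u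
  rw [ContinuousLinearMap.comp_apply, ContinuousLinearMap.adjoint_inner_right]
  exact ι.inner_map_map u x

lemma proj_fix (X : Submodule ℂ H) [CompleteSpace X] (x : H) (hx : x ∈ X) :
    X.subtypeL (ContinuousLinearMap.adjoint X.subtypeL x) = x := by
  have h1 : ContinuousLinearMap.adjoint X.subtypeL x = (⟨x, hx⟩ : X) := by
    apply ext_inner_left ℂ
    intro u
    rw [ContinuousLinearMap.adjoint_inner_right]
    rfl
  rw [h1]; rfl

lemma proj_inner (X : Submodule ℂ H) [CompleteSpace X] (x : H) (hx : x ∈ X) (y : H) :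
    inner ℂ x (X.subtypeL (ContinuousLinearMap.adjoint X.subtypeL y)) = inner ℂ x y := by
  rw [← ContinuousLinearMap.adjoint_inner_left, ContinuousLinearMap.adjoint_inner_right,
    proj_fix X x hx]

lemma key_eq (W : H →ₗᵢ[ℂ] lp (fun _ : J => H) 2) (X : Submodule ℂ H) [CompleteSpace X]
    (hX : ∀ v j, W v j ∈ X) (a : H →L[ℂ] H) (v : H) :
    ContinuousLinearMap.adjoint W.toContinuousLinearMap (amp (X.subtypeL ∘L
      (phiMap X.subtypeL a) ∘L ContinuousLinearMap.adjoint X.subtypeL)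
        (W.toContinuousLinearMap v)) =
      ContinuousLinearMap.adjoint W.toContinuousLinearMap (amp a (W.toContinuousLinearMap v)) := by
  apply ext_inner_left ℂ
  intro u
  rw [ContinuousLinearMap.adjoint_inner_right, ContinuousLinearMap.adjoint_inner_right,
    lp.inner_eq_tsum, lp.inner_eq_tsum]
  congr 1; funext j
  have e1 : (amp (X.subtypeL ∘L (phiMap X.subtypeL a) ∘L
      ContinuousLinearMap.adjoint X.subtypeL) (W.toContinuousLinearMap v) :
        lp (fun _ : J => H) 2) j =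
      X.subtypeL (ContinuousLinearMap.adjoint X.subtypeL (a (X.subtypeL
        (ContinuousLinearMap.adjoint X.subtypeL (W v j))))) := rfl
  have e2 : (W.toContinuousLinearMap u : lp (fun _ : J => H) 2) j = W u j := rfl
  have e3 : (amp a (W.toContinuousLinearMap v) : lp (fun _ : J => H) 2) j = a (W v j) := rfl
  rw [e1, e2, e3, proj_fix X _ (hX v j), proj_inner X _ (hX u j)]

/-- the estimate for the factorization -/
lemma approx_bound (ι W : H →ₗᵢ[ℂ] lp (fun _ : J => H) 2) (X : Submodule ℂ H) [CompleteSpace X]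
    (hX : ∀ v j, W v j ∈ X) (a : H →L[ℂ] H) (ε : ℝ)
    (h : ∀ v, ‖ampFun a (W v) - W (a v)‖ ≤ ε * ‖v‖) (hε : 0 ≤ ε) :
    ‖psiMap ι.toContinuousLinearMap W.toContinuousLinearMap X.subtypeL
        (phiMap X.subtypeL a) -
      conjHom ι.toContinuousLinearMap (adj_comp_of_isometry ι) a‖ ≤ ε := by
  have hI1 : ‖ι.toContinuousLinearMap‖ ≤ 1 := ι.norm_toContinuousLinearMap_le
  have hW1 : ‖W.toContinuousLinearMap‖ ≤ 1 := W.norm_toContinuousLinearMap_le
  refine ContinuousLinearMap.opNorm_le_bound _ hε fun f => ?_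
  rw [ContinuousLinearMap.sub_apply]
  have e1 : psiMap ι.toContinuousLinearMap W.toContinuousLinearMap X.subtypeL
        (phiMap X.subtypeL a) f = ι (ContinuousLinearMap.adjoint W.toContinuousLinearMap
          (amp a (W.toContinuousLinearMap
            (ContinuousLinearMap.adjoint ι.toContinuousLinearMap f)))) := by
    rw [← key_eq W X hX a]
    rfl
  have e2 : conjHom ι.toContinuousLinearMap (adj_comp_of_isometry ι) a f =
      ι (ContinuousLinearMap.adjoint W.toContinuousLinearMap (W.toContinuousLinearMap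
        (a (ContinuousLinearMap.adjoint ι.toContinuousLinearMap f)))) := by
    have h0 := DFunLike.congr_fun (adj_comp_of_isometry W)
      (a (ContinuousLinearMap.adjoint ι.toContinuousLinearMap f))
    rw [ContinuousLinearMap.comp_apply] at h0
    rw [h0]
    rfl
  rw [e1, e2, ← map_sub, ι.norm_map, ← map_sub]
  refine (norm_apply_le' _ (norm_adj_le _ hW1) _).trans ?_
  refine (h _).trans ?_
  exact mul_le_mul_of_nonneg_left (norm_apply_le' _ (norm_adj_le _ hI1) _) hε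

omit [CompleteSpace H] in
lemma norm_lsingle [DecidableEq J] (j0 : J) (x : H) :
    ‖lp.lsingle (𝕜 := ℂ) (E := fun _ : J => H) 2 j0 x‖ = ‖x‖ := by
  have h2 : (0 : ℝ≥0∞) < 2 := by norm_num
  exact lp.norm_single (E := fun _ : J => H) h2 j0 x

/-- the isometric inclusion of a coordinate -/
noncomputable def iota [DecidableEq J] (j0 : J) : H →ₗᵢ[ℂ] lp (fun _ : J => H) 2 where
  toLinearMap := lp.lsingle (𝕜 := ℂ) (E := fun _ : J => H) 2 j0
  norm_map' := norm_lsingle j0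

/-- restriction of a star homomorphism to a subalgebra -/
noncomputable def piMap (A : NonUnitalStarSubalgebra ℂ (H →L[ℂ] H))
    (ι : H →ₗᵢ[ℂ] lp (fun _ : J => H) 2) :
    A →⋆ₙₐ[ℂ] (lp (fun _ : J => H) 2 →L[ℂ] lp (fun _ : J => H) 2) :=
  (conjHom ι.toContinuousLinearMap (adj_comp_of_isometry ι)).comp
    (NonUnitalStarSubalgebraClass.subtype A)

lemma piMap_apply (A : NonUnitalStarSubalgebra ℂ (H →L[ℂ] H))
    (ι : H →ₗᵢ[ℂ] lp (fun _ : J => H) 2) (a : A) :
    piMap A ι a = conjHom ι.toContinuousLinearMap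
      (adj_comp_of_isometry ι) (a : H →L[ℂ] H) := rfl

lemma piMap_injective (A : NonUnitalStarSubalgebra ℂ (H →L[ℂ] H))
    (ι : H →ₗᵢ[ℂ] lp (fun _ : J => H) 2) :
    Function.Injective (piMap A ι) := by
  intro a b hab
  exact Subtype.ext (conjHom_injective _ (adj_comp_of_isometry ι) hab)

/-- A C*-algebra of operators generated by a selfadjoint set is exact (nuclearly embeddable) if
finitely many generators can be approximately intertwined with their amplifications by isometries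
whose coordinates live in a finite-dimensional subspace. -/
theorem exact_criterion [Nonempty J] (𝒢 : Set (H →L[ℂ] H)) (hstar : ∀ g ∈ 𝒢, star g ∈ 𝒢)
    (hW : ∀ (F : Set (H →L[ℂ] H)), F.Finite → F ⊆ 𝒢 → ∀ ε > 0,
      ∃ (W : H →ₗᵢ[ℂ] lp (fun _ : J => H) 2) (X : Submodule ℂ H), FiniteDimensional ℂ X ∧
        (∀ v j, W v j ∈ X) ∧ ∀ g ∈ F, ∀ v, ‖ampFun g (W v) - W (g v)‖ ≤ ε * ‖v‖) :
    ∃ (B : Type) (_ : NonUnitalCStarAlgebra B)
      (π : ↥((NonUnitalStarAlgebra.adjoin ℂ 𝒢).topologicalClosure) →⋆ₙₐ[ℂ] B), Function.Injective π ∧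
      ∀ (F : Finset ↥((NonUnitalStarAlgebra.adjoin ℂ 𝒢).topologicalClosure)) (ε : ℝ), 0 < ε →
        ∃ (D : Type) (_ : CStarAlgebra D) (_ : FiniteDimensional ℂ D)
          (φ : ↥((NonUnitalStarAlgebra.adjoin ℂ 𝒢).topologicalClosure) →ₗ[ℂ] D) (ψ : D →ₗ[ℂ] B),
          (∀ a, ‖φ a‖ ≤ ‖a‖) ∧ (∀ d, ‖ψ d‖ ≤ ‖d‖) ∧
          (∀ (n : ℕ) (y : Matrix (Fin n) (Fin n) ↥((NonUnitalStarAlgebra.adjoin ℂ 𝒢).topologicalClosure)),
            ∃ z : Matrix (Fin n) (Fin n) D, (star y * y).map φ = star z * z) ∧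
          (∀ (n : ℕ) (y : Matrix (Fin n) (Fin n) D),
            ∃ z : Matrix (Fin n) (Fin n) B, (star y * y).map ψ = star z * z) ∧
          ∀ a ∈ F, ‖ψ (φ a) - π a‖ < ε := by
  classical
  obtain ⟨j0⟩ := ‹Nonempty J›
  obtain ⟨ι, -⟩ : ∃ ι : H →ₗᵢ[ℂ] lp (fun _ : J => H) 2, True := ⟨iota j0, trivial⟩
  have hI := adj_comp_of_isometry ι
  have hI1 : ‖ι.toContinuousLinearMap‖ ≤ 1 :=
    ι.norm_toContinuousLinearMap_le
  refine ⟨lp (fun _ : J => H) 2 →L[ℂ] lp (fun _ : J => H) 2, inferInstance,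
    piMap _ ι, piMap_injective _ ι, ?_⟩
  intro F ε hε
  obtain ⟨F', hF', hs', δ, hδ, h1⟩ := good_finset (𝒢 := 𝒢) (J := J) (F.image Subtype.val)
    (fun a ha => by
      obtain ⟨b, _, rfl⟩ := Finset.mem_image.1 ha
      exact good_closure hstar b.2) (ε / 2) (by positivity)
  obtain ⟨W, X, hXf, hWX, hWF⟩ := hW F' hF' hs' δ hδ
  have : CompleteSpace X := FiniteDimensional.complete ℂ X
  have hW1 : ‖W.toContinuousLinearMap‖ ≤ 1 := W.norm_toContinuousLinearMap_le
  have hX1 : ‖X.subtypeL‖ ≤ 1 := X.subtypeₗᵢ.norm_toContinuousLinearMap_le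
  have hXX : ContinuousLinearMap.adjoint X.subtypeL ∘L X.subtypeL =
    ContinuousLinearMap.id ℂ X := adj_comp_of_isometry X.subtypeₗᵢ
  refine ⟨X →L[ℂ] X, inferInstance, inferInstance,
    (phiMap X.subtypeL).comp (NonUnitalStarAlgebra.adjoin ℂ 𝒢).topologicalClosure.toSubmodule.subtype,
    psiMap ι.toContinuousLinearMap W.toContinuousLinearMap X.subtypeL, ?_, ?_, ?_, ?_, ?_⟩
  · intro a
    exact norm_phiMap_le _ hX1 _
  · intro d
    exact norm_psiMap_le _ _ _ hI1 hW1 hX1 d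
  · intro n y
    obtain ⟨z, hz⟩ := phi_cp X.subtypeL n (y.map Subtype.val)
    refine ⟨z, ?_⟩
    ext1 p q
    have h3 : (((star y * y) p q :
        ↥((NonUnitalStarAlgebra.adjoin ℂ 𝒢).topologicalClosure)) : H →L[ℂ] H) =
        ∑ k, star (y.map Subtype.val k p) * y.map Subtype.val k q :=
      map_sum (NonUnitalStarSubalgebraClass.subtype
        (NonUnitalStarAlgebra.adjoin ℂ 𝒢).topologicalClosure) _ _
    have h4 : phiMap X.subtypeL (((star y * y) p q :
        ↥((NonUnitalStarAlgebra.adjoin ℂ 𝒢).topologicalClosure)) : H →L[ℂ] H) =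
        ∑ k, star (z k p) * z k q := by
      rw [h3]
      exact hz p q
    exact h4
  · intro n y
    obtain ⟨z, hz⟩ := psi_cp ι.toContinuousLinearMap W.toContinuousLinearMap
      X.subtypeL hI hXX n y
    refine ⟨z, ?_⟩
    ext1 p q
    exact hz p q
  · intro a ha
    have h2 := approx_bound ι W X hWX (a : H →L[ℂ] H) (ε / 2)
      (h1 W hWF a (Finset.mem_image_of_mem _ ha)) (by positivity)
    exact lt_of_le_of_lt h2 (by linarith)

end Pool.Agent.Helper234.Exact.ZD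

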