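import Pool.Agent.Helper234.Exact.ZD
import Pool.Agent.Helper234.Exact.Z5
import Pool.Agent.Helper234.Exact.Z6
import Pool.Agent.Helper234.Exact.Z7
import Pool.Agent.Helper234.Exact.Z8
import Pool.Agent.Helper234.Exact.Z9

set_option autoImplicit false
open scoped ComplexOrder ENNReal InnerProductSpace

namespace Pool.Agent.Helper234.Exact

variable {d : ℕ} {S : Dat}

lemma inner_amp_V1_C0 (p : Par d S) (g g' : Gm d) (N : ℕ) (x : Pnt d S) (c : Ctr d S) :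
    ⟪ampFun (Lam g) (V1 N x), ampFun (Lam g') (C0 p c)⟫_ℂ = 0 := by
  classical
  rw [V1, VV, ampFun_smul, ampFun_sum, inner_smul_left, sum_inner, Finset.sum_eq_zero, mul_zero]
  intro k _
  cases c with
  | base σ =>
    rw [C0, ampFun_kk, ampFun_kk, inner_kk, if_neg (by simp)]
  | slot b n q z =>
    rw [C0, ampFun_sum, inner_sum]
    refine Finset.sum_eq_zero fun q' _ => ?_
    rw [ampFun_smul, ampFun_kk, ampFun_kk, inner_smul_right, inner_kk, if_neg (by simp), mul_zero]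

/-- amplified isometry: the norm is preserved by translations -/
lemma norm_amp_Lam {J : Type} (g : Gm d) (f : lp (fun _ : J => Hil d S) 2) : ‖ampFun (Lam g) f‖ = ‖f‖ := by
  have key : ∀ (h : Gm d) (v : lp (fun _ : J => Hil d S) 2), ‖ampFun (Lam h) v‖ ≤ ‖v‖ := by
    intro h v
    have h1 : ‖(Lam h : Hil d S →L[ℂ] Hil d S)‖ ≤ 1 := LinearIsometry.norm_toContinuousLinearMap_le _
    have h2 := ZD.norm_ampFun_le (Lam h) v
    nlinarith [norm_nonneg v]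
  refine le_antisymm (key g f) ?_
  have h3 := key g⁻¹ (ampFun (Lam g) f)
  have h4 : ampFun (Lam g⁻¹) (ampFun (Lam g) f) = f := by
    apply lp.ext
    funext j
    show Lam g⁻¹ (Lam g (f j)) = f j
    rw [← mul_apply_eq_comp, Lam_mul, inv_mul_cancel, Lam_one]
    rfl
  rwa [h4] at h3

lemma ampFun_sub' {J : Type} (T : Hil d S →L[ℂ] Hil d S) (f g : lp (fun _ : J => Hil d S) 2) :
    ampFun T (f - g) = ampFun T f - ampFun T g := by
  apply lp.ext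
  funext j
  show T ((f - g : lp (fun _ : J => Hil d S) 2) j) = T (f j) - T (g j)
  rw [lp.coeFn_sub, Pi.sub_apply, map_sub]

theorem exact_main (hd : 0 < d) (F : Set (Hil d S →L[ℂ] Hil d S)) (hF : F.Finite) (hFg : F ⊆ gens d S) (ε : ℝ)
    (hε : 0 < ε) : ∃ (W : Hil d S →ₗᵢ[ℂ] KK d S) (X : Submodule ℂ (Hil d S)), FiniteDimensional ℂ X ∧
      (∀ v j, W v j ∈ X) ∧ ∀ g ∈ F, ∀ v, ‖ampFun g (W v) - W (g v)‖ ≤ ε * ‖v‖ := by
  classical
  set δ : ℝ := ε / 2 with hδ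
  have hδ0 : 0 < δ := by positivity
  obtain ⟨M0, hM0⟩ := exists_nat_ge (Real.pi / 2 / δ)
  have hM : Real.pi / 2 ≤ (M0 + 1 : ℕ) * δ := by
    have h1 : Real.pi / 2 ≤ M0 * δ := by rwa [div_le_iff₀ hδ0] at hM0
    push_cast
    nlinarith
  obtain ⟨N0, hN0⟩ := exists_nat_ge (1 / δ ^ 2)
  have hN : 1 / ((N0 + 1 : ℕ) : ℝ) ≤ δ ^ 2 := by
    rw [div_le_iff₀ (by positivity)]
    have h1 : 1 ≤ N0 * δ ^ 2 := by rwa [div_le_iff₀ (by positivity)] at hN0
    push_cast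
    nlinarith [sq_nonneg δ]
  obtain ⟨p, hpM, hp⟩ := Z9.exists_par F hF hFg (M0 + 1) (Nat.succ_pos _)
  have hM' : Real.pi / 2 ≤ p.M * δ := by rw [hpM]; exact hM
  obtain ⟨hv, hmix⟩ := Z6.mixed p (N0 + 1) (Nat.succ_pos _) δ hδ0 hM' hN ⟨0, hd⟩
    (fun h h' => Z5.rep_unique p h h') (fun h1 h2 h3 h4 => Z5.inner_C p h1 h2 h3 h4)
    (fun g g' N x c => inner_amp_V1_C0 p g g' N x c)
  obtain ⟨X, hX, hXm⟩ := Z8.fin_XX p (N0 + 1) δ hv
  refine ⟨iso _ hv, X, hX, hXm, fun g hg v => ?_⟩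
  have hDd := fun x (h : Dd p x < p.M) => Z6.Dd_rep p x h
  rcases hp g hg with ⟨i, rfl | rfl⟩ | ⟨σ, hσ, rfl⟩ | ⟨b, hb, z, z', rfl⟩
  · have := hmix i v
    calc _ ≤ _ := this
      _ = ε * ‖v‖ := by rw [hδ]; ring
  · have h1 := hmix i (Lam (FreeGroup.of i)⁻¹ v)
    have h2 : Lam (FreeGroup.of i) (Lam (FreeGroup.of i)⁻¹ v) = v := by
      rw [← mul_apply_eq_comp, Lam_mul, mul_inv_cancel, Lam_one]
      rfl
    have h3 : ‖Lam (FreeGroup.of i)⁻¹ v‖ ≤ ‖v‖ := by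
      have h4 : ‖(Lam (FreeGroup.of i)⁻¹ : Hil d S →L[ℂ] Hil d S)‖ ≤ 1 :=
        LinearIsometry.norm_toContinuousLinearMap_le _
      have h5 := (Lam (FreeGroup.of i)⁻¹ : Hil d S →L[ℂ] Hil d S).le_opNorm v
      nlinarith [norm_nonneg v]
    have h6 : ‖ampFun (Lam (FreeGroup.of i)⁻¹) (iso _ hv v) - iso _ hv (Lam (FreeGroup.of i)⁻¹ v)‖ =
        ‖ampFun (Lam (FreeGroup.of i)) (iso _ hv (Lam (FreeGroup.of i)⁻¹ v)) -
          iso _ hv (Lam (FreeGroup.of i) (Lam (FreeGroup.of i)⁻¹ v))‖ := by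
      rw [h2, ← norm_neg, neg_sub, ← norm_amp_Lam (FreeGroup.of i), ampFun_sub']
      congr 2
      apply lp.ext
      funext j
      show Lam (FreeGroup.of i) (Lam (FreeGroup.of i)⁻¹ (iso _ hv v j)) = iso _ hv v j
      rw [← mul_apply_eq_comp, Lam_mul, mul_inv_cancel, Lam_one]
      rfl
    rw [h6]
    refine h1.trans ?_
    have : 2 * δ * ‖Lam (FreeGroup.of i)⁻¹ v‖ ≤ 2 * δ * ‖v‖ := by
      refine mul_le_mul_of_nonneg_left h3 (by positivity)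
    calc _ ≤ _ := this
      _ = ε * ‖v‖ := by rw [hδ]; ring
  · rw [Z7.inter_eP p (N0 + 1) δ hM' hδ0 (fun h h' => Z5.rep_unique p h h') hDd hv σ hσ v, sub_self, norm_zero]
    positivity
  · rw [Z7.inter_GG p (N0 + 1) δ hM' hδ0 (fun h h' => Z5.rep_unique p h h') hDd hv b hb z z' v, sub_self,
      norm_zero]
    positivity

end Pool.Agent.Helper234.Exact
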